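import Pool.Agent.RR.RoundsU
import Pool.Agent.Helper36.LL.PairNat

/-!
Proportionately dissociated sets of natural numbers; uniform form.
-/

set_option autoImplicit false

namespace Pool.Agent.RR

open Finset
open Pool.Agent.Helper36.LL (emb emb_sum DSN DSN_of_DS filter_map DS_of_DSN)

theorem uniform_nat (c : ℝ) (hc : 0 < c) : ∃ K : ℕ, ∀ A : Set ℕ,
    (∀ B : Finset ℕ, (↑B : Set ℕ) ⊆ A → ∃ D : Finset ℕ, D ⊆ B ∧ DSN D ∧
      c * (B.card : ℝ) ≤ (D.card : ℝ)) →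
    ∀ m n : ℕ, 1 ≤ m → n ≤ (fun j : ℕ => 2 ^ j)^[m] 1 →
    ∃ F : Fin (2 ^ (K * m) ^ m) → Set ℕ,
      A = ⋃ i, F i ∧ ∀ i, ∀ B : Finset ℕ, (↑B : Set ℕ) ⊆ F i → B.card ≤ n → DSN B := by
  classical
  obtain ⟨K, hK⟩ := uniform_group.{0} c hc
  refine ⟨K, fun A hA m n hm hn => ?_⟩
  obtain ⟨f, hf⟩ := hK ℤ (emb '' A) (by
    intro B hB
    obtain ⟨V, hVA, rfl⟩ : ∃ V : Finset ℕ, (V : Set ℕ) ⊆ A ∧ V.map emb = B := by
      refine ⟨B.preimage emb emb.injective.injOn, ?_, ?_⟩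
      · intro x hx
        rw [mem_coe, mem_preimage] at hx
        obtain ⟨y, hy, hyx⟩ := hB hx
        rwa [← emb.injective hyx]
      · ext x
        simp only [mem_map, mem_preimage]
        constructor
        · rintro ⟨y, hy, rfl⟩
          exact hy
        · intro hx
          obtain ⟨y, hy, rfl⟩ := hB hx
          exact ⟨y, hx, rfl⟩
    obtain ⟨D, hD, hd, hcard⟩ := hA V hVA
    refine ⟨D.map emb, Finset.map_subset_map.2 hD, DS_of_DSN hd, ?_⟩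
    rw [card_map, card_map]
    exact hcard) m n hm hn
  refine ⟨fun i => {x : ℕ | x ∈ A ∧ f (emb x) = i}, ?_, ?_⟩
  · ext x
    simp only [Set.mem_iUnion, Set.mem_ofPred_eq]
    exact ⟨fun h => ⟨_, h, rfl⟩, fun ⟨_, h, _⟩ => h⟩
  · intro i B hB hcard
    refine DSN_of_DS (hf (B.map emb) ?_ (by rwa [card_map]) ?_)
    · intro x hx
      obtain ⟨y, hy, rfl⟩ := Finset.mem_map.1 (Finset.mem_coe.1 hx)
      exact ⟨y, (hB (Finset.mem_coe.2 hy)).1, rfl⟩
    · intro x hx y hy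
      obtain ⟨x', hx', rfl⟩ := Finset.mem_map.1 hx
      obtain ⟨y', hy', rfl⟩ := Finset.mem_map.1 hy
      exact (hB hx').2.trans (hB hy').2.symm

end Pool.Agent.RR
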