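import Pool.Agent.RR.Chan

/-!
The hint inequality and the mass inequality: rows II.1 and II.2.
-/

set_option autoImplicit false
set_option linter.unusedSectionVars false

namespace Pool.Agent.RR

open Finset

variable {α V : Type*} [Fintype α] [DecidableEq α] [Fintype V] [DecidableEq V]

/-- The logarithms of the reference weights. -/
noncomputable def rho (b M' : ℝ) (d : ℤ) : ℝ :=
  if d = 0 then 0 else if d = 1 ∨ d = -1 then -b else -b - M'

@[simp] theorem rho_zero (b M' : ℝ) : rho b M' 0 = 0 := by simp [rho]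
@[simp] theorem rho_one (b M' : ℝ) : rho b M' 1 = -b := by simp [rho]
@[simp] theorem rho_neg_one (b M' : ℝ) : rho b M' (-1) = -b := by simp [rho]
@[simp] theorem rho_two (b M' : ℝ) : rho b M' 2 = -b - M' := by simp [rho]
@[simp] theorem rho_neg_two (b M' : ℝ) : rho b M' (-2) = -b - M' := by simp [rho]

/-- The logarithm of the cost of moving the digits `c` by `- K`. -/
noncomputable def shf (L : Lab α V) (ρ : ℤ → ℝ) (K : Finset α) (c : V → ℤ) : ℝ :=
  ∑ a ∈ K, (ρ (c (L.st a) - L.sg a) - ρ (c (L.st a)))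

/-- The hypotheses on the noise. -/
structure Axi (L : Lab α V) (g0 : (V → ℤ) → ℝ) (b M' e' : ℝ) (F : Finset α → ℝ) : Prop where
  noi : Noi g0
  b0 : 0 ≤ b
  bM : b ≤ M'
  act : ∀ v, ∑ c ∈ bx V 1, g0 c * (if c v = 0 then 0 else 1) ≤ e'
  hx : ∀ K, L.Pr K → ∑ c ∈ bx V 1, (if c - L.dg K ∈ bx V 1 then
    g0 c * Real.exp (shf L (rho b M') K c) else 0) ≤ 1
  hk : ∀ K, L.Pr K → ∑ c ∈ bx V 1, g0 c * Real.exp (shf L (rho b M') K c) ≤ Real.exp (- F K)

section digits

variable {b M' : ℝ} {t σ : ℤ}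

theorem three {t : ℤ} (h : -1 ≤ t ∧ t ≤ 1) : t = -1 ∨ t = 0 ∨ t = 1 := by omega

theorem dig1 (hb : 0 ≤ b) (hM : b ≤ M') (hσ : σ = 1 ∨ σ = -1) (ht : -1 ≤ t ∧ t ≤ 1) :
    rho b M' t - rho b M' (t + σ) ≤ b + (M' - b) * (if t = 0 then 0 else 1) := by
  rcases hσ with rfl | rfl <;> rcases three ht with rfl | rfl | rfl <;> norm_num <;> linarith

theorem dig2 (hb : 0 ≤ b) (hσ : σ = 1 ∨ σ = -1) (ht : -1 ≤ t ∧ t ≤ 1) :
    -(2 * b) - (M' - b) * (if t = 0 then 0 else 1) ≤
      (rho b M' (t - σ) - rho b M' t) - (rho b M' t - rho b M' (t + σ)) := by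
  rcases hσ with rfl | rfl <;> rcases three ht with rfl | rfl | rfl <;> norm_num <;> linarith

theorem dig3 (hb : 0 ≤ b) {d : ℤ} (hσ : σ = 1 ∨ σ = -1) (ht : -1 ≤ t ∧ t ≤ 1)
    (hd : d = 0 ∨ d = -σ) (h2 : -1 ≤ t + σ - d ∧ t + σ - d ≤ 1) :
    (rho b M' t - rho b M' (t + σ)) -
      (rho b M' (t + σ - d - σ) - rho b M' (t + σ - d)) ≤ 0 := by
  rcases hd with rfl | rfl
  · simp
  · have h3 : t = -σ := by
      rcases hσ with rfl | rfl <;> omega
    subst h3
    rcases hσ with rfl | rfl <;> norm_num <;> linarith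

theorem dig4 (hb : 0 ≤ b) {d : ℤ} (hσ : σ = 1 ∨ σ = -1) (ht : -1 ≤ t ∧ t ≤ 1)
    (hd : d = 0 ∨ d = -σ) (h2 : -1 ≤ t + σ - d ∧ t + σ - d ≤ 1) :
    0 ≤ (rho b M' (t + σ - d - σ) - rho b M' (t + σ - d)) -
      (rho b M' t - rho b M' (t + σ)) := by
  rcases hd with rfl | rfl
  · simp
  · have h3 : t = -σ := by
      rcases hσ with rfl | rfl <;> omega
    subst h3
    rcases hσ with rfl | rfl <;> norm_num <;> linarith

end digits

section main

variable {L : Lab α V} {g0 : (V → ℤ) → ℝ} {m : Finset α → ℝ} {b M' e' : ℝ} {F : Finset α → ℝ}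
variable {I : Type*} [Fintype I] {K : I → Finset α} {μ : I → Finset α → ℝ}

theorem jj_pos (hg : Noi g0) {ν : Finset α → ℝ} (hm : ∀ A, 0 ≤ m A) (hν : ∀ A, 0 ≤ ν A)
    {y : V → ℤ} {A : Finset α} (h : 0 < jj L g0 m ν y A) :
    0 < lam L g0 ν y ∧ 0 < m A ∧ 0 < g0 (y - L.dg A) ∧ 0 < lam L g0 m y := by
  have h1 := lam_nonneg (L := L) hg hν y
  have h2 := hm A
  have h3 := hg.nn (y - L.dg A)
  have h4 := lam_nonneg (L := L) hg hm y
  unfold jj at h
  refine ⟨?_, ?_, ?_, ?_⟩
  · refine lt_of_le_of_ne h1 fun e => ?_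
    rw [← e] at h; simp at h
  · refine lt_of_le_of_ne h2 fun e => ?_
    rw [← e] at h; simp at h
  · refine lt_of_le_of_ne h3 fun e => ?_
    rw [← e] at h; simp at h
  · refine lt_of_le_of_ne h4 fun e => ?_
    rw [← e] at h; simp at h

/-- The digits of the output at the revealed sites. -/
theorem Msg.out (h : Msg m K μ) (hg : Noi g0) (hm : Wd L m) {i : I} {y : V → ℤ}
    (hy : 0 < lam L g0 (μ i) y) {a : α} (ha : a ∈ K i) :
    -1 ≤ y (L.st a) - L.sg a ∧ y (L.st a) - L.sg a ≤ 1 := by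
  obtain ⟨A, _, hA⟩ := Finset.exists_ne_zero_of_sum_ne_zero hy.ne'
  have h1 : μ i A ≠ 0 := left_ne_zero_of_mul hA
  have h2 : g0 (y - L.dg A) ≠ 0 := right_ne_zero_of_mul hA
  have h3 : y - L.dg A ∈ bx V 1 := by
    by_contra hc
    exact h2 (hg.supp _ hc)
  have h4 := mem_bx.1 h3 (L.st a)
  have h5 := L.dg_mem ((h.wd hm i).pr A h1) (h.sub i A h1 ha)
  simp only [Pi.sub_apply, h5] at h4
  exact_mod_cast h4

/-- The positive parts of the digits in the support of `jj`. -/
theorem Msg.kp (h : Msg m K μ) (hm : Wd L m) {i : I} {y : V → ℤ}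
    (hy : 0 < lam L g0 (μ i) y) : L.Pr (K i) := by
  obtain ⟨A, _, hA⟩ := Finset.exists_ne_zero_of_sum_ne_zero hy.ne'
  have h1 : μ i A ≠ 0 := left_ne_zero_of_mul hA
  exact Lab.Pr.mono L ((h.wd hm i).pr A h1) (h.sub i A h1)

/-- Admissible moves of the replica noise. -/
theorem Msg.mv (h : Msg m K μ) (hg : Noi g0) (hm : Wd L m) {i : I} {y : V → ℤ} {A : Finset α}
    (hy : 0 < lam L g0 (μ i) y) (hA : L.Pr A) (hgA : y - L.dg A ∈ bx V 1) :
    y - L.dg A - L.dg (K i \ A) ∈ bx V 1 := by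
  rw [mem_bx]
  intro v
  have hp := Lab.Pr.mono L (h.kp hm hy) (Finset.sdiff_subset : K i \ A ⊆ K i)
  have h0 := mem_bx.1 hgA v
  simp only [Pi.sub_apply, Nat.cast_one] at h0 ⊢
  by_cases hv : ∃ a ∈ K i \ A, L.st a = v
  · obtain ⟨a, ha, rfl⟩ := hv
    rw [L.dg_mem hp ha]
    obtain ⟨ha1, ha2⟩ := Finset.mem_sdiff.1 ha
    have h1 := h.out hg hm hy ha1
    rcases L.dg_notMem hA ha2 with h2 | h2
    · rw [h2] at h0 ⊢
      omega
    · rw [h2] at h0 ⊢
      rcases L.sg1 a with h3 | h3 <;> rw [h3] at * <;> omega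
  · push Not at hv
    rw [L.dg_not hv]
    omega

theorem jj_le_hint (hg : Noi g0) {ν : Finset α → ℝ} (hm : ∀ A, 0 ≤ m A) (hν : ∀ A, 0 ≤ ν A)
    {y : V → ℤ} (hy : y ∈ bx V 2) (A : Finset α) : jj L g0 m ν y A ≤ hint L g0 m ν A :=
  Finset.single_le_sum (f := fun y => jj L g0 m ν y A)
    (fun y _ => jj_nonneg hg hm hν y A) hy

/-- The Gibbs inequality for the hint. -/
theorem Msg.gibbsX (h : Msg m K μ) (hX : Axi L g0 b M' e' F) (hm : Wd L m) (i : I) :
    ∑ A, hint L g0 m (μ i) A * Real.log (hint L g0 m (μ i) A * tot m / (m A * tot (μ i))) ≤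
      ∑ y ∈ bx V 2, lam L g0 (μ i) y *
        Real.log (lam L g0 (μ i) y * tot m / (lam L g0 m y * tot (μ i))) -
      ∑ y ∈ bx V 2, ∑ A, jj L g0 m (μ i) y A *
        shf L (rho b M') (K i \ A) (y - L.dg A) := by
  have hg := hX.noi
  set J := jj L g0 m (μ i) with hJ
  set H := hint L g0 m (μ i) with hH
  set q : (V → ℤ) × Finset α → ℝ := fun x => H x.2 *
    (if x.1 - L.dg x.2 - L.dg (K i \ x.2) ∈ bx V 1 then g0 (x.1 - L.dg x.2) *
      Real.exp (shf L (rho b M') (K i \ x.2) (x.1 - L.dg x.2)) else 0) with hq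
  have hJ0 : ∀ y A, 0 ≤ J y A := fun y A => jj_nonneg hg hm.nn (h.nn i) y A
  have hH0 : ∀ A, 0 ≤ H A := fun A => hint_nonneg hg hm.nn (h.nn i) A
  have G := gibbs0 (bx V 2 ×ˢ (Finset.univ : Finset (Finset α))) (fun x => J x.1 x.2) q
    (fun x _ => hJ0 _ _) (fun x _ => by
      refine mul_nonneg (hH0 _) ?_
      split_ifs
      · exact mul_nonneg (hg.nn _) (Real.exp_pos _).le
      · exact le_rfl) (by
      intro x hx hp
      obtain ⟨hx1, _⟩ := Finset.mem_product.1 hx
      obtain ⟨p1, p2, p3, p4⟩ := jj_pos hg hm.nn (h.nn i) hp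
      have hA := hm.pr x.2 p2.ne'
      have hgA : x.1 - L.dg x.2 ∈ bx V 1 := by
        by_contra hc
        exact p3.ne' (hg.supp _ hc)
      have h1 := h.mv hg hm p1 hA hgA
      simp only [hq]
      rw [if_pos h1]
      exact mul_pos (lt_of_lt_of_le hp (jj_le_hint hg hm.nn (h.nn i) hx1 _))
        (mul_pos p3 (Real.exp_pos _)))
  -- the masses
  have hmassJ : ∑ x ∈ bx V 2 ×ˢ (Finset.univ : Finset (Finset α)), J x.1 x.2 = ∑ A, H A := by
    rw [Finset.sum_product_right]
    rfl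
  have hmassq : ∑ x ∈ bx V 2 ×ˢ (Finset.univ : Finset (Finset α)), q x ≤ ∑ A, H A := by
    rw [Finset.sum_product_right]
    refine Finset.sum_le_sum fun A _ => ?_
    simp only [hq]
    rw [← Finset.mul_sum]
    by_cases h0 : H A = 0
    · rw [h0]; simp
    have hmA : m A ≠ 0 := by
      intro e
      apply h0
      rw [hH]
      unfold hint jj
      rw [e]
      simp
    have hA := hm.pr A hmA
    by_cases hl : ∀ y, lam L g0 (μ i) y = 0
    · exfalso
      apply h0
      rw [hH]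
      unfold hint jj
      simp [hl]
    push Not at hl
    obtain ⟨y0, hy0⟩ := hl
    have hy0' : 0 < lam L g0 (μ i) y0 :=
      lt_of_le_of_ne (lam_nonneg hg (h.nn i) y0) (Ne.symm hy0)
    have hK := Lab.Pr.mono L (h.kp hm hy0') (Finset.sdiff_subset : K i \ A ⊆ K i)
    have e1 : ∑ y ∈ bx V 2, (if y - L.dg A - L.dg (K i \ A) ∈ bx V 1 then g0 (y - L.dg A) *
        Real.exp (shf L (rho b M') (K i \ A) (y - L.dg A)) else 0) =
        ∑ c ∈ bx V 1, (if c - L.dg (K i \ A) ∈ bx V 1 then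
          g0 c * Real.exp (shf L (rho b M') (K i \ A) c) else 0) := by
      have := shift_sum (L := L) hg hA (fun y => if y - L.dg A - L.dg (K i \ A) ∈ bx V 1 then
        Real.exp (shf L (rho b M') (K i \ A) (y - L.dg A)) else 0)
      simp only [mul_ite, mul_zero, add_sub_cancel_right] at this
      exact this
    rw [e1]
    have := hX.hx _ hK
    nlinarith [hH0 A]
  have hGle : ∑ x ∈ bx V 2 ×ˢ (Finset.univ : Finset (Finset α)),
      J x.1 x.2 * Real.log (q x / J x.1 x.2) ≤ 0 := by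
    linarith
  rw [Finset.sum_product] at hGle
  -- expansion of the logarithm
  have hexp : ∀ y ∈ bx V 2, ∀ A, J y A * Real.log (q (y, A) / J y A) =
      J y A * Real.log (H A * tot m / (m A * tot (μ i))) -
      J y A * Real.log (lam L g0 (μ i) y * tot m / (lam L g0 m y * tot (μ i))) +
      J y A * shf L (rho b M') (K i \ A) (y - L.dg A) := by
    intro y hy A
    by_cases h0 : J y A = 0
    · rw [h0]; ring
    have hp : 0 < J y A := lt_of_le_of_ne (hJ0 y A) (Ne.symm h0)
    obtain ⟨p1, p2, p3, p4⟩ := jj_pos hg hm.nn (h.nn i) hp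
    have hA := hm.pr A p2.ne'
    have hgA : y - L.dg A ∈ bx V 1 := by
      by_contra hc
      exact p3.ne' (hg.supp _ hc)
    have h1 := h.mv hg hm p1 hA hgA
    have hHp : 0 < H A := lt_of_lt_of_le hp (jj_le_hint hg hm.nn (h.nn i) hy _)
    have ht : 0 < tot m := lt_of_lt_of_le p2 (le_tot hm.nn A)
    have hti : 0 < tot (μ i) := by
      have hne : tot (μ i) ≠ 0 := by
        intro e
        have h2 : ∀ B, μ i B = 0 := by
          intro B
          have := (Finset.sum_eq_zero_iff_of_nonneg (fun B _ => h.nn i B)).1 e B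
            (Finset.mem_univ B)
          exact this
        have h3 : lam L g0 (μ i) y = 0 := by
          unfold lam
          exact Finset.sum_eq_zero fun B _ => by rw [h2 B, zero_mul]
        exact p1.ne' h3
      exact lt_of_le_of_ne (Finset.sum_nonneg fun B _ => h.nn i B) (Ne.symm hne)
    have e2 : q (y, A) / J y A = H A * lam L g0 m y / (m A * lam L g0 (μ i) y) *
        Real.exp (shf L (rho b M') (K i \ A) (y - L.dg A)) := by
      simp only [hq, hJ]
      rw [if_pos h1]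
      unfold jj
      field_simp
    rw [e2, Real.log_mul (by positivity) (Real.exp_pos _).ne', Real.log_exp,
      Real.log_div (by positivity) (by positivity), Real.log_div (by positivity) (by positivity),
      Real.log_div (by positivity) (by positivity), Real.log_mul hHp.ne' p4.ne',
      Real.log_mul p2.ne' p1.ne', Real.log_mul hHp.ne' ht.ne', Real.log_mul p2.ne' hti.ne',
      Real.log_mul p1.ne' ht.ne', Real.log_mul p4.ne' hti.ne']
    ring
  rw [Finset.sum_congr rfl fun y hy => Finset.sum_congr rfl fun A _ => hexp y hy A] at hGle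
  simp only [Finset.sum_add_distrib, Finset.sum_sub_distrib] at hGle
  have e3 : ∑ y ∈ bx V 2, ∑ A, J y A * Real.log (H A * tot m / (m A * tot (μ i))) =
      ∑ A, H A * Real.log (H A * tot m / (m A * tot (μ i))) := by
    rw [Finset.sum_comm]
    refine Finset.sum_congr rfl fun A _ => ?_
    rw [← Finset.sum_mul]
    rfl
  have e4 : ∑ y ∈ bx V 2, ∑ A, J y A *
      Real.log (lam L g0 (μ i) y * tot m / (lam L g0 m y * tot (μ i))) =
      ∑ y ∈ bx V 2, lam L g0 (μ i) y *
        Real.log (lam L g0 (μ i) y * tot m / (lam L g0 m y * tot (μ i))) := by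
    refine Finset.sum_congr rfl fun y _ => ?_
    rw [← Finset.sum_mul, h.jj_sum hg i y]
  rw [e3, e4] at hGle
  linarith

theorem tot_pos_of_lam {ν : Finset α → ℝ} (hν : ∀ A, 0 ≤ ν A) {y : V → ℤ}
    (hy : 0 < lam L g0 ν y) : 0 < tot ν := by
  have hne : tot ν ≠ 0 := by
    intro e
    have h3 : lam L g0 ν y = 0 := by
      unfold lam
      refine Finset.sum_eq_zero fun B _ => ?_
      rw [(Finset.sum_eq_zero_iff_of_nonneg (fun B _ => hν B)).1 e B (Finset.mem_univ B), zero_mul]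
    exact hy.ne' h3
  exact lt_of_le_of_ne (Finset.sum_nonneg fun B _ => hν B) (Ne.symm hne)

/-- The Gibbs inequality for the mass inequality. -/
theorem Msg.gibbsM (h : Msg m K μ) (hX : Axi L g0 b M' e' F) (hm : Wd L m) (i : I) :
    tot (μ i) * F (K i) + ∑ y ∈ bx V 2, ∑ A, jj L g0 m (μ i) y A *
        shf L (rho b M') (K i) (y - L.dg A) ≤
      ∑ y ∈ bx V 2, lam L g0 (μ i) y *
        Real.log (lam L g0 (μ i) y * tot m / (lam L g0 m y * tot (μ i))) := by
  have hg := hX.noi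
  set J := jj L g0 m (μ i) with hJ
  set q : (V → ℤ) × Finset α → ℝ := fun x => tot (μ i) / tot m * (m x.2 *
    (g0 (x.1 - L.dg x.2) * Real.exp (shf L (rho b M') (K i) (x.1 - L.dg x.2)))) *
    Real.exp (F (K i)) with hq
  have hJ0 : ∀ y A, 0 ≤ J y A := fun y A => jj_nonneg hg hm.nn (h.nn i) y A
  have ht0 : 0 ≤ tot m := Finset.sum_nonneg fun B _ => hm.nn B
  have hti0 : 0 ≤ tot (μ i) := Finset.sum_nonneg fun B _ => h.nn i B
  have G := gibbs0 (bx V 2 ×ˢ (Finset.univ : Finset (Finset α))) (fun x => J x.1 x.2) q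
    (fun x _ => hJ0 _ _) (fun x _ => by
      have h1 := hm.nn x.2
      have h2 := hg.nn (x.1 - L.dg x.2)
      positivity) (by
      intro x hx hp
      obtain ⟨p1, p2, p3, p4⟩ := jj_pos hg hm.nn (h.nn i) hp
      have h1 := tot_pos_of_lam (h.nn i) p1
      have h2 := tot_pos_of_lam hm.nn p4
      simp only [hq]
      positivity)
  have hmassJ : ∑ x ∈ bx V 2 ×ˢ (Finset.univ : Finset (Finset α)), J x.1 x.2 = tot (μ i) := by
    rw [Finset.sum_product, Finset.sum_congr rfl fun y _ => h.jj_sum hg i y,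
      lam_tot hg (h.wd hm i)]
  have hmassq : ∑ x ∈ bx V 2 ×ˢ (Finset.univ : Finset (Finset α)), q x ≤ tot (μ i) := by
    by_cases hti : tot (μ i) = 0
    · have : ∀ x, q x = 0 := by
        intro x
        simp only [hq]
        rw [hti]; simp
      rw [Finset.sum_congr rfl fun x _ => this x]
      simp [hti]
    have hti' : 0 < tot (μ i) := lt_of_le_of_ne hti0 (Ne.symm hti)
    have ht : 0 < tot m := lt_of_lt_of_le hti' (h.tot_le i)
    have hK : L.Pr (K i) := by
      obtain ⟨A, _, hA⟩ := Finset.exists_ne_zero_of_sum_ne_zero hti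
      exact Lab.Pr.mono L ((h.wd hm i).pr A hA) (h.sub i A hA)
    rw [Finset.sum_product_right]
    have e1 : ∀ A, ∑ y ∈ bx V 2, q (y, A) ≤ tot (μ i) / tot m * m A := by
      intro A
      simp only [hq]
      rw [← Finset.sum_mul, ← Finset.mul_sum, ← Finset.mul_sum]
      by_cases h0 : m A = 0
      · rw [h0]; simp
      have := shift_sum (L := L) hg (hm.pr A h0)
        (fun y => Real.exp (shf L (rho b M') (K i) (y - L.dg A)))
      simp only [add_sub_cancel_right] at this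
      rw [this]
      have h1 := hX.hk _ hK
      have h2 : (∑ c ∈ bx V 1, g0 c * Real.exp (shf L (rho b M') (K i) c)) *
          Real.exp (F (K i)) ≤ 1 := by
        calc _ ≤ Real.exp (- F (K i)) * Real.exp (F (K i)) :=
              mul_le_mul_of_nonneg_right h1 (Real.exp_pos _).le
          _ = 1 := by rw [← Real.exp_add]; simp
      have h3 : 0 ≤ tot (μ i) / tot m * m A := by
        have := hm.nn A
        positivity
      calc _ = tot (μ i) / tot m * m A * ((∑ c ∈ bx V 1, g0 c *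
          Real.exp (shf L (rho b M') (K i) c)) * Real.exp (F (K i))) := by ring
        _ ≤ tot (μ i) / tot m * m A * 1 := mul_le_mul_of_nonneg_left h2 h3
        _ = _ := mul_one _
    refine (Finset.sum_le_sum fun A _ => e1 A).trans ?_
    rw [← Finset.mul_sum]
    change tot (μ i) / tot m * tot m ≤ _
    rw [div_mul_cancel₀ _ ht.ne']
  have hGle : ∑ x ∈ bx V 2 ×ˢ (Finset.univ : Finset (Finset α)),
      J x.1 x.2 * Real.log (q x / J x.1 x.2) ≤ 0 := by
    linarith
  rw [Finset.sum_product] at hGle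
  have hexp : ∀ y ∈ bx V 2, ∀ A, J y A * Real.log (q (y, A) / J y A) =
      J y A * F (K i) -
      J y A * Real.log (lam L g0 (μ i) y * tot m / (lam L g0 m y * tot (μ i))) +
      J y A * shf L (rho b M') (K i) (y - L.dg A) := by
    intro y hy A
    by_cases h0 : J y A = 0
    · rw [h0]; ring
    have hp : 0 < J y A := lt_of_le_of_ne (hJ0 y A) (Ne.symm h0)
    obtain ⟨p1, p2, p3, p4⟩ := jj_pos hg hm.nn (h.nn i) hp
    have hti := tot_pos_of_lam (h.nn i) p1
    have ht := tot_pos_of_lam hm.nn p4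
    have e2 : q (y, A) / J y A = (lam L g0 m y * tot (μ i)) / (lam L g0 (μ i) y * tot m) *
        (Real.exp (shf L (rho b M') (K i) (y - L.dg A)) * Real.exp (F (K i))) := by
      simp only [hq, hJ]
      unfold jj
      field_simp
    rw [e2, Real.log_mul (by positivity) (by positivity), Real.log_mul (Real.exp_pos _).ne'
      (Real.exp_pos _).ne', Real.log_exp, Real.log_exp,
      Real.log_div (by positivity) (by positivity), Real.log_div (by positivity) (by positivity),
      Real.log_mul p4.ne' hti.ne', Real.log_mul p1.ne' ht.ne']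
    ring
  rw [Finset.sum_congr rfl fun y hy => Finset.sum_congr rfl fun A _ => hexp y hy A] at hGle
  simp only [Finset.sum_add_distrib, Finset.sum_sub_distrib] at hGle
  have e3 : ∑ y ∈ bx V 2, ∑ A, J y A * F (K i) = tot (μ i) * F (K i) := by
    rw [← hmassJ, Finset.sum_product, Finset.sum_mul]
    exact Finset.sum_congr rfl fun y _ => (Finset.sum_mul _ _ _).symm
  have e4 : ∑ y ∈ bx V 2, ∑ A, J y A *
      Real.log (lam L g0 (μ i) y * tot m / (lam L g0 m y * tot (μ i))) =
      ∑ y ∈ bx V 2, lam L g0 (μ i) y *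
        Real.log (lam L g0 (μ i) y * tot m / (lam L g0 m y * tot (μ i))) := by
    refine Finset.sum_congr rfl fun y _ => ?_
    rw [← Finset.sum_mul, h.jj_sum hg i y]
  rw [e3, e4] at hGle
  linarith

theorem lin2 {X Y : Type*} (s : Finset X) (t : Finset Y) (J f g : X → Y → ℝ) (a b : ℝ) :
    ∑ x ∈ s, ∑ y ∈ t, J x y * (a * f x y + b * g x y) =
      a * ∑ x ∈ s, ∑ y ∈ t, J x y * f x y + b * ∑ x ∈ s, ∑ y ∈ t, J x y * g x y := by
  rw [Finset.mul_sum, Finset.mul_sum, ← Finset.sum_add_distrib]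
  refine Finset.sum_congr rfl fun x _ => ?_
  rw [Finset.mul_sum, Finset.mul_sum, ← Finset.sum_add_distrib]
  exact Finset.sum_congr rfl fun y _ => by ring

theorem lin2' {X Y : Type*} (s : Finset X) (t : Finset Y) (J f g : X → Y → ℝ) (a b : ℝ) :
    ∑ x ∈ s, ∑ y ∈ t, J x y * (a * f x y - b * g x y) =
      a * ∑ x ∈ s, ∑ y ∈ t, J x y * f x y - b * ∑ x ∈ s, ∑ y ∈ t, J x y * g x y := by
  have := lin2 s t J f g a (-b)
  simp only [neg_mul, ← sub_eq_add_neg] at this
  exact this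

/-! ### sums over the revealed labels -/

/-- The gain of the revealed labels. -/
theorem Msg.gain (h : Msg m K μ) (hg : Noi g0) (hm : Wd L m) (ρ : ℤ → ℝ) (i : I) :
    ∑ y ∈ bx V 2, lam L g0 (μ i) y * ∑ a ∈ K i, (ρ (y (L.st a) - L.sg a) - ρ (y (L.st a))) =
      tot (μ i) * ll L g0 ρ (K i) := by
  rw [RR.lam_sum hg (h.wd hm i)]
  unfold tot
  rw [Finset.sum_mul]
  refine Finset.sum_congr rfl fun A _ => ?_
  by_cases h0 : μ i A = 0
  · rw [h0, zero_mul, zero_mul]
  congr 1
  have hA := (h.wd hm i).pr A h0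
  have hs := h.sub i A h0
  unfold ll la
  rw [Finset.sum_comm]
  refine Finset.sum_congr rfl fun c _ => ?_
  rw [Finset.mul_sum]
  refine Finset.sum_congr rfl fun a ha => ?_
  simp only [Pi.add_apply, L.dg_mem hA (hs ha), add_sub_cancel_right]

/-- The activity of the revealed labels. -/
theorem Msg.actv (h : Msg m K μ) (hX : Axi L g0 b M' e' F) (hm : Wd L m) (i : I) :
    ∑ y ∈ bx V 2, lam L g0 (μ i) y *
      ∑ a ∈ K i, (if y (L.st a) - L.sg a = 0 then (0 : ℝ) else 1) ≤
      tot (μ i) * (e' * (K i).card) := by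
  rw [RR.lam_sum hX.noi (h.wd hm i)]
  unfold tot
  rw [Finset.sum_mul]
  refine Finset.sum_le_sum fun A _ => ?_
  by_cases h0 : μ i A = 0
  · rw [h0, zero_mul, zero_mul]
  refine mul_le_mul_of_nonneg_left ?_ (h.nn i A)
  have hA := (h.wd hm i).pr A h0
  have hs := h.sub i A h0
  have e1 : ∑ c ∈ bx V 1, g0 c * ∑ a ∈ K i,
      (if (c + L.dg A) (L.st a) - L.sg a = 0 then (0 : ℝ) else 1) =
      ∑ a ∈ K i, ∑ c ∈ bx V 1, g0 c * (if c (L.st a) = 0 then 0 else 1) := by
    rw [Finset.sum_comm]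
    refine Finset.sum_congr rfl fun c _ => ?_
    rw [Finset.mul_sum]
    refine Finset.sum_congr rfl fun a ha => ?_
    simp only [Pi.add_apply, L.dg_mem hA (hs ha), add_sub_cancel_right]
  rw [e1]
  calc _ ≤ ∑ a ∈ K i, e' := Finset.sum_le_sum fun a _ => hX.act _
    _ = e' * (K i).card := by rw [Finset.sum_const, nsmul_eq_mul, mul_comm]

/-- The visible mass. -/
noncomputable def phi (L : Lab α V) (g0 : (V → ℤ) → ℝ) (m : Finset α → ℝ) (K : I → Finset α)
    (μ : I → Finset α → ℝ) : ℝ :=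
  ∑ i, ∑ A, hint L g0 m (μ i) A * ((K i ∩ A).card : ℝ)

theorem Msg.key (h : Msg m K μ) (hX : Axi L g0 b M' e' F) (hm : Wd L m) (i : I) :
    tot (μ i) * ll L g0 (rho b M') (K i) -
        ∑ y ∈ bx V 2, ∑ A, jj L g0 m (μ i) y A * shf L (rho b M') (K i \ A) (y - L.dg A) ≤
      b * ∑ A, hint L g0 m (μ i) A * ((K i ∩ A).card : ℝ) +
        (M' - b) * e' * (tot (μ i) * (K i).card) ∧
    -(2 * b) * ∑ A, hint L g0 m (μ i) A * ((K i ∩ A).card : ℝ) -
        (M' - b) * e' * (tot (μ i) * (K i).card) ≤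
      ∑ y ∈ bx V 2, ∑ A, jj L g0 m (μ i) y A * shf L (rho b M') (K i) (y - L.dg A) -
        tot (μ i) * ll L g0 (rho b M') (K i) := by
  have hg := hX.noi
  set J := jj L g0 m (μ i) with hJ
  have hJ0 : ∀ y A, 0 ≤ J y A := fun y A => jj_nonneg hg hm.nn (h.nn i) y A
  have hbM : 0 ≤ M' - b := by have := hX.bM; linarith
  -- the sums over `J`
  have s1 : tot (μ i) * ll L g0 (rho b M') (K i) = ∑ y ∈ bx V 2, ∑ A, J y A *
      ∑ a ∈ K i, (rho b M' (y (L.st a) - L.sg a) - rho b M' (y (L.st a))) := by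
    rw [← h.gain hg hm (rho b M') i]
    refine Finset.sum_congr rfl fun y _ => ?_
    rw [← Finset.sum_mul, h.jj_sum hg i y]
  have s2 : ∑ y ∈ bx V 2, ∑ A, J y A *
      ∑ a ∈ K i, (if y (L.st a) - L.sg a = 0 then (0 : ℝ) else 1) ≤
      tot (μ i) * (e' * (K i).card) := by
    refine le_trans (le_of_eq ?_) (h.actv hX hm i)
    refine Finset.sum_congr rfl fun y _ => ?_
    rw [← Finset.sum_mul, h.jj_sum hg i y]
  have s3 : ∑ A, hint L g0 m (μ i) A * ((K i ∩ A).card : ℝ) =
      ∑ y ∈ bx V 2, ∑ A, J y A * ((K i ∩ A).card : ℝ) := by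
    rw [Finset.sum_comm]
    refine Finset.sum_congr rfl fun A _ => ?_
    rw [← Finset.sum_mul]
    rfl
  have s4 : (M' - b) * ∑ y ∈ bx V 2, ∑ A, J y A *
      ∑ a ∈ K i, (if y (L.st a) - L.sg a = 0 then (0 : ℝ) else 1) ≤
      (M' - b) * e' * (tot (μ i) * (K i).card) := by
    have := mul_le_mul_of_nonneg_left s2 hbM
    linarith
  -- pointwise inequalities
  have hpt : ∀ y A, J y A ≠ 0 → ∀ a ∈ K i, (-1 ≤ y (L.st a) - L.sg a ∧
      y (L.st a) - L.sg a ≤ 1) ∧ (a ∈ A → L.dg A (L.st a) = L.sg a) ∧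
      (a ∉ A → (L.dg A (L.st a) = 0 ∨ L.dg A (L.st a) = - L.sg a)) ∧
      -1 ≤ y (L.st a) - L.dg A (L.st a) ∧ y (L.st a) - L.dg A (L.st a) ≤ 1 := by
    intro y A h0 a ha
    have hp : 0 < J y A := lt_of_le_of_ne (hJ0 y A) (Ne.symm h0)
    obtain ⟨p1, p2, p3, p4⟩ := jj_pos hg hm.nn (h.nn i) hp
    have hA := hm.pr A p2.ne'
    refine ⟨h.out hg hm p1 ha, fun h1 => L.dg_mem hA h1, fun h1 => L.dg_notMem hA h1, ?_⟩
    have hgA : y - L.dg A ∈ bx V 1 := by
      by_contra hc
      exact p3.ne' (hg.supp _ hc)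
    have := mem_bx.1 hgA (L.st a)
    simpa using this
  have hcard : ∀ A : Finset α, ((K i ∩ A).card : ℝ) = ∑ a ∈ K i, (if a ∈ A then (1 : ℝ) else 0) := by
    intro A
    rw [Finset.sum_ite_mem]
    simp
  constructor
  · have hpw : ∀ y A, J y A * (∑ a ∈ K i, (rho b M' (y (L.st a) - L.sg a) -
        rho b M' (y (L.st a))) - shf L (rho b M') (K i \ A) (y - L.dg A)) ≤
        J y A * (b * ((K i ∩ A).card : ℝ) + (M' - b) *
          ∑ a ∈ K i, (if y (L.st a) - L.sg a = 0 then (0 : ℝ) else 1)) := by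
      intro y A
      by_cases h0 : J y A = 0
      · rw [h0]; simp
      refine mul_le_mul_of_nonneg_left ?_ (hJ0 y A)
      have e1 : shf L (rho b M') (K i \ A) (y - L.dg A) = ∑ a ∈ K i, (if a ∈ A then 0 else
          (rho b M' ((y - L.dg A) (L.st a) - L.sg a) - rho b M' ((y - L.dg A) (L.st a)))) := by
        unfold shf
        rw [Finset.sdiff_eq_filter, Finset.sum_filter]
        refine Finset.sum_congr rfl fun a _ => ?_
        by_cases ha : a ∈ A <;> simp [ha]
      rw [e1, hcard, Finset.mul_sum, Finset.mul_sum, ← Finset.sum_sub_distrib,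
        ← Finset.sum_add_distrib]
      refine Finset.sum_le_sum fun a ha => ?_
      obtain ⟨q1, q2, q3, q4⟩ := hpt y A h0 a ha
      by_cases haA : a ∈ A
      · rw [if_pos haA, if_pos haA]
        have := dig1 (b := b) (M' := M') hX.b0 hX.bM (L.sg1 a) q1
        rw [sub_add_cancel] at this
        linarith
      · rw [if_neg haA, if_neg haA]
        have := dig3 (b := b) (M' := M') hX.b0 (L.sg1 a) q1 (q3 haA) (by
          rw [sub_add_cancel]; exact q4)
        rw [sub_add_cancel] at this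
        have h5 : (0 : ℝ) ≤ (M' - b) * (if y (L.st a) - L.sg a = 0 then (0 : ℝ) else 1) := by
          refine mul_nonneg hbM ?_
          split_ifs <;> norm_num
        simp only [Pi.sub_apply]
        linarith
    have hsum := Finset.sum_le_sum fun y (_ : y ∈ bx V 2) =>
      Finset.sum_le_sum fun A (_ : A ∈ (Finset.univ : Finset (Finset α))) => hpw y A
    have t0 : ∑ y ∈ bx V 2, ∑ A, J y A * (∑ a ∈ K i, (rho b M' (y (L.st a) - L.sg a) -
        rho b M' (y (L.st a))) - shf L (rho b M') (K i \ A) (y - L.dg A)) =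
        tot (μ i) * ll L g0 (rho b M') (K i) -
        ∑ y ∈ bx V 2, ∑ A, J y A * shf L (rho b M') (K i \ A) (y - L.dg A) := by
      rw [s1, ← Finset.sum_sub_distrib]
      refine Finset.sum_congr rfl fun y _ => ?_
      rw [← Finset.sum_sub_distrib]
      exact Finset.sum_congr rfl fun A _ => mul_sub _ _ _
    have t1 : ∑ y ∈ bx V 2, ∑ A, J y A * (b * ((K i ∩ A).card : ℝ) + (M' - b) *
        ∑ a ∈ K i, (if y (L.st a) - L.sg a = 0 then (0 : ℝ) else 1)) =
        b * ∑ y ∈ bx V 2, ∑ A, J y A * ((K i ∩ A).card : ℝ) +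
        (M' - b) * ∑ y ∈ bx V 2, ∑ A, J y A *
          ∑ a ∈ K i, (if y (L.st a) - L.sg a = 0 then (0 : ℝ) else 1) := by
      exact lin2 (bx V 2) Finset.univ J (fun _ A => ((K i ∩ A).card : ℝ))
        (fun y _ => ∑ a ∈ K i, (if y (L.st a) - L.sg a = 0 then (0 : ℝ) else 1)) b (M' - b)
    rw [t0, t1, ← s3] at hsum
    linarith
  · have hpw : ∀ y A, J y A * (-(2 * b) * ((K i ∩ A).card : ℝ) - (M' - b) *
          ∑ a ∈ K i, (if y (L.st a) - L.sg a = 0 then (0 : ℝ) else 1)) ≤
        J y A * (shf L (rho b M') (K i) (y - L.dg A) -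
          ∑ a ∈ K i, (rho b M' (y (L.st a) - L.sg a) - rho b M' (y (L.st a)))) := by
      intro y A
      by_cases h0 : J y A = 0
      · rw [h0]; simp
      refine mul_le_mul_of_nonneg_left ?_ (hJ0 y A)
      unfold shf
      rw [hcard, Finset.mul_sum, Finset.mul_sum, ← Finset.sum_sub_distrib,
        ← Finset.sum_sub_distrib]
      refine Finset.sum_le_sum fun a ha => ?_
      obtain ⟨q1, q2, q3, q4⟩ := hpt y A h0 a ha
      by_cases haA : a ∈ A
      · rw [if_pos haA]
        have := dig2 (b := b) (M' := M') hX.b0 (L.sg1 a) q1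
        rw [sub_add_cancel] at this
        simp only [Pi.sub_apply]
        rw [q2 haA]
        linarith
      · rw [if_neg haA]
        have := dig4 (b := b) (M' := M') hX.b0 (L.sg1 a) q1 (q3 haA) (by
          rw [sub_add_cancel]; exact q4)
        rw [sub_add_cancel] at this
        have h5 : (0 : ℝ) ≤ (M' - b) * (if y (L.st a) - L.sg a = 0 then (0 : ℝ) else 1) := by
          refine mul_nonneg hbM ?_
          split_ifs <;> norm_num
        simp only [Pi.sub_apply]
        linarith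
    have hsum := Finset.sum_le_sum fun y (_ : y ∈ bx V 2) =>
      Finset.sum_le_sum fun A (_ : A ∈ (Finset.univ : Finset (Finset α))) => hpw y A
    have t0 : ∑ y ∈ bx V 2, ∑ A, J y A * (shf L (rho b M') (K i) (y - L.dg A) -
          ∑ a ∈ K i, (rho b M' (y (L.st a) - L.sg a) - rho b M' (y (L.st a)))) =
        ∑ y ∈ bx V 2, ∑ A, J y A * shf L (rho b M') (K i) (y - L.dg A) -
        tot (μ i) * ll L g0 (rho b M') (K i) := by
      rw [s1, ← Finset.sum_sub_distrib]
      refine Finset.sum_congr rfl fun y _ => ?_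
      rw [← Finset.sum_sub_distrib]
      exact Finset.sum_congr rfl fun A _ => mul_sub _ _ _
    have t1 : ∑ y ∈ bx V 2, ∑ A, J y A * (-(2 * b) * ((K i ∩ A).card : ℝ) - (M' - b) *
        ∑ a ∈ K i, (if y (L.st a) - L.sg a = 0 then (0 : ℝ) else 1)) =
        -(2 * b) * ∑ y ∈ bx V 2, ∑ A, J y A * ((K i ∩ A).card : ℝ) -
        (M' - b) * ∑ y ∈ bx V 2, ∑ A, J y A *
          ∑ a ∈ K i, (if y (L.st a) - L.sg a = 0 then (0 : ℝ) else 1) := by
      exact lin2' (bx V 2) Finset.univ J (fun _ A => ((K i ∩ A).card : ℝ))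
        (fun y _ => ∑ a ∈ K i, (if y (L.st a) - L.sg a = 0 then (0 : ℝ) else 1))
        (-(2 * b)) (M' - b)
    rw [t0, t1, ← s3] at hsum
    linarith

end main

end Pool.Agent.RR
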