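import Pool.Agent.RR.Gas
import Pool.Agent.RR.Hint
import Pool.Agent.SP.Pd
import Pool.Agent.SP.Second

/-!
# From the gas of a level to the ternary gas over real numbers
-/

set_option autoImplicit false
set_option linter.unusedSectionVars false

namespace Pool.Agent.RR

open Finset Real
open scoped ENNReal
open Pool.Agent.Helper36.LL (FF tern)
open Pool.Agent.SP (SS sg mem_SS FF_tern_sum PD Fin0 kap)

variable {G : Type*} [AddCommGroup G] [DecidableEq G]

/-- The gas of a level over the reals. -/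
noncomputable def gs (P : Finset G) (p : ℝ≥0∞) (η : ℝ) (U : G → ℝ≥0∞) :
    Gs {v // v ∈ P} G where
  x v := v.1
  p := p.toReal
  η := η
  U g := (U g).toReal

/-- The digits of a signed set. -/
def dT (P : Finset G) (T : Finset G × Finset G) (v : {v // v ∈ P}) : ℤ :=
  (if v.1 ∈ T.1 then 1 else 0) - (if v.1 ∈ T.2 then 1 else 0)

/-- The positive and negative parts of a configuration. -/
def cT (P : Finset G) (c : {v // v ∈ P} → ℤ) : Finset G × Finset G :=
  ((univ.filter (fun v => c v = 1)).map (Function.Embedding.subtype _),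
    (univ.filter (fun v => c v = -1)).map (Function.Embedding.subtype _))

theorem mem_cT1 {P : Finset G} {c : {v // v ∈ P} → ℤ} (v : {v // v ∈ P}) :
    v.1 ∈ (cT P c).1 ↔ c v = 1 := by
  unfold cT
  rw [Finset.mem_map]
  constructor
  · rintro ⟨w, hw, e⟩
    rw [Finset.mem_filter] at hw
    have : w = v := Subtype.ext e
    rw [← this]
    exact hw.2
  · intro h
    exact ⟨v, Finset.mem_filter.2 ⟨Finset.mem_univ _, h⟩, rfl⟩

theorem mem_cT2 {P : Finset G} {c : {v // v ∈ P} → ℤ} (v : {v // v ∈ P}) :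
    v.1 ∈ (cT P c).2 ↔ c v = -1 := by
  unfold cT
  rw [Finset.mem_map]
  constructor
  · rintro ⟨w, hw, e⟩
    rw [Finset.mem_filter] at hw
    have : w = v := Subtype.ext e
    rw [← this]
    exact hw.2
  · intro h
    exact ⟨v, Finset.mem_filter.2 ⟨Finset.mem_univ _, h⟩, rfl⟩

theorem cT_SS (P : Finset G) (c : {v // v ∈ P} → ℤ) : cT P c ∈ SS P := by
  rw [mem_SS]
  refine ⟨?_, ?_, ?_⟩
  · intro x hx
    unfold cT at hx
    obtain ⟨w, _, rfl⟩ := Finset.mem_map.1 hx
    exact w.2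
  · intro x hx
    unfold cT at hx
    obtain ⟨w, _, rfl⟩ := Finset.mem_map.1 hx
    exact w.2
  · rw [Finset.disjoint_left]
    intro x hx hx'
    have hP : x ∈ P := by
      unfold cT at hx
      obtain ⟨w, _, rfl⟩ := Finset.mem_map.1 hx
      exact w.2
    have h1 := (mem_cT1 ⟨x, hP⟩).1 hx
    have h2 := (mem_cT2 ⟨x, hP⟩).1 hx'
    omega

theorem dT_bx (P : Finset G) (T : Finset G × Finset G) : dT P T ∈ bx {v // v ∈ P} 1 := by
  rw [mem_bx]
  intro v
  unfold dT
  split_ifs <;> simp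

theorem dT_cT {P : Finset G} {c : {v // v ∈ P} → ℤ} (hc : c ∈ bx {v // v ∈ P} 1) :
    dT P (cT P c) = c := by
  funext v
  have h1 := mem_bx.1 hc v
  unfold dT
  rw [if_congr (mem_cT1 v) rfl rfl, if_congr (mem_cT2 v) rfl rfl]
  push_cast at h1
  split_ifs <;> omega

theorem cT_dT {P : Finset G} {T : Finset G × Finset G} (hT : T ∈ SS P) : cT P (dT P T) = T := by
  rw [mem_SS] at hT
  obtain ⟨h1, h2, h3⟩ := hT
  refine Prod.ext ?_ ?_
  · ext x
    constructor
    · intro hx
      have hP : x ∈ P := (mem_SS.1 (cT_SS P (dT P T))).1 hx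
      have := (mem_cT1 ⟨x, hP⟩).1 hx
      unfold dT at this
      by_contra h4
      simp only [h4, if_false] at this
      split_ifs at this <;> omega
    · intro hx
      refine (mem_cT1 ⟨x, h1 hx⟩).2 ?_
      have h4 : x ∉ T.2 := fun h => (Finset.disjoint_left.1 h3) hx h
      unfold dT
      simp only [hx, h4, if_true, if_false]
      norm_num
  · ext x
    constructor
    · intro hx
      have hP : x ∈ P := (mem_SS.1 (cT_SS P (dT P T))).2.1 hx
      have := (mem_cT2 ⟨x, hP⟩).1 hx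
      unfold dT at this
      by_contra h4
      simp only [h4, if_false] at this
      split_ifs at this <;> omega
    · intro hx
      refine (mem_cT2 ⟨x, h2 hx⟩).2 ?_
      have h4 : x ∉ T.1 := fun h => (Finset.disjoint_left.1 h3) h hx
      unfold dT
      simp only [hx, h4, if_true, if_false]
      norm_num

theorem dT_s {P : Finset G} {p : ℝ≥0∞} {η : ℝ} {U : G → ℝ≥0∞} {T : Finset G × Finset G}
    (hT : T ∈ SS P) : (gs P p η U).s (dT P T) = sg T.1 T.2 := by
  rw [mem_SS] at hT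
  obtain ⟨h1, h2, _⟩ := hT
  unfold Gs.s dT gs sg
  simp only [sub_smul, ite_smul, one_smul, zero_smul, Finset.sum_sub_distrib]
  have e : ∀ A ⊆ P, ∑ v : {v // v ∈ P}, (if v.1 ∈ A then v.1 else 0) = ∑ x ∈ A, x := by
    intro A hA
    have e1 := Finset.sum_coe_sort P (fun x => if x ∈ A then x else 0)
    rw [Finset.sum_ite_mem, Finset.inter_eq_right.2 hA] at e1
    exact e1
  rw [e _ h1, e _ h2]

theorem dT_wc {P : Finset G} {p : ℝ≥0∞} {η : ℝ} {U : G → ℝ≥0∞} {T : Finset G × Finset G}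
    (hT : T ∈ SS P) : (gs P p η U).wc (dT P T) = p.toReal ^ (T.1.card + T.2.card) := by
  rw [mem_SS] at hT
  obtain ⟨h1, h2, h3⟩ := hT
  unfold Gs.wc
  have e0 : ∀ v : {v // v ∈ P}, wt (gs P p η U).p (dT P T v) =
      (if v.1 ∈ T.1 then p.toReal else 1) * (if v.1 ∈ T.2 then p.toReal else 1) := by
    intro v
    unfold dT wt gs
    by_cases h4 : v.1 ∈ T.1
    · have h5 : v.1 ∉ T.2 := fun h => (Finset.disjoint_left.1 h3) h4 h
      simp [h4, h5]
    · by_cases h5 : v.1 ∈ T.2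
      · simp [h4, h5]
      · simp [h4, h5]
  rw [Finset.prod_congr rfl fun v _ => e0 v, Finset.prod_mul_distrib]
  have e : ∀ A ⊆ P, ∏ v : {v // v ∈ P}, (if v.1 ∈ A then p.toReal else 1) =
      p.toReal ^ A.card := by
    intro A hA
    have e1 := Finset.prod_coe_sort P (fun x => if x ∈ A then p.toReal else 1)
    rw [Finset.prod_ite_mem, Finset.inter_eq_right.2 hA, Finset.prod_const] at e1
    exact e1
  rw [e _ h1, e _ h2, pow_add]

/-- Sums over configurations are sums over signed sets. -/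
theorem sum_bx (P : Finset G) (F : ({v // v ∈ P} → ℤ) → ℝ) :
    ∑ c ∈ bx {v // v ∈ P} 1, F c = ∑ T ∈ SS P, F (dT P T) := by
  refine Finset.sum_bij' (fun c _ => cT P c) (fun T _ => dT P T) ?_ ?_ ?_ ?_ ?_
  · intro c _
    exact cT_SS P c
  · intro T _
    exact dT_bx P T
  · intro c hc
    exact dT_cT hc
  · intro T hT
    exact cT_dT hT
  · intro c hc
    rw [dT_cT hc]

section toReal

variable {p : ℝ≥0∞} {η : ℝ} {U : G → ℝ≥0∞}

theorem FF_toReal (P : Finset G) (hp : p ≠ ⊤) (hU : ∀ g, U g ≠ ⊤) (g : G) :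
    (FF (fun _ => tern p) P U g).toReal =
      ∑ T ∈ SS P, p.toReal ^ (T.1.card + T.2.card) * (U (g - sg T.1 T.2)).toReal := by
  rw [FF_tern_sum, ENNReal.toReal_sum]
  · exact Finset.sum_congr rfl fun T _ => by rw [ENNReal.toReal_mul, ENNReal.toReal_pow]
  · intro T _
    exact ENNReal.mul_ne_top (ENNReal.pow_ne_top hp) (hU _)

/-- The gas. -/
theorem gs_W (P : Finset G) (hp : p ≠ ⊤) (hU : ∀ g, U g ≠ ⊤) (g : G) :
    (gs P p η U).W g = (FF (fun _ => tern p) P U g).toReal := by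
  rw [FF_toReal P hp hU]
  unfold Gs.W
  rw [sum_bx]
  refine Finset.sum_congr rfl fun T hT => ?_
  rw [dT_s hT, dT_wc hT]
  rfl

/-- The configurations which vanish at one site. -/
theorem gs_erase {P : Finset G} (hp : p ≠ ⊤) (hU : ∀ g, U g ≠ ⊤) (g : G) (v : {v // v ∈ P}) :
    ∑ c ∈ (bx {v // v ∈ P} 1).filter (fun c => c v = 0),
      (gs P p η U).wc c * (gs P p η U).U (g - (gs P p η U).s c) =
        (FF (fun _ => tern p) (P.erase v.1) U g).toReal := by
  rw [FF_toReal _ hp hU, Finset.sum_filter, sum_bx, ← Finset.sum_filter]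
  refine Finset.sum_congr ?_ ?_
  · ext T
    rw [Finset.mem_filter, mem_SS, mem_SS, Finset.subset_erase, Finset.subset_erase]
    unfold dT
    constructor
    · rintro ⟨⟨h1, h2, h3⟩, h4⟩
      have h5 : v.1 ∈ T.1 → v.1 ∉ T.2 := fun h h' => (Finset.disjoint_left.1 h3) h h'
      by_cases h6 : v.1 ∈ T.1
      · have h7 := h5 h6
        simp [h6, h7] at h4
      · by_cases h7 : v.1 ∈ T.2
        · simp [h6, h7] at h4
        · exact ⟨⟨h1, h6⟩, ⟨h2, h7⟩, h3⟩
    · rintro ⟨⟨h1, h2⟩, ⟨h3, h4⟩, h5⟩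
      refine ⟨⟨h1, h3, h5⟩, ?_⟩
      simp [h2, h4]
  · intro T hT
    have hT' : T ∈ SS P := (mem_SS.2 (by
      rw [mem_SS] at hT
      exact ⟨hT.1.trans (Finset.erase_subset _ _), hT.2.1.trans (Finset.erase_subset _ _),
        hT.2.2⟩))
    rw [dT_s hT', dT_wc hT']
    rfl

/-- The hypotheses on the gas. -/
theorem gs_ok (P : Finset G) (hp0 : p ≠ 0) (hp : p ≤ 2⁻¹) (hη : 0 < η) (hη1 : η ≤ p.toReal)
    (hU : PD U) (hU0 : Fin0 U) : (gs P p η U).Ok := by
  have hpt : p ≠ ⊤ := ne_top_of_le_ne_top (by norm_num) hp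
  have hUt : ∀ g, U g ≠ ⊤ := fun g => ne_top_of_le_ne_top hU0.2 (hU.le_zero g)
  have h0 := hU0.FF_tern hU hp P
  refine ⟨?_, ?_, hη, hη1, ?_, ?_, ?_, ?_⟩
  · exact ENNReal.toReal_pos hp0 hpt
  · show p.toReal ≤ 1
    have h1 : p.toReal ≤ (2⁻¹ : ℝ≥0∞).toReal := ENNReal.toReal_mono (by norm_num) hp
    have h2 : (2⁻¹ : ℝ≥0∞).toReal = 2⁻¹ := by norm_num
    rw [h2] at h1
    linarith
  · intro g
    exact ENNReal.toReal_nonneg
  · intro g
    show (U (-g)).toReal = (U g).toReal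
    rw [hU.neg]
  · rw [gs_W P hpt hUt]
    exact ENNReal.toReal_pos h0.1 h0.2
  · intro g
    rw [gs_W P hpt hUt, gs_W P hpt hUt]
    exact ENNReal.toReal_mono h0.2 ((hU.FF_tern hp P).le_zero g)

/-- The activity of one site. -/
theorem gs_act {P : Finset G} (hp0 : p ≠ 0) (hp : p ≤ 2⁻¹) (hη : 0 < η) (hη1 : η ≤ p.toReal)
    (hU : PD U) (hU0 : Fin0 U) (v : {v // v ∈ P}) {e' : ℝ}
    (h : (1 - e') * (FF (fun _ => tern p) P U 0).toReal ≤
      (FF (fun _ => tern p) (P.erase v.1) U 0).toReal) :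
    ∑ c ∈ bx {v // v ∈ P} 1, (gs P p η U).g0 c * (if c v = 0 then 0 else 1) ≤ e' := by
  have hpt : p ≠ ⊤ := ne_top_of_le_ne_top (by norm_num) hp
  have hUt : ∀ g, U g ≠ ⊤ := fun g => ne_top_of_le_ne_top hU0.2 (hU.le_zero g)
  have hok := gs_ok P hp0 hp hη hη1 hU hU0
  have h1 := Gs.g0_sum hok
  have h2 := gs_erase (η := η) hpt hUt 0 v
  have h3 : ∑ c ∈ (bx {v // v ∈ P} 1).filter (fun c => c v = 0), (gs P p η U).g0 c =
      (FF (fun _ => tern p) (P.erase v.1) U 0).toReal / (gs P p η U).W 0 := by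
    rw [← h2, Finset.sum_div]
    refine Finset.sum_congr rfl fun c _ => ?_
    unfold Gs.g0
    rw [zero_sub]
  have h4 : ∑ c ∈ bx {v // v ∈ P} 1, (gs P p η U).g0 c * (if c v = 0 then 0 else 1) =
      ∑ c ∈ bx {v // v ∈ P} 1, (gs P p η U).g0 c -
        ∑ c ∈ (bx {v // v ∈ P} 1).filter (fun c => c v = 0), (gs P p η U).g0 c := by
    rw [Finset.sum_filter, ← Finset.sum_sub_distrib]
    refine Finset.sum_congr rfl fun c _ => ?_
    split_ifs <;> ring
  have h0 := hok.Z0
  rw [h4, h1, h3]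
  rw [← gs_W (η := η) P hpt hUt] at h
  rw [sub_le_comm, le_div_iff₀ h0]
  exact h

end toReal

/-! ### Labels -/

namespace Gs

variable {V H α : Type*} [Fintype V] [DecidableEq V] [AddCommGroup H] [Fintype α] [DecidableEq α]
  {P : Gs V H}

theorem s_dg (L : Lab α V) (K : Finset α) :
    P.s (L.dg K) = ∑ a ∈ K, L.sg a • P.x (L.st a) := by
  unfold s
  have h1 : ∀ v, L.dg K v • P.x v = ∑ a ∈ K, if L.st a = v then L.sg a • P.x v else 0 := by
    intro v
    rw [L.dg_apply, Finset.sum_smul]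
    refine Finset.sum_congr rfl fun a _ => ?_
    split_ifs
    · rfl
    · rw [zero_smul]
  rw [Finset.sum_congr rfl fun v _ => h1 v, Finset.sum_comm]
  refine Finset.sum_congr rfl fun a _ => ?_
  rw [Finset.sum_ite_eq, if_pos (Finset.mem_univ _)]

/-- The two forms of the reference weights. -/
theorem rho_eq {d : ℤ} (h1 : -2 ≤ d) (h2 : d ≤ 2) :
    Pool.Agent.RR.rho (-log P.p) (log P.p - log P.η) d = P.rho d := by
  unfold Pool.Agent.RR.rho rho rf
  split_ifs with h3 h4 h5
  · rw [log_one]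
  · ring
  · ring
  · exfalso
    omega

theorem shf_eq (L : Lab α V) (K : Finset α) {c : V → ℤ} (hc : c ∈ bx V 1) :
    shf L (Pool.Agent.RR.rho (-log P.p) (log P.p - log P.η)) K c =
      ∑ a ∈ K, (P.rho (c (L.st a) - L.sg a) - P.rho (c (L.st a))) := by
  unfold shf
  refine Finset.sum_congr rfl fun a _ => ?_
  have h1 := mem_bx.1 hc (L.st a)
  push_cast at h1
  rw [rho_eq (by rcases L.sg1 a with h | h <;> rw [h] <;> omega)
    (by rcases L.sg1 a with h | h <;> rw [h] <;> omega), rho_eq (by omega) (by omega)]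

/-- The elementary inequality behind (HK). -/
theorem thr_exp {η f : ℝ} (hη : 0 ≤ η) (hf : 0 ≤ f) (hf1 : f ≤ 1) (n : ℕ) :
    (1 + 2 * η) ^ n - f ≤ exp (-(f - 4 * η * n)) := by
  set x := 2 * η * n with hx
  have hx0 : 0 ≤ x := by positivity
  have h1 : (1 + 2 * η) ^ n ≤ exp x := by
    have h2 : 1 + 2 * η ≤ exp (2 * η) := by
      have := add_one_le_exp (2 * η)
      linarith
    calc (1 + 2 * η) ^ n ≤ (exp (2 * η)) ^ n := pow_le_pow_left₀ (by linarith) h2 n
      _ = exp x := by rw [← exp_nat_mul, hx]; ring_nf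
  have h2 : exp x - f = exp x * (1 - f * exp (-x)) := by
    rw [mul_sub, mul_one, mul_left_comm, ← exp_add]
    simp
  have h3 : 1 - f * exp (-x) ≤ exp (-(f * exp (-x))) := by
    have := add_one_le_exp (-(f * exp (-x)))
    linarith
  have h4 : exp x * (1 - f * exp (-x)) ≤ exp (x + -(f * exp (-x))) := by
    rw [exp_add]
    exact mul_le_mul_of_nonneg_left h3 (exp_pos _).le
  have h5 : x + -(f * exp (-x)) ≤ -(f - 4 * η * n) := by
    have h6 : 1 - x ≤ exp (-x) := by
      have := add_one_le_exp (-x)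
      linarith
    have h7 : f * (1 - x) ≤ f * exp (-x) := mul_le_mul_of_nonneg_left h6 hf
    have h8 : f * x ≤ x := by nlinarith
    nlinarith
  calc (1 + 2 * η) ^ n - f ≤ exp x - f := by linarith
    _ ≤ exp (x + -(f * exp (-x))) := by rw [h2]; exact h4
    _ ≤ _ := exp_le_exp.2 h5

/-- The hypotheses on the noise. -/
theorem axi (h : P.Ok) (L : Lab α V) (hη : P.η ≤ P.p ^ 2) {e' : ℝ}
    (hact : ∀ v, ∑ c ∈ bx V 1, P.g0 c * (if c v = 0 then 0 else 1) ≤ e') {f : ℕ → ℝ}
    (hf0 : ∀ n, 0 ≤ f n)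
    (hf : ∀ K, L.Pr K → f K.card ≤ 1 - P.W (P.s (L.dg K)) / P.W 0) :
    Axi L P.g0 (-log P.p) (log P.p - log P.η) e' (fun K => f K.card - 4 * P.η * K.card) where
  noi := noi h
  b0 := by
    have := log_nonpos h.p0.le h.p1
    linarith
  bM := by
    have h1 : log P.η ≤ log (P.p ^ 2) := log_le_log h.η0 hη
    rw [log_pow] at h1
    push_cast at h1
    linarith
  act := hact
  hx := by
    intro K hK
    have h1 := exp_le_one h hK
    rw [Finset.sum_filter] at h1
    refine le_trans (le_of_eq ?_) h1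
    refine Finset.sum_congr rfl fun c hc => ?_
    rw [shf_eq L K hc]
  hk := by
    intro K hK
    have h1 := exp_le h hK
    have h2 := hf K hK
    have h3 : 0 ≤ P.W (P.s (L.dg K)) / P.W 0 := by
      refine div_nonneg ?_ h.Z0.le
      unfold W
      exact Finset.sum_nonneg fun c _ => mul_nonneg (wc_nonneg h c) (h.U0 _)
    have h4 := thr_exp h.η0.le (hf0 K.card) (by linarith) K.card
    have h5 : ∑ c ∈ bx V 1, P.g0 c *
        exp (shf L (Pool.Agent.RR.rho (-log P.p) (log P.p - log P.η)) K c) =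
        ∑ c ∈ bx V 1, P.g0 c *
          exp (∑ a ∈ K, (P.rho (c (L.st a) - L.sg a) - P.rho (c (L.st a)))) :=
      Finset.sum_congr rfl fun c hc => by rw [shf_eq L K hc]
    rw [h5]
    linarith

end Gs

/-- The signed labels over `Y`. -/
def lb {P Y : Finset G} (hY : Y ⊆ P) : Lab ({v // v ∈ Y} × Bool) {v // v ∈ P} where
  st a := ⟨a.1.1, hY a.1.2⟩
  sg a := if a.2 then 1 else -1
  sg1 a := by
    cases a.2
    · right
      rfl
    · left
      rfl
  inj a a' h1 h2 := by
    have h3 : a.1 = a'.1 := Subtype.ext (congrArg (fun z : {v // v ∈ P} => z.1) h1)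
    refine Prod.ext h3 ?_
    cases h4 : a.2 <;> cases h5 : a'.2 <;> simp_all

/-- The signed set of a set of labels. -/
def kT {Y : Finset G} (K : Finset ({v // v ∈ Y} × Bool)) : Finset G × Finset G :=
  ((K.filter (fun a => a.2 = true)).image (fun a => a.1.1),
    (K.filter (fun a => a.2 = false)).image (fun a => a.1.1))

/-- The labels of a signed set. -/
def tK (Y : Finset G) (T : Finset G × Finset G) : Finset ({v // v ∈ Y} × Bool) :=
  univ.filter (fun a => (a.2 = true ∧ a.1.1 ∈ T.1) ∨ (a.2 = false ∧ a.1.1 ∈ T.2))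

section labels

variable {P Y : Finset G} {hY : Y ⊆ P}

theorem kT_SS {K : Finset ({v // v ∈ Y} × Bool)} (hK : (lb hY).Pr K) : kT K ∈ SS Y := by
  rw [mem_SS]
  unfold kT
  refine ⟨?_, ?_, ?_⟩
  · intro x hx
    obtain ⟨a, _, rfl⟩ := Finset.mem_image.1 hx
    exact a.1.2
  · intro x hx
    obtain ⟨a, _, rfl⟩ := Finset.mem_image.1 hx
    exact a.1.2
  · rw [Finset.disjoint_left]
    intro x hx hx'
    obtain ⟨a, ha, e⟩ := Finset.mem_image.1 hx
    obtain ⟨a', ha', e'⟩ := Finset.mem_image.1 hx'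
    rw [Finset.mem_filter] at ha ha'
    have h1 : a = a' := hK a ha.1 a' ha'.1 (Subtype.ext (e.trans e'.symm))
    have h2 := ha.2
    rw [h1, ha'.2] at h2
    exact absurd h2 (by decide)

theorem kT_card {K : Finset ({v // v ∈ Y} × Bool)} :
    (kT K).1.card + (kT K).2.card = K.card := by
  unfold kT
  rw [Finset.card_image_of_injOn, Finset.card_image_of_injOn]
  · have h1 := Finset.card_filter_add_card_filter_not (s := K) (fun a => a.2 = true)
    have h2 : K.filter (fun a => ¬ a.2 = true) = K.filter (fun a => a.2 = false) :=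
      Finset.filter_congr fun a _ => by rw [Bool.not_eq_true]
    rw [h2] at h1
    exact h1
  · intro a ha a' ha' e
    rw [Finset.mem_coe, Finset.mem_filter] at ha ha'
    exact Prod.ext (Subtype.ext e) (ha.2.trans ha'.2.symm)
  · intro a ha a' ha' e
    rw [Finset.mem_coe, Finset.mem_filter] at ha ha'
    exact Prod.ext (Subtype.ext e) (ha.2.trans ha'.2.symm)

theorem kT_s {p : ℝ≥0∞} {η : ℝ} {U : G → ℝ≥0∞} (K : Finset ({v // v ∈ Y} × Bool)) :
    (gs P p η U).s ((lb hY).dg K) = sg (kT K).1 (kT K).2 := by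
  rw [Gs.s_dg]
  have h0 : ∀ a, (lb hY).sg a • (gs P p η U).x ((lb hY).st a) =
      (if a.2 = true then a.1.1 else 0) - (if a.2 = false then a.1.1 else 0) := by
    intro a
    show (if a.2 = true then (1 : ℤ) else -1) • a.1.1 = _
    cases a.2 <;> simp
  rw [Finset.sum_congr rfl fun a _ => h0 a, Finset.sum_sub_distrib, ← Finset.sum_filter,
    ← Finset.sum_filter]
  unfold kT sg
  rw [Finset.sum_image, Finset.sum_image]
  · intro a ha a' ha' e
    rw [Finset.mem_coe, Finset.mem_filter] at ha ha'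
    exact Prod.ext (Subtype.ext e) (ha.2.trans ha'.2.symm)
  · intro a ha a' ha' e
    rw [Finset.mem_coe, Finset.mem_filter] at ha ha'
    exact Prod.ext (Subtype.ext e) (ha.2.trans ha'.2.symm)

theorem kT_tK {T : Finset G × Finset G} (hT : T ∈ SS Y) : kT (tK Y T) = T := by
  rw [mem_SS] at hT
  unfold kT tK
  refine Prod.ext ?_ ?_
  · ext x
    simp only [Finset.mem_image, Finset.mem_filter, Finset.mem_univ, true_and]
    constructor
    · rintro ⟨a, ⟨h1, h2⟩, rfl⟩
      rcases h1 with h1 | h1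
      · exact h1.2
      · rw [h1.1] at h2
        exact absurd h2 (by decide)
    · intro hx
      exact ⟨(⟨x, hT.1 hx⟩, true), ⟨Or.inl ⟨rfl, hx⟩, rfl⟩, rfl⟩
  · ext x
    simp only [Finset.mem_image, Finset.mem_filter, Finset.mem_univ, true_and]
    constructor
    · rintro ⟨a, ⟨h1, h2⟩, rfl⟩
      rcases h1 with h1 | h1
      · rw [h1.1] at h2
        exact absurd h2 (by decide)
      · exact h1.2
    · intro hx
      exact ⟨(⟨x, hT.2.1 hx⟩, false), ⟨Or.inr ⟨rfl, hx⟩, rfl⟩, rfl⟩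

theorem tK_Pr {T : Finset G × Finset G} (hT : T ∈ SS Y) : (lb hY).Pr (tK Y T) := by
  rw [mem_SS] at hT
  intro a ha a' ha' e
  have e1 : a.1 = a'.1 := Subtype.ext (congrArg (fun z : {v // v ∈ P} => z.1) e)
  unfold tK at ha ha'
  simp only [Finset.mem_filter, Finset.mem_univ, true_and] at ha ha'
  refine Prod.ext e1 ?_
  rw [← e1] at ha'
  rcases ha with h1 | h1 <;> rcases ha' with h2 | h2
  · rw [h1.1, h2.1]
  · exact absurd h2.2 ((Finset.disjoint_left.1 hT.2.2) h1.2)
  · exact absurd h1.2 ((Finset.disjoint_left.1 hT.2.2) h2.2)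
  · rw [h1.1, h2.1]

end labels

end Pool.Agent.RR
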