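import Mathlib

/-!
The channel of a vacuum gas: signed sets `A` are sent to `y = c + A` with a noise `c` with values
in `{-1, 0, 1}`.  Worlds are finite measures on finite sets of labels; a label `a` has a site
`st a` and a sign `sg a`.
-/

set_option autoImplicit false
set_option linter.unusedSectionVars false

namespace Pool.Agent.RR

open Finset

variable {α V : Type*} [Fintype α] [DecidableEq α] [Fintype V] [DecidableEq V]

/-- The box of digit vectors. -/
noncomputable def bx (V : Type*) [Fintype V] [DecidableEq V] (n : ℕ) : Finset (V → ℤ) :=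
  Fintype.piFinset fun _ => Finset.Icc (-(n : ℤ)) n

theorem mem_bx {n : ℕ} {c : V → ℤ} : c ∈ bx V n ↔ ∀ v, -(n : ℤ) ≤ c v ∧ c v ≤ n := by
  simp only [bx, Fintype.mem_piFinset, Finset.mem_Icc]

theorem add_mem_bx {a b : ℕ} {c d : V → ℤ} (hc : c ∈ bx V a) (hd : d ∈ bx V b) :
    c + d ∈ bx V (a + b) := by
  rw [mem_bx] at *
  intro v
  have h1 := hc v
  have h2 := hd v
  push_cast
  constructor
  · simp only [Pi.add_apply]; omega
  · simp only [Pi.add_apply]; omega

/-- Labels with sites and signs. -/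
structure Lab (α V : Type*) where
  st : α → V
  sg : α → ℤ
  sg1 : ∀ a, sg a = 1 ∨ sg a = -1
  inj : ∀ a a', st a = st a' → sg a = sg a' → a = a'

namespace Lab

variable (L : Lab α V)

/-- Digits of a set of labels. -/
def dg (A : Finset α) : V → ℤ := ∑ a ∈ A, Pi.single (L.st a) (L.sg a)

/-- At most one label per site. -/
def Pr (A : Finset α) : Prop := ∀ a ∈ A, ∀ a' ∈ A, L.st a = L.st a' → a = a'

omit [Fintype α] [DecidableEq α] in
theorem Pr.mono {A B : Finset α} (h : L.Pr B) (hs : A ⊆ B) : L.Pr A :=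
  fun a ha a' ha' e => h a (hs ha) a' (hs ha') e

omit [Fintype α] in
theorem dg_union {A B : Finset α} (h : Disjoint A B) : L.dg (A ∪ B) = L.dg A + L.dg B := by
  unfold dg
  rw [Finset.sum_union h]

omit [Fintype α] in
theorem dg_sdiff {K A : Finset α} (h : K ⊆ A) : L.dg (A \ K) = L.dg A - L.dg K := by
  unfold dg
  rw [← Finset.sum_sdiff h]
  abel

omit [Fintype α] [DecidableEq α] [Fintype V] in
theorem dg_apply (A : Finset α) (v : V) :
    L.dg A v = ∑ a ∈ A, if L.st a = v then L.sg a else 0 := by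
  unfold dg
  rw [Finset.sum_apply]
  refine Finset.sum_congr rfl fun a _ => ?_
  rw [Pi.single_apply]
  by_cases h : v = L.st a
  · simp [h]
  · rw [if_neg h, if_neg (fun h' => h h'.symm)]

omit [Fintype α] [Fintype V] in
theorem dg_mem {A : Finset α} (h : L.Pr A) {a : α} (ha : a ∈ A) : L.dg A (L.st a) = L.sg a := by
  rw [dg_apply, Finset.sum_eq_single a]
  · simp
  · intro a' ha' hne
    rw [if_neg]
    intro e
    exact hne (h a' ha' a ha e)
  · intro h'
    exact absurd ha h'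

omit [Fintype α] [DecidableEq α] [Fintype V] in
theorem dg_not {A : Finset α} {v : V} (h : ∀ a ∈ A, L.st a ≠ v) : L.dg A v = 0 := by
  rw [dg_apply]
  exact Finset.sum_eq_zero fun a ha => if_neg (h a ha)

omit [Fintype α] [Fintype V] in
theorem dg_notMem {A : Finset α} (h : L.Pr A) {a : α} (ha : a ∉ A) :
    L.dg A (L.st a) = 0 ∨ L.dg A (L.st a) = - L.sg a := by
  by_cases h1 : ∃ a' ∈ A, L.st a' = L.st a
  · obtain ⟨a', ha', e⟩ := h1
    right
    rw [← e, L.dg_mem h ha']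
    have h2 : L.sg a' ≠ L.sg a := fun h3 => ha (L.inj a' a e h3 ▸ ha')
    rcases L.sg1 a with h4 | h4 <;> rcases L.sg1 a' with h5 | h5 <;> omega
  · left
    push Not at h1
    exact L.dg_not fun a' ha' => h1 a' ha'

omit [Fintype α] in
theorem dg_bx {A : Finset α} (h : L.Pr A) : L.dg A ∈ bx V 1 := by
  rw [mem_bx]
  intro v
  by_cases h1 : ∃ a ∈ A, L.st a = v
  · obtain ⟨a, ha, rfl⟩ := h1
    rw [L.dg_mem h ha]
    rcases L.sg1 a with h4 | h4 <;> rw [h4] <;> simp
  · push Not at h1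
    rw [L.dg_not h1]
    simp

end Lab

/-- The total mass. -/
def tot (m : Finset α → ℝ) : ℝ := ∑ A, m A

/-- The Gibbs inequality. -/
theorem gibbs0 {X : Type*} (s : Finset X) (p q : X → ℝ) (hp : ∀ x ∈ s, 0 ≤ p x)
    (hq : ∀ x ∈ s, 0 ≤ q x) (h : ∀ x ∈ s, 0 < p x → 0 < q x) :
    ∑ x ∈ s, p x * Real.log (q x / p x) ≤ ∑ x ∈ s, q x - ∑ x ∈ s, p x := by
  rw [← Finset.sum_sub_distrib]
  refine Finset.sum_le_sum fun x hx => ?_
  rcases (hp x hx).eq_or_lt with h0 | h0
  · rw [← h0]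
    simpa using hq x hx
  · have h1 := h x hx h0
    have h2 := Real.log_le_sub_one_of_pos (div_pos h1 h0)
    have h3 := mul_le_mul_of_nonneg_left h2 h0.le
    have h4 : p x * (q x / p x - 1) = q x - p x := by
      field_simp
    linarith

/-- Laws of the noise. -/
structure Noi (g0 : (V → ℤ) → ℝ) : Prop where
  nn : ∀ c, 0 ≤ g0 c
  supp : ∀ c, c ∉ bx V 1 → g0 c = 0
  one : ∑ c ∈ bx V 1, g0 c = 1

/-- The law of the output, unnormalized. -/
def lam (L : Lab α V) (g0 : (V → ℤ) → ℝ) (m : Finset α → ℝ) (y : V → ℤ) : ℝ :=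
  ∑ A, m A * g0 (y - L.dg A)

/-- Worlds. -/
structure Wd (L : Lab α V) (m : Finset α → ℝ) : Prop where
  nn : ∀ A, 0 ≤ m A
  pr : ∀ A, m A ≠ 0 → L.Pr A

section chan

variable {L : Lab α V} {g0 : (V → ℤ) → ℝ} {m : Finset α → ℝ}

theorem lam_nonneg (hg : Noi g0) (hm : ∀ A, 0 ≤ m A) (y : V → ℤ) : 0 ≤ lam L g0 m y :=
  Finset.sum_nonneg fun A _ => mul_nonneg (hm A) (hg.nn _)

theorem le_lam (hg : Noi g0) (hm : ∀ A, 0 ≤ m A) (A : Finset α) (y : V → ℤ) :
    m A * g0 (y - L.dg A) ≤ lam L g0 m y := by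
  unfold lam
  exact Finset.single_le_sum (f := fun A => m A * g0 (y - L.dg A))
    (fun A _ => mul_nonneg (hm A) (hg.nn _)) (Finset.mem_univ A)

theorem shift_sum (hg : Noi g0) {A : Finset α} (hA : L.Pr A) (h : (V → ℤ) → ℝ) :
    ∑ y ∈ bx V 2, g0 (y - L.dg A) * h y = ∑ c ∈ bx V 1, g0 c * h (c + L.dg A) := by
  have e : ∑ c ∈ bx V 1, g0 c * h (c + L.dg A) =
      ∑ y ∈ (bx V 1).map (Equiv.addRight (L.dg A)).toEmbedding, g0 (y - L.dg A) * h y := by
    rw [Finset.sum_map]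
    refine Finset.sum_congr rfl fun c _ => ?_
    simp
  rw [e]
  symm
  apply Finset.sum_subset
  · intro y hy
    rw [Finset.mem_map] at hy
    obtain ⟨c, hc, rfl⟩ := hy
    exact add_mem_bx (a := 1) (b := 1) hc (L.dg_bx hA)
  · intro y _ hy
    have : y - L.dg A ∉ bx V 1 := by
      intro h1
      apply hy
      rw [Finset.mem_map]
      exact ⟨y - L.dg A, h1, by simp⟩
    rw [hg.supp _ this, zero_mul]

/-- Change of variables. -/
theorem lam_sum (hg : Noi g0) (hm : Wd L m) (h : (V → ℤ) → ℝ) :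
    ∑ y ∈ bx V 2, lam L g0 m y * h y = ∑ A, m A * ∑ c ∈ bx V 1, g0 c * h (c + L.dg A) := by
  unfold lam
  have e : ∀ y ∈ bx V 2, (∑ A, m A * g0 (y - L.dg A)) * h y =
      ∑ A, m A * (g0 (y - L.dg A) * h y) := by
    intro y _
    rw [Finset.sum_mul]
    refine Finset.sum_congr rfl fun A _ => by ring
  rw [Finset.sum_congr rfl e, Finset.sum_comm]
  refine Finset.sum_congr rfl fun A _ => ?_
  rw [← Finset.mul_sum]
  by_cases h0 : m A = 0
  · rw [h0, zero_mul, zero_mul]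
  · rw [shift_sum hg (hm.pr A h0)]

theorem lam_tot (hg : Noi g0) (hm : Wd L m) : ∑ y ∈ bx V 2, lam L g0 m y = tot m := by
  have := lam_sum hg hm (fun _ => 1)
  simp only [mul_one] at this
  rw [this]
  unfold tot
  refine Finset.sum_congr rfl fun A _ => ?_
  rw [hg.one, mul_one]

/-- The information that the output gives on the input. -/
noncomputable def Ich (L : Lab α V) (g0 : (V → ℤ) → ℝ) (m : Finset α → ℝ) : ℝ :=
  ∑ A, m A * ∑ c ∈ bx V 1, g0 c * Real.log (g0 c * tot m / lam L g0 m (c + L.dg A))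

/-- The gain of one label. -/
noncomputable def la (L : Lab α V) (g0 : (V → ℤ) → ℝ) (ρ : ℤ → ℝ) (a : α) : ℝ :=
  ∑ c ∈ bx V 1, g0 c * (ρ (c (L.st a)) - ρ (c (L.st a) + L.sg a))

/-- The gain of a set of labels. -/
noncomputable def ll (L : Lab α V) (g0 : (V → ℤ) → ℝ) (ρ : ℤ → ℝ) (A : Finset α) : ℝ :=
  ∑ a ∈ A, la L g0 ρ a

/-- The functional. -/
noncomputable def DD (L : Lab α V) (g0 : (V → ℤ) → ℝ) (ρ : ℤ → ℝ) (m : Finset α → ℝ) : ℝ :=
  ∑ A, m A * ll L g0 ρ A - Ich L g0 m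


/-! ### messages -/

/-- A message `i` that reveals `K i`. -/
structure Msg (m : Finset α → ℝ) {I : Type*} [Fintype I] (K : I → Finset α)
    (μ : I → Finset α → ℝ) : Prop where
  nn : ∀ i A, 0 ≤ μ i A
  sub : ∀ i A, μ i A ≠ 0 → K i ⊆ A
  sum : ∀ A, ∑ i, μ i A = m A

variable {I : Type*} [Fintype I] {K : I → Finset α} {μ : I → Finset α → ℝ}

theorem Msg.le (h : Msg m K μ) (i : I) (A : Finset α) : μ i A ≤ m A := by
  rw [← h.sum A]
  exact Finset.single_le_sum (f := fun i => μ i A) (fun i _ => h.nn i A) (Finset.mem_univ i)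

theorem Msg.wd (h : Msg m K μ) (hm : Wd L m) (i : I) : Wd L (μ i) := by
  refine ⟨h.nn i, fun A hA => hm.pr A ?_⟩
  have h1 := h.le i A
  have h2 := h.nn i A
  have h3 : 0 < μ i A := lt_of_le_of_ne h2 (Ne.symm hA)
  linarith

theorem Msg.lam_sum (h : Msg m K μ) (y : V → ℤ) : ∑ i, lam L g0 (μ i) y = lam L g0 m y := by
  unfold lam
  rw [Finset.sum_comm]
  refine Finset.sum_congr rfl fun A _ => ?_
  rw [← Finset.sum_mul, h.sum]

theorem Msg.lam_le (h : Msg m K μ) (hg : Noi g0) (i : I) (y : V → ℤ) :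
    lam L g0 (μ i) y ≤ lam L g0 m y := by
  rw [← h.lam_sum y]
  exact Finset.single_le_sum (f := fun i => lam L g0 (μ i) y)
    (fun i _ => lam_nonneg hg (h.nn i) y) (Finset.mem_univ i)

theorem Msg.tot_sum (h : Msg m K μ) : ∑ i, tot (μ i) = tot m := by
  unfold tot
  rw [Finset.sum_comm]
  exact Finset.sum_congr rfl fun A _ => h.sum A

theorem Msg.tot_le (h : Msg m K μ) (i : I) : tot (μ i) ≤ tot m := by
  rw [← h.tot_sum]
  exact Finset.single_le_sum (f := fun i => tot (μ i))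
    (fun i _ => Finset.sum_nonneg fun A _ => h.nn i A) (Finset.mem_univ i)

/-- The information of the message that is visible in the output. -/
noncomputable def Jc (L : Lab α V) (g0 : (V → ℤ) → ℝ) (m : Finset α → ℝ)
    (μ : I → Finset α → ℝ) : ℝ :=
  ∑ i, ∑ y ∈ bx V 2, lam L g0 (μ i) y *
    Real.log (lam L g0 (μ i) y * tot m / (lam L g0 m y * tot (μ i)))

theorem le_tot {m : Finset α → ℝ} (hm : ∀ A, 0 ≤ m A) (A : Finset α) : m A ≤ tot m :=
  Finset.single_le_sum (f := m) (fun A _ => hm A) (Finset.mem_univ A)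

/-- The chain rule. -/
theorem Msg.chain (h : Msg m K μ) (hg : Noi g0) (hm : Wd L m) :
    Ich L g0 m - ∑ i, Ich L g0 (μ i) = Jc L g0 m μ := by
  have e1 : Ich L g0 m = ∑ i, ∑ A, μ i A * ∑ c ∈ bx V 1,
      g0 c * Real.log (g0 c * tot m / lam L g0 m (c + L.dg A)) := by
    unfold Ich
    rw [Finset.sum_comm]
    refine Finset.sum_congr rfl fun A _ => ?_
    rw [← Finset.sum_mul, h.sum]
  rw [e1, ← Finset.sum_sub_distrib]
  unfold Jc
  refine Finset.sum_congr rfl fun i _ => ?_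
  rw [RR.lam_sum hg (h.wd hm i)]
  unfold Ich
  rw [← Finset.sum_sub_distrib]
  refine Finset.sum_congr rfl fun A _ => ?_
  by_cases h0 : μ i A = 0
  · rw [h0]; simp
  rw [← mul_sub, ← Finset.sum_sub_distrib]
  congr 1
  refine Finset.sum_congr rfl fun c _ => ?_
  by_cases h1 : g0 c = 0
  · rw [h1]; simp
  have hc : 0 < g0 c := lt_of_le_of_ne (hg.nn c) (Ne.symm h1)
  have hA : 0 < μ i A := lt_of_le_of_ne (h.nn i A) (Ne.symm h0)
  have h2 : 0 < lam L g0 (μ i) (c + L.dg A) := by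
    refine lt_of_lt_of_le (mul_pos hA hc) ?_
    have := le_lam (L := L) hg (h.nn i) A (c + L.dg A)
    rwa [add_sub_cancel_right] at this
  have h3 : 0 < lam L g0 m (c + L.dg A) := lt_of_lt_of_le h2 (h.lam_le hg i _)
  have h4 : 0 < tot (μ i) := lt_of_lt_of_le hA (le_tot (h.nn i) A)
  have h5 : 0 < tot m := lt_of_lt_of_le h4 (h.tot_le i)
  rw [← mul_sub, Real.log_div (by positivity) h3.ne', Real.log_div (by positivity) h2.ne',
    Real.log_div (by positivity) (by positivity), Real.log_mul hc.ne' h5.ne',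
    Real.log_mul hc.ne' h4.ne', Real.log_mul h2.ne' h5.ne', Real.log_mul h3.ne' h4.ne']
  ring

/-! ### the replica -/

/-- The joint law of the message, the output and the replica. -/
noncomputable def jj (L : Lab α V) (g0 : (V → ℤ) → ℝ) (m ν : Finset α → ℝ) (y : V → ℤ)
    (A : Finset α) : ℝ :=
  lam L g0 ν y * (m A * g0 (y - L.dg A)) / lam L g0 m y

/-- The hint. -/
noncomputable def hint (L : Lab α V) (g0 : (V → ℤ) → ℝ) (m ν : Finset α → ℝ)
    (A : Finset α) : ℝ := ∑ y ∈ bx V 2, jj L g0 m ν y A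

theorem jj_nonneg (hg : Noi g0) {ν : Finset α → ℝ} (hm : ∀ A, 0 ≤ m A) (hν : ∀ A, 0 ≤ ν A)
    (y : V → ℤ) (A : Finset α) : 0 ≤ jj L g0 m ν y A :=
  div_nonneg (mul_nonneg (lam_nonneg hg hν y) (mul_nonneg (hm A) (hg.nn _))) (lam_nonneg hg hm y)

theorem hint_nonneg (hg : Noi g0) {ν : Finset α → ℝ} (hm : ∀ A, 0 ≤ m A) (hν : ∀ A, 0 ≤ ν A)
    (A : Finset α) : 0 ≤ hint L g0 m ν A :=
  Finset.sum_nonneg fun y _ => jj_nonneg hg hm hν y A

theorem jj_sum {ν : Finset α → ℝ} {y : V → ℤ} (h : lam L g0 m y = 0 → lam L g0 ν y = 0) :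
    ∑ A, jj L g0 m ν y A = lam L g0 ν y := by
  unfold jj
  rw [← Finset.sum_div, ← Finset.mul_sum]
  change lam L g0 ν y * lam L g0 m y / lam L g0 m y = _
  by_cases h0 : lam L g0 m y = 0
  · rw [h h0]; simp
  · field_simp

theorem Msg.jj_sum (h : Msg m K μ) (hg : Noi g0) (i : I) (y : V → ℤ) :
    ∑ A, jj L g0 m (μ i) y A = lam L g0 (μ i) y := by
  refine RR.jj_sum fun h0 => ?_
  have h1 := h.lam_le (L := L) hg i y
  have h2 := lam_nonneg (L := L) hg (h.nn i) y
  linarith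

theorem Msg.hint_tot (h : Msg m K μ) (hg : Noi g0) (hm : Wd L m) (i : I) :
    ∑ A, hint L g0 m (μ i) A = tot (μ i) := by
  unfold hint
  rw [Finset.sum_comm, Finset.sum_congr rfl fun y _ => h.jj_sum hg i y,
    lam_tot hg (h.wd hm i)]

theorem Msg.hint_sum (h : Msg m K μ) (hg : Noi g0) (hm : Wd L m) (A : Finset α) :
    ∑ i, hint L g0 m (μ i) A = m A := by
  unfold hint
  rw [Finset.sum_comm]
  by_cases h0 : m A = 0
  · rw [h0]
    refine Finset.sum_eq_zero fun y _ => Finset.sum_eq_zero fun i _ => ?_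
    unfold jj
    rw [h0]; simp
  have e : ∀ y ∈ bx V 2, ∑ i, jj L g0 m (μ i) y A = m A * (g0 (y - L.dg A) * 1) := by
    intro y _
    unfold jj
    rw [← Finset.sum_div, ← Finset.sum_mul, h.lam_sum]
    by_cases h1 : g0 (y - L.dg A) = 0
    · rw [h1]; simp
    have h2 : 0 < m A * g0 (y - L.dg A) :=
      mul_pos (lt_of_le_of_ne (hm.nn A) (Ne.symm h0)) (lt_of_le_of_ne (hg.nn _) (Ne.symm h1))
    have h3 : 0 < lam L g0 m y := lt_of_lt_of_le h2 (le_lam hg hm.nn A y)
    field_simp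
  rw [Finset.sum_congr rfl e, ← Finset.mul_sum, shift_sum hg (hm.pr A h0)]
  simp only [mul_one]
  rw [hg.one, mul_one]

end chan

end Pool.Agent.RR
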