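import Mathlib

/-!
Theorem R, part I: abstract tower.  Definitions and the interface with the channel.
-/

set_option autoImplicit false

namespace Pool.Agent.RR

open Finset

variable {α : Type*} [Fintype α] [DecidableEq α]

/-- The total mass of a measure on the finite sets of labels. -/
noncomputable def mass (m : Finset α → ℝ) : ℝ := ∑ A, m A

/-- The entropy of an unnormalised measure. -/
noncomputable def ent (m : Finset α → ℝ) : ℝ := ∑ A, m A * Real.log (mass m / m A)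

/-- A state: the revealed set `K` and the measure `m`, which lives on sets containing `K`. -/
structure Sta (α : Type*) where
  K : Finset α
  m : Finset α → ℝ

/-- The admissible states. -/
structure Sta.Ok (AA : Finset α → Prop) (s : Sta α) : Prop where
  nn : ∀ A, 0 ≤ s.m A
  sub : ∀ A, s.m A ≠ 0 → s.K ⊆ A
  adm : ∀ A, s.m A ≠ 0 → AA A

/-- A kernel at the state `s`: a finite family of states refining `s`. -/
structure IsKer (s : Sta α) {ι : Type} [Fintype ι] (t : ι → Sta α) : Prop where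
  nn : ∀ i A, 0 ≤ (t i).m A
  sup : ∀ i A, (t i).m A ≠ 0 → (t i).K ⊆ A
  sub : ∀ i, s.K ⊆ (t i).K
  sum : ∀ A, ∑ i, (t i).m A = s.m A

/-- The mean number of unrevealed elements. -/
noncomputable def siz (s : Sta α) : ℝ := ∑ A, s.m A * ((A.card : ℝ) - s.K.card)

/-- The mean number of elements revealed by a kernel. -/
noncomputable def rev (s : Sta α) {ι : Type} [Fintype ι] (t : ι → Sta α) : ℝ :=
  ∑ i, mass (t i).m * (((t i).K \ s.K).card : ℝ)

/-- The mean overlap of the revealed set with the hint family `J`. -/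
noncomputable def ovl (s : Sta α) {ι : Type} [Fintype ι] (t : ι → Sta α)
    (J : ι → Finset α → ℝ) : ℝ :=
  ∑ i, ∑ A, J i A * ((((t i).K \ s.K) ∩ A).card : ℝ)

/-- What the channel provides: a functional `D` of states. -/
structure Chan (AA Good : Finset α → Prop) (D : Sta α → ℝ) (b e : ℝ) (f : ℕ → ℝ)
    (lam : Finset α → ℝ) (C : ℝ) : Prop where
  hint : ∀ s : Sta α, s.Ok AA → ∀ (ι : Type) [Fintype ι] (t : ι → Sta α), IsKer s t →
    ∃ J : ι → Finset α → ℝ, (∀ i A, 0 ≤ J i A) ∧ (∀ A, ∑ i, J i A = s.m A) ∧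
      (∀ i, mass (J i) = mass (t i).m) ∧
      ent s.m - ∑ i, ent (J i) ≤ b * ovl s t J + (∑ i, D (t i) - D s) + e * rev s t ∧
      ∑ i, mass (t i).m * f ((t i).K \ s.K).card - 2 * b * ovl s t J - e * rev s t ≤
        ∑ i, D (t i) - D s
  low : ∀ s : Sta α, s.Ok AA → (∀ A, s.m A ≠ 0 → Good A) → -∑ A, s.m A * lam A ≤ D s
  up : ∀ s : Sta α, s.Ok AA → D s ≤ C * mass s.m
  zero : ∀ s : Sta α, s.Ok AA → (∀ A, s.m A ≠ 0 → A = s.K) → D s = 0

/-- The sequences of the tower. -/
structure Sched (b e : ℝ) (f : ℕ → ℝ) (A κ H : ℕ → ℝ) : Prop where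
  A_succ : ∀ j, A (j + 1) = A j + (b + 4)
  κ_zero : κ 0 = 0
  κ_mono : ∀ j, κ j ≤ κ (j + 1)
  H_zero : H 0 ≤ A 0 - (b + 2)
  H_nonneg : 0 ≤ H 0
  H_mono : ∀ j, H j ≤ H (j + 1)
  H_step : ∀ j n, 1 ≤ n → H (j + 1) - H j ≤ n + (κ (j + 1) - κ j) * (f n / (1 + 2 * b))
  κ_step : ∀ j, (κ (j + 1) - κ j) * (2 * b * (e + Real.exp (-H j)) + e) ≤ 1

end Pool.Agent.RR
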