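import Pool.Agent.RR.Hint
import Pool.Agent.RR.TowDefs

/-!
The field `hint` of the interface between the channel and the tower.
-/

set_option autoImplicit false
set_option linter.unusedSectionVars false

namespace Pool.Agent.RR

open Finset

variable {α V : Type*} [Fintype α] [DecidableEq α] [Fintype V] [DecidableEq V]

/-- The functional on states. -/
noncomputable def DSt (L : Lab α V) (g0 : (V → ℤ) → ℝ) (ρ : ℤ → ℝ) (s : Sta α) : ℝ :=
  ∑ A, s.m A * ll L g0 ρ (A \ s.K) - Ich L g0 s.m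

theorem mass_eq_tot (m : Finset α → ℝ) : mass m = tot m := rfl

section

variable {L : Lab α V} {g0 : (V → ℤ) → ℝ} {b M' e' : ℝ} {F : Finset α → ℝ}

theorem ll_sdiffS (ρ : ℤ → ℝ) {K A : Finset α} (h : K ⊆ A) :
    ll L g0 ρ (A \ K) = ll L g0 ρ A - ll L g0 ρ K := by
  unfold ll
  rw [← Finset.sum_sdiff h]
  ring

/-- The difference of the functional along a kernel. -/
theorem DSt_diff (ρ : ℤ → ℝ) (hg : Noi g0) {s : Sta α} (hs : Wd L s.m) {I : Type}
    [Fintype I] {t : I → Sta α} (ht : IsKer s t)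
    (hmsg : Msg s.m (fun i => (t i).K \ s.K) (fun i => (t i).m)) :
    ∑ i, DSt L g0 ρ (t i) - DSt L g0 ρ s = Jc L g0 s.m (fun i => (t i).m) -
      ∑ i, tot (t i).m * ll L g0 ρ ((t i).K \ s.K) := by
  have h1 := hmsg.chain hg hs
  unfold DSt
  rw [Finset.sum_sub_distrib, ← h1]
  have e1 : ∑ A, s.m A * ll L g0 ρ (A \ s.K) =
      ∑ i, ∑ A, (t i).m A * ll L g0 ρ (A \ s.K) := by
    rw [Finset.sum_comm]
    refine Finset.sum_congr rfl fun A _ => ?_
    rw [← Finset.sum_mul, ht.sum A]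
  have e2 : ∀ i, ∑ A, (t i).m A * ll L g0 ρ (A \ s.K) =
      ∑ A, (t i).m A * ll L g0 ρ (A \ (t i).K) + tot (t i).m * ll L g0 ρ ((t i).K \ s.K) := by
    intro i
    unfold tot
    rw [Finset.sum_mul, ← Finset.sum_add_distrib]
    refine Finset.sum_congr rfl fun A _ => ?_
    by_cases h0 : (t i).m A = 0
    · rw [h0]; ring
    have h2 := ht.sup i A h0
    have h3 := ht.sub i
    rw [ll_sdiffS ρ (h3.trans h2), ll_sdiffS ρ h2, ll_sdiffS ρ h3]
    ring
  rw [e1, Finset.sum_congr rfl fun i _ => e2 i, Finset.sum_add_distrib]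
  ring

/-- The entropy of a refinement. -/
theorem ent_diff {m : Finset α → ℝ} (hm : ∀ A, 0 ≤ m A) {I : Type} [Fintype I]
    {J : I → Finset α → ℝ} (hJ : ∀ i A, 0 ≤ J i A) (hsum : ∀ A, ∑ i, J i A = m A)
    {T : I → ℝ} (hT : ∀ i, mass (J i) = T i) :
    ent m - ∑ i, ent (J i) = ∑ i, ∑ A, J i A * Real.log (J i A * tot m / (m A * T i)) := by
  have e1 : ent m = ∑ i, ∑ A, J i A * Real.log (mass m / m A) := by
    unfold ent
    rw [Finset.sum_comm]
    refine Finset.sum_congr rfl fun A _ => ?_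
    rw [← Finset.sum_mul, hsum]
  rw [e1, ← Finset.sum_sub_distrib]
  refine Finset.sum_congr rfl fun i _ => ?_
  unfold ent
  rw [← Finset.sum_sub_distrib, hT i]
  refine Finset.sum_congr rfl fun A _ => ?_
  by_cases h0 : J i A = 0
  · rw [h0]; simp
  have hp : 0 < J i A := lt_of_le_of_ne (hJ i A) (Ne.symm h0)
  have h1 : 0 < m A := by
    refine lt_of_lt_of_le hp ?_
    rw [← hsum A]
    exact Finset.single_le_sum (f := fun i => J i A) (fun i _ => hJ i A) (Finset.mem_univ i)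
  have h2 : 0 < T i := by
    rw [← hT i]
    exact lt_of_lt_of_le hp (le_tot (hJ i) A)
  have h3 : 0 < tot m := lt_of_lt_of_le h1 (le_tot hm A)
  rw [mass_eq_tot, ← mul_sub, Real.log_div h3.ne' h1.ne', Real.log_div h2.ne' hp.ne',
    Real.log_div (by positivity) (by positivity), Real.log_mul hp.ne' h3.ne',
    Real.log_mul h1.ne' h2.ne']
  ring

/-- **The hint.** -/
theorem hint_field {AA : Finset α → Prop} (hAA : ∀ A, AA A → L.Pr A)
    (hX : Axi L g0 b M' e' F) {f : ℕ → ℝ} (hf : ∀ K, L.Pr K → f K.card ≤ F K) {e : ℝ}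
    (he : (M' - b) * e' ≤ e) (s : Sta α) (hs : s.Ok AA) (ι : Type) [Fintype ι]
    (t : ι → Sta α) (ht : IsKer s t) :
    ∃ J : ι → Finset α → ℝ, (∀ i A, 0 ≤ J i A) ∧ (∀ A, ∑ i, J i A = s.m A) ∧
      (∀ i, mass (J i) = mass (t i).m) ∧
      ent s.m - ∑ i, ent (J i) ≤ b * ovl s t J +
        (∑ i, DSt L g0 (rho b M') (t i) - DSt L g0 (rho b M') s) + e * rev s t ∧
      ∑ i, mass (t i).m * f ((t i).K \ s.K).card - 2 * b * ovl s t J - e * rev s t ≤
        ∑ i, DSt L g0 (rho b M') (t i) - DSt L g0 (rho b M') s := by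
  have hg := hX.noi
  have hwd : Wd L s.m := ⟨hs.nn, fun A hA => hAA A (hs.adm A hA)⟩
  have hmsg : Msg s.m (fun i => (t i).K \ s.K) (fun i => (t i).m) :=
    ⟨ht.nn, fun i A hA => Finset.sdiff_subset.trans (ht.sup i A hA), ht.sum⟩
  have hD := DSt_diff (rho b M') hg hwd ht hmsg
  set J : ι → Finset α → ℝ := fun i => hint L g0 s.m (t i).m with hJ
  have hJ0 : ∀ i A, 0 ≤ J i A := fun i A => hint_nonneg hg hs.nn (ht.nn i) A
  have hJs : ∀ A, ∑ i, J i A = s.m A := fun A => hmsg.hint_sum hg hwd A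
  have hJt : ∀ i, mass (J i) = tot (t i).m := fun i => hmsg.hint_tot hg hwd i
  have hk := fun i => hmsg.key hX hwd i
  have hrev : (M' - b) * e' * rev s t ≤ e * rev s t := by
    refine mul_le_mul_of_nonneg_right he ?_
    unfold rev
    exact Finset.sum_nonneg fun i _ => mul_nonneg
      (Finset.sum_nonneg fun A _ => ht.nn i A) (Nat.cast_nonneg _)
  have hrev2 : ∑ i, (M' - b) * e' * (tot (t i).m * (((t i).K \ s.K).card : ℝ)) =
      (M' - b) * e' * rev s t := by
    unfold rev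
    rw [Finset.mul_sum]
    rfl
  have hovl : ∑ i, ∑ A, hint L g0 s.m (t i).m A * ((((t i).K \ s.K) ∩ A).card : ℝ) =
      ovl s t J := rfl
  refine ⟨J, hJ0, hJs, hJt, ?_, ?_⟩
  · rw [ent_diff hs.nn hJ0 hJs hJt, hD]
    have h1 := Finset.sum_le_sum fun i (_ : i ∈ (Finset.univ : Finset ι)) =>
      hmsg.gibbsX hX hwd i
    have h2 := Finset.sum_le_sum fun i (_ : i ∈ (Finset.univ : Finset ι)) => (hk i).1
    simp only [Finset.sum_sub_distrib, Finset.sum_add_distrib, ← Finset.mul_sum] at h1 h2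
    simp only [← Finset.mul_sum] at hrev2
    rw [hovl] at h2
    unfold Jc
    linarith
  · rw [hD]
    have h1 := Finset.sum_le_sum fun i (_ : i ∈ (Finset.univ : Finset ι)) =>
      hmsg.gibbsM hX hwd i
    have h2 := Finset.sum_le_sum fun i (_ : i ∈ (Finset.univ : Finset ι)) => (hk i).2
    have h3 : ∑ i, mass (t i).m * f ((t i).K \ s.K).card ≤
        ∑ i, tot (t i).m * F ((t i).K \ s.K) := by
      refine Finset.sum_le_sum fun i _ => ?_
      have h0 : 0 ≤ tot (t i).m := Finset.sum_nonneg fun A _ => ht.nn i A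
      rcases h0.eq_or_lt with h4 | h4
      · rw [mass_eq_tot, ← h4]; simp
      · rw [mass_eq_tot]
        refine mul_le_mul_of_nonneg_left (hf _ ?_) h0
        obtain ⟨A, _, hA⟩ := Finset.exists_ne_zero_of_sum_ne_zero h4.ne'
        exact Lab.Pr.mono L ((hmsg.wd hwd i).pr A hA) (hmsg.sub i A hA)
    simp only [Finset.sum_sub_distrib, Finset.sum_add_distrib, ← Finset.mul_sum] at h1 h2
    simp only [← Finset.mul_sum] at hrev2
    rw [hovl] at h2
    unfold Jc
    linarith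

end

end Pool.Agent.RR
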