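import Pool.Agent.RR.Gas

/-!
The functional `D` at a state: it vanishes when everything is revealed, it is bounded above, and it
is bounded below by the energy of a Gaussian factor of the gas.
-/

set_option autoImplicit false
set_option linter.unusedSectionVars false

namespace Pool.Agent.RR

open Finset

variable {α V : Type*} [Fintype α] [DecidableEq α] [Fintype V] [DecidableEq V]

/-- The functional at the state with the revealed set `K` and the measure `m`. -/
noncomputable def DS (L : Lab α V) (g0 : (V → ℤ) → ℝ) (ρ : ℤ → ℝ) (K : Finset α)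
    (m : Finset α → ℝ) : ℝ := DD L g0 ρ m - ll L g0 ρ K * tot m

section

variable {L : Lab α V} {g0 : (V → ℤ) → ℝ} {ρ : ℤ → ℝ} {K : Finset α} {m : Finset α → ℝ}

theorem ll_sdiff {A : Finset α} (h : K ⊆ A) :
    ll L g0 ρ (A \ K) = ll L g0 ρ A - ll L g0 ρ K := by
  unfold ll
  rw [← Finset.sum_sdiff h]
  ring

theorem DS_eq (hK : ∀ A, m A ≠ 0 → K ⊆ A) :
    DS L g0 ρ K m = ∑ A, m A * ll L g0 ρ (A \ K) - Ich L g0 m := by
  have h1 : ∑ A, m A * ll L g0 ρ (A \ K) = ∑ A, m A * ll L g0 ρ A - ll L g0 ρ K * tot m := by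
    unfold tot
    rw [Finset.mul_sum, ← Finset.sum_sub_distrib]
    refine Finset.sum_congr rfl fun A _ => ?_
    by_cases h0 : m A = 0
    · rw [h0]; ring
    · rw [ll_sdiff (hK A h0)]; ring
  unfold DS DD
  rw [h1]
  ring

theorem Ich_nonneg (hg : Noi g0) (hm : Wd L m) : 0 ≤ Ich L g0 m := by
  have htot : 0 ≤ tot m := Finset.sum_nonneg fun A _ => hm.nn A
  have h1 := gibbs0 ((Finset.univ : Finset (Finset α)) ×ˢ bx V 1)
    (fun x => m x.1 * g0 x.2) (fun x => m x.1 * (lam L g0 m (x.2 + L.dg x.1) / tot m))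
    (fun x _ => mul_nonneg (hm.nn _) (hg.nn _))
    (fun x _ => mul_nonneg (hm.nn _) (div_nonneg (lam_nonneg hg hm.nn _) htot))
    (by
      intro x _ hx
      have hA : 0 < m x.1 := by
        rcases (hm.nn x.1).eq_or_lt with h | h
        · rw [← h] at hx; simp at hx
        · exact h
      have h2 : 0 < lam L g0 m (x.2 + L.dg x.1) := by
        refine lt_of_lt_of_le hx ?_
        have := le_lam (L := L) hg hm.nn x.1 (x.2 + L.dg x.1)
        rwa [add_sub_cancel_right] at this
      have h3 : 0 < tot m := lt_of_lt_of_le hA (le_tot hm.nn x.1)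
      positivity)
  rw [Finset.sum_product, Finset.sum_product, Finset.sum_product] at h1
  have e1 : ∑ A, ∑ c ∈ bx V 1, m A * g0 c *
      Real.log (m A * (lam L g0 m (c + L.dg A) / tot m) / (m A * g0 c)) = - Ich L g0 m := by
    unfold Ich
    rw [← Finset.sum_neg_distrib]
    refine Finset.sum_congr rfl fun A _ => ?_
    rw [Finset.mul_sum, ← Finset.sum_neg_distrib]
    refine Finset.sum_congr rfl fun c _ => ?_
    by_cases hA : m A = 0
    · rw [hA]; simp
    by_cases hc : g0 c = 0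
    · rw [hc]; simp
    rw [mul_div_mul_left _ _ hA, mul_assoc, ← mul_neg, ← mul_neg, ← Real.log_inv]
    congr 3
    rw [inv_div, div_div, mul_comm (tot m)]
  have e2 : ∑ A, ∑ c ∈ bx V 1, m A * g0 c = tot m := by
    unfold tot
    refine Finset.sum_congr rfl fun A _ => ?_
    rw [← Finset.mul_sum, hg.one, mul_one]
  have e3 : ∑ A, ∑ c ∈ bx V 1, m A * (lam L g0 m (c + L.dg A) / tot m) ≤ tot m := by
    have h4 : ∀ A, ∑ c ∈ bx V 1, m A * (lam L g0 m (c + L.dg A) / tot m) ≤ m A := by
      intro A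
      rw [← Finset.mul_sum, ← Finset.sum_div]
      by_cases hA : m A = 0
      · rw [hA]; simp
      have hA' : 0 < m A := lt_of_le_of_ne (hm.nn A) (Ne.symm hA)
      have h3 : 0 < tot m := lt_of_lt_of_le hA' (le_tot hm.nn A)
      have h5 : ∑ c ∈ bx V 1, lam L g0 m (c + L.dg A) ≤ tot m := by
        rw [← lam_tot (L := L) hg hm]
        have e : ∑ c ∈ bx V 1, lam L g0 m (c + L.dg A) =
            ∑ y ∈ (bx V 1).map (Equiv.addRight (L.dg A)).toEmbedding, lam L g0 m y := by
          rw [Finset.sum_map]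
          rfl
        rw [e]
        refine Finset.sum_le_sum_of_subset_of_nonneg ?_ fun y _ _ => lam_nonneg hg hm.nn y
        intro y hy
        rw [Finset.mem_map] at hy
        obtain ⟨c, hc, rfl⟩ := hy
        exact add_mem_bx (a := 1) (b := 1) hc (L.dg_bx (hm.pr A hA))
      have h6 : (∑ c ∈ bx V 1, lam L g0 m (c + L.dg A)) / tot m ≤ 1 := by
        rw [div_le_one h3]
        exact h5
      calc m A * ((∑ c ∈ bx V 1, lam L g0 m (c + L.dg A)) / tot m) ≤ m A * 1 :=
            mul_le_mul_of_nonneg_left h6 hA'.le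
        _ = m A := mul_one _
    exact Finset.sum_le_sum fun A _ => h4 A
  rw [e1, e2] at h1
  linarith

/-- The functional is bounded above. -/
theorem DS_up (hg : Noi g0) (hm : Wd L m) (hK : ∀ A, m A ≠ 0 → K ⊆ A) :
    DS L g0 ρ K m ≤ (∑ a, |la L g0 ρ a|) * tot m := by
  rw [DS_eq hK]
  have h1 := Ich_nonneg (L := L) hg hm
  have h2 : ∑ A, m A * ll L g0 ρ (A \ K) ≤ (∑ a, |la L g0 ρ a|) * tot m := by
    unfold tot
    rw [Finset.mul_sum]
    refine Finset.sum_le_sum fun A _ => ?_
    rw [mul_comm (∑ a, |la L g0 ρ a|)]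
    refine mul_le_mul_of_nonneg_left ?_ (hm.nn A)
    unfold ll
    calc ∑ a ∈ A \ K, la L g0 ρ a ≤ ∑ a ∈ A \ K, |la L g0 ρ a| :=
          Finset.sum_le_sum fun a _ => le_abs_self _
      _ ≤ ∑ a, |la L g0 ρ a| :=
          Finset.sum_le_sum_of_subset_of_nonneg (Finset.subset_univ _) fun a _ _ => abs_nonneg _
  linarith

/-- The functional vanishes when everything is revealed. -/
theorem DS_zero (hK : ∀ A, m A ≠ 0 → A = K) : DS L g0 ρ K m = 0 := by
  rw [DS_eq fun A hA => (hK A hA).symm.subset]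
  have e0 : ∀ F : Finset α → ℝ, ∑ A, m A * F A = m K * F K := by
    intro F
    refine Finset.sum_eq_single K (fun A _ hA => ?_) fun h => absurd (Finset.mem_univ _) h
    have : m A = 0 := by
      by_contra h
      exact hA (hK A h)
    rw [this, zero_mul]
  have e1 : tot m = m K := by
    have := e0 fun _ => 1
    simpa [tot] using this
  have e2 : ∀ y, lam L g0 m y = m K * g0 (y - L.dg K) := fun y => e0 _
  rw [e0]
  unfold Ich
  rw [e0, e1]
  have e3 : ∑ c ∈ bx V 1, g0 c * Real.log (g0 c * m K / lam L g0 m (c + L.dg K)) = 0 := by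
    refine Finset.sum_eq_zero fun c _ => ?_
    rw [e2, add_sub_cancel_right]
    by_cases hc : g0 c = 0
    · rw [hc]; simp
    by_cases hm : m K = 0
    · rw [hm]; simp
    rw [mul_comm (m K), div_self (mul_ne_zero hc hm)]
    simp
  rw [e3]
  simp [ll]

end

/-- The hypotheses of the lower bound. -/
structure Gas {G : Type*} [AddCommGroup G] (L : Lab α V) (g0 : (V → ℤ) → ℝ) (ρ : ℤ → ℝ)
    (s : (V → ℤ) →+ G) (w r : ℤ → ℝ) (U E : G → ℝ) (Z d0 : ℝ) (Y : Finset V) : Prop where
  Z0 : 0 < Z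
  g0e : ∀ c, g0 c = (∏ v, w (c v)) * U (-s c) / Z
  wp : ∀ d, -1 ≤ d → d ≤ 1 → 0 < w d
  wz : ∀ d, ¬ (-1 ≤ d ∧ d ≤ 1) → w d = 0
  we : ∀ d, w (-d) = w d
  rw' : ∀ d, -1 ≤ d → d ≤ 1 → r d = w d
  rp : ∀ d, -2 ≤ d → d ≤ 2 → 0 < r d
  rz : ∀ d, ¬ (-2 ≤ d ∧ d ≤ 2) → r d = 0
  ρe : ∀ d, ρ d = Real.log (r d)
  hY : ∀ a, L.st a ∈ Y
  ref : ∀ g, ∑ z ∈ bx V 2, (∏ v, if v ∈ Y then r (z v) else w (z v)) * U (g - s z) ≤
    Real.exp d0 * Z
  U0 : ∀ g, 0 ≤ U g
  Ue : ∀ g, U (-g) = U g
  E0 : 0 < E 0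
  gi : ∀ x h, (U x * (E h / E 0)) ^ 2 ≤ U (x + h) * U (x - h)

namespace Gas

variable {G : Type*} [AddCommGroup G] {L : Lab α V} {g0 : (V → ℤ) → ℝ} {ρ : ℤ → ℝ}
  {s : (V → ℤ) →+ G} {w r : ℤ → ℝ} {U E : G → ℝ} {Z d0 : ℝ} {Y : Finset V}

theorem bx_neg {n : ℕ} {c : V → ℤ} (h : c ∈ bx V n) : -c ∈ bx V n := by
  rw [mem_bx] at *
  intro v
  have := h v
  simp only [Pi.neg_apply]
  omega

theorem g0_neg (H : Gas L g0 ρ s w r U E Z d0 Y) (c : V → ℤ) : g0 (-c) = g0 c := by
  rw [H.g0e, H.g0e, map_neg, H.Ue (-s c)]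
  congr 2
  exact Finset.prod_congr rfl fun v _ => H.we _

theorem sum_neg (H : Gas L g0 ρ s w r U E Z d0 Y) (F : (V → ℤ) → ℝ) :
    ∑ c ∈ bx V 1, g0 c * F c = ∑ c ∈ bx V 1, g0 c * F (-c) := by
  refine Finset.sum_nbij' (fun c => -c) (fun c => -c) (fun c h => bx_neg h) (fun c h => bx_neg h)
    (fun c _ => neg_neg c) (fun c _ => neg_neg c) fun c _ => ?_
  rw [H.g0_neg, neg_neg]

theorem U_pos (H : Gas L g0 ρ s w r U E Z d0 Y) {c : V → ℤ} (hc : g0 c ≠ 0) : 0 < U (s c) := by
  rcases (H.U0 (s c)).eq_or_lt with h | h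
  · exfalso
    apply hc
    rw [H.g0e, H.Ue, ← h]
    simp
  · exact h

/-- The symmetrization. -/
theorem sym (H : Gas L g0 ρ s w r U E Z d0 Y) (hg : Noi g0) {h : G} (hE : 0 < E h) :
    Real.log (E h / E 0) ≤
      ∑ c ∈ bx V 1, g0 c * (Real.log (U (h - s c)) - Real.log (U (-s c))) := by
  have e1 : ∑ c ∈ bx V 1, g0 c * (Real.log (U (h - s c)) - Real.log (U (-s c))) =
      ∑ c ∈ bx V 1, g0 c * (Real.log (U (h + s c)) - Real.log (U (s c))) := by
    rw [H.sum_neg]
    refine Finset.sum_congr rfl fun c _ => ?_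
    rw [map_neg, sub_neg_eq_add, neg_neg]
  have e2 : 2 * Real.log (E h / E 0) ≤
      ∑ c ∈ bx V 1, g0 c * (Real.log (U (h - s c)) - Real.log (U (-s c))) +
      ∑ c ∈ bx V 1, g0 c * (Real.log (U (h + s c)) - Real.log (U (s c))) := by
    rw [← Finset.sum_add_distrib]
    calc 2 * Real.log (E h / E 0) = ∑ c ∈ bx V 1, g0 c * (2 * Real.log (E h / E 0)) := by
          rw [← Finset.sum_mul, hg.one, one_mul]
      _ ≤ _ := by
          refine Finset.sum_le_sum fun c _ => ?_
          by_cases hc : g0 c = 0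
          · rw [hc]; simp
          have hU := H.U_pos hc
          have hq : 0 < E h / E 0 := div_pos hE H.E0
          have h1 := H.gi (s c) h
          have h2 : 0 < (U (s c) * (E h / E 0)) ^ 2 := by positivity
          have h3 : 0 < U (s c + h) * U (s c - h) := lt_of_lt_of_le h2 h1
          have h4 : U (s c + h) ≠ 0 := fun h5 => by rw [h5] at h3; simp at h3
          have h5 : U (s c - h) ≠ 0 := fun h5 => by rw [h5] at h3; simp at h3
          have h6 := Real.log_le_log h2 h1
          rw [Real.log_pow, Real.log_mul hU.ne' hq.ne', Real.log_mul h4 h5] at h6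
          have h7 : U (h - s c) = U (s c - h) := by
            rw [← H.Ue, neg_sub]
          have h8 : U (h + s c) = U (s c + h) := by rw [add_comm]
          rw [← mul_add, H.Ue (s c), h7, h8]
          refine mul_le_mul_of_nonneg_left ?_ (hg.nn c)
          push_cast at h6
          linarith
  linarith

/-- The change of the reference weights. -/
theorem prod_log (H : Gas L g0 ρ s w r U E Z d0 Y) {B : Finset α} (hB : L.Pr B) {c : V → ℤ}
    (hc : c ∈ bx V 1) :
    ∑ a ∈ B, (ρ (c (L.st a)) - ρ (c (L.st a) + L.sg a)) +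
      Real.log (∏ v, if v ∈ Y then r ((c + L.dg B) v) else w ((c + L.dg B) v)) =
      Real.log (∏ v, w (c v)) := by
  have hc' := mem_bx.mp hc
  have hB' := mem_bx.mp (L.dg_bx hB)
  have hwc : ∀ v, 0 < w (c v) := fun v => H.wp _ (by have := hc' v; omega) (by have := hc' v; omega)
  have hz0 : ∀ v, v ∉ Y → L.dg B v = 0 := fun v hv => L.dg_not fun a _ e => hv (e ▸ H.hY a)
  have hz : ∀ v, 0 < (if v ∈ Y then r ((c + L.dg B) v) else w ((c + L.dg B) v)) := by
    intro v
    split_ifs with hv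
    · have h1 := hc' v
      have h2 := hB' v
      refine H.rp _ ?_ ?_
      · simp only [Pi.add_apply]; omega
      · simp only [Pi.add_apply]; omega
    · have : (c + L.dg B) v = c v := by simp [hz0 v hv]
      rw [this]
      exact hwc v
  rw [Real.log_prod fun v _ => (hz v).ne', Real.log_prod fun v _ => (hwc v).ne']
  have e1 : ∑ v, Real.log (if v ∈ Y then r ((c + L.dg B) v) else w ((c + L.dg B) v)) =
      ∑ v, Real.log (w (c v)) + ∑ v, (ρ ((c + L.dg B) v) - ρ (c v)) * (if v ∈ Y then 1 else 0) := by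
    rw [← Finset.sum_add_distrib]
    refine Finset.sum_congr rfl fun v _ => ?_
    split_ifs with hv
    · have h1 := hc' v
      rw [H.ρe, H.ρe, H.rw' (c v) (by omega) (by omega)]
      ring
    · have : (c + L.dg B) v = c v := by simp [hz0 v hv]
      rw [this]
      ring
  have e2 : ∑ v, (ρ ((c + L.dg B) v) - ρ (c v)) * (if v ∈ Y then 1 else 0) =
      ∑ a ∈ B, (ρ (c (L.st a) + L.sg a) - ρ (c (L.st a))) := by
    have e3 : ∑ a ∈ B, (ρ (c (L.st a) + L.sg a) - ρ (c (L.st a))) =
        ∑ v ∈ B.image L.st, (ρ ((c + L.dg B) v) - ρ (c v)) * (if v ∈ Y then 1 else 0) := by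
      rw [Finset.sum_image fun a ha a' ha' e => hB a ha a' ha' e]
      refine Finset.sum_congr rfl fun a ha => ?_
      rw [if_pos (H.hY a), mul_one, Pi.add_apply, L.dg_mem hB ha]
    rw [e3]
    symm
    refine Finset.sum_subset (Finset.subset_univ _) fun v _ hv => ?_
    have : L.dg B v = 0 := L.dg_not fun a ha e => hv (Finset.mem_image.mpr ⟨a, ha, e⟩)
    rw [Pi.add_apply, this, add_zero, sub_self, zero_mul]
  rw [e1, e2]
  have e4 : ∑ a ∈ B, (ρ (c (L.st a)) - ρ (c (L.st a) + L.sg a)) =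
      - ∑ a ∈ B, (ρ (c (L.st a) + L.sg a) - ρ (c (L.st a))) := by
    rw [← Finset.sum_neg_distrib]
    exact Finset.sum_congr rfl fun a _ => by ring
  rw [e4]
  ring

/-- **The lower bound of the functional.** -/
theorem low (H : Gas L g0 ρ s w r U E Z d0 Y) (hg : Noi g0) {m : Finset α → ℝ} (hm : Wd L m)
    {K : Finset α} (hK : ∀ A, m A ≠ 0 → K ⊆ A) (g : G)
    (hE : ∀ A, m A ≠ 0 → 0 < E (g - s (L.dg A))) :
    ∑ A, m A * Real.log (E (g - s (L.dg A)) / E 0) - d0 * tot m ≤ DS L g0 ρ K m := by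
  rcases (Finset.sum_nonneg fun A _ => hm.nn A : 0 ≤ ∑ A, m A).eq_or_lt with ht | ht
  · have h0 : ∀ A, m A = 0 := by
      intro A
      have := (Finset.sum_eq_zero_iff_of_nonneg fun A _ => hm.nn A).mp ht.symm A (Finset.mem_univ A)
      exact this
    have h1 : DS L g0 ρ K m = 0 := DS_zero fun A hA => absurd (h0 A) hA
    rw [h1]
    have h2 : tot m = 0 := ht.symm
    rw [h2]
    simp [h0]
  change 0 < tot m at ht
  -- a label set with positive mass
  have hKp : L.Pr K := by
    by_contra hK'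
    have : ∀ A, m A = 0 := by
      intro A
      by_contra hA
      exact hK' ((hm.pr A hA).mono L (hK A hA))
    have h1 : tot m = 0 := Finset.sum_eq_zero fun A _ => this A
    linarith
  set Q : (V → ℤ) → ℝ := fun z =>
    (∏ v, if v ∈ Y then r (z v) else w (z v)) * U (g - s (L.dg K) - s z) with hQ
  have hrn : ∀ d, 0 ≤ r d := by
    intro d
    by_cases hd : -2 ≤ d ∧ d ≤ 2
    · exact (H.rp d hd.1 hd.2).le
    · exact (H.rz d hd).ge
  have hwn : ∀ d, 0 ≤ w d := by
    intro d
    by_cases hd : -1 ≤ d ∧ d ≤ 1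
    · exact (H.wp d hd.1 hd.2).le
    · exact (H.wz d hd).ge
  have hQn : ∀ z, 0 ≤ Q z := fun z => mul_nonneg
    (Finset.prod_nonneg fun v _ => by split_ifs; exacts [hrn _, hwn _]) (H.U0 _)
  have hQ0 : ∀ z, z ∉ bx V 2 → Q z = 0 := by
    intro z hz
    rw [mem_bx] at hz
    push Not at hz
    obtain ⟨v, hv⟩ := hz
    have h1 : (∏ v, if v ∈ Y then r (z v) else w (z v)) = 0 := by
      refine Finset.prod_eq_zero (Finset.mem_univ v) ?_
      have h2 : ¬ (-2 ≤ z v ∧ z v ≤ 2) := by
        rintro ⟨h3, h4⟩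
        have := hv (by push_cast; omega)
        push_cast at this
        omega
      split_ifs
      · exact H.rz _ h2
      · exact H.wz _ (by omega)
    rw [hQ]
    simp only
    rw [h1, zero_mul]
  have hcon : 0 < Real.exp d0 * Z := mul_pos (Real.exp_pos _) H.Z0
  have h1 := gibbs0 (bx V 2) (lam L g0 m) (fun y => tot m * (Q (y - L.dg K) / (Real.exp d0 * Z)))
    (fun y _ => lam_nonneg hg hm.nn y)
    (fun y _ => mul_nonneg ht.le (div_nonneg (hQn _) hcon.le))
    (by
      intro y _ hy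
      unfold lam at hy
      obtain ⟨A, _, hA⟩ := Finset.exists_ne_zero_of_sum_ne_zero hy.ne'
      have hmA : m A ≠ 0 := left_ne_zero_of_mul hA
      have hgA : g0 (y - L.dg A) ≠ 0 := right_ne_zero_of_mul hA
      have hcb : y - L.dg A ∈ bx V 1 := by
        by_contra h
        exact hgA (hg.supp _ h)
      have hAK : L.Pr (A \ K) := (hm.pr A hmA).mono L Finset.sdiff_subset
      have e : y - L.dg K = (y - L.dg A) + L.dg (A \ K) := by
        rw [L.dg_sdiff (hK A hmA)]; abel
      have hQp : 0 < Q (y - L.dg K) := by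
        rw [hQ]
        simp only
        refine mul_pos (Finset.prod_pos fun v _ => ?_) ?_
        · have h2 := mem_bx.mp hcb v
          have h3 := mem_bx.mp (L.dg_bx hAK) v
          rw [e]
          split_ifs with hv
          · refine H.rp _ ?_ ?_
            · simp only [Pi.add_apply] at *; push_cast at *; omega
            · simp only [Pi.add_apply] at *; push_cast at *; omega
          · have hz0 : L.dg (A \ K) v = 0 := L.dg_not fun a _ e => hv (e ▸ H.hY a)
            rw [Pi.add_apply, hz0, add_zero]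
            exact H.wp _ (by push_cast at h2; omega) (by push_cast at h2; omega)
        · have h2 : g - s (L.dg K) - s (y - L.dg K) = (g - s (L.dg A)) - s (y - L.dg A) := by
            rw [map_sub, map_sub]; abel
          rw [h2]
          have hq : 0 < E (g - s (L.dg A)) / E 0 := div_pos (hE A hmA) H.E0
          have hU := H.U_pos hgA
          have h3 := H.gi (s (y - L.dg A)) (g - s (L.dg A))
          have h4 : 0 < (U (s (y - L.dg A)) * (E (g - s (L.dg A)) / E 0)) ^ 2 := by positivity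
          have h5 := lt_of_lt_of_le h4 h3
          have h6 : U (g - s (L.dg A) - s (y - L.dg A)) =
              U (s (y - L.dg A) - (g - s (L.dg A))) := by rw [← H.Ue, neg_sub]
          rw [h6]
          rcases (H.U0 (s (y - L.dg A) - (g - s (L.dg A)))).eq_or_lt with h7 | h7
          · rw [← h7] at h5; simp at h5
          · exact h7
      positivity)
  rw [lam_tot hg hm, lam_sum hg hm] at h1
  have h2 : ∑ y ∈ bx V 2, tot m * (Q (y - L.dg K) / (Real.exp d0 * Z)) ≤ tot m := by
    rw [← Finset.mul_sum, ← Finset.sum_div]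
    have h3 : ∑ y ∈ bx V 2, Q (y - L.dg K) ≤ Real.exp d0 * Z := by
      refine le_trans ?_ (H.ref (g - s (L.dg K)))
      have e : ∑ y ∈ bx V 2, Q (y - L.dg K) =
          ∑ z ∈ (bx V 2).map (Equiv.subRight (L.dg K)).toEmbedding, Q z := by
        rw [Finset.sum_map]
        rfl
      rw [e]
      have e2 : ∑ z ∈ (bx V 2).map (Equiv.subRight (L.dg K)).toEmbedding, Q z ≤
          ∑ z ∈ (bx V 2).map (Equiv.subRight (L.dg K)).toEmbedding ∪ bx V 2, Q z :=
        Finset.sum_le_sum_of_subset_of_nonneg Finset.subset_union_left fun z _ _ => hQn z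
      refine e2.trans (le_of_eq ?_)
      symm
      exact Finset.sum_subset Finset.subset_union_right fun z _ hz => hQ0 z hz
    calc tot m * ((∑ y ∈ bx V 2, Q (y - L.dg K)) / (Real.exp d0 * Z)) ≤ tot m * 1 := by
          refine mul_le_mul_of_nonneg_left ?_ ht.le
          rw [div_le_one hcon]
          exact h3
      _ = tot m := mul_one _
  have h3 : ∑ A, m A * ∑ c ∈ bx V 1, g0 c * Real.log (tot m * (Q (c + L.dg A - L.dg K) /
      (Real.exp d0 * Z)) / lam L g0 m (c + L.dg A)) ≤ 0 := by linarith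
  -- the difference of the two sides
  have h4 : ∀ A, m A * ll L g0 ρ (A \ K) - m A * ∑ c ∈ bx V 1, g0 c *
      Real.log (g0 c * tot m / lam L g0 m (c + L.dg A)) +
      m A * ∑ c ∈ bx V 1, g0 c * Real.log (tot m * (Q (c + L.dg A - L.dg K) /
        (Real.exp d0 * Z)) / lam L g0 m (c + L.dg A)) =
      m A * ∑ c ∈ bx V 1, g0 c * (Real.log (U (g - s (L.dg A) - s c)) - Real.log (U (-s c))) -
        m A * d0 := by
    intro A
    by_cases hA : m A = 0
    · rw [hA]; ring
    have hAp : 0 < m A := lt_of_le_of_ne (hm.nn A) (Ne.symm hA)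
    have hAK : L.Pr (A \ K) := (hm.pr A hA).mono L Finset.sdiff_subset
    have e5 : ll L g0 ρ (A \ K) = ∑ c ∈ bx V 1, g0 c *
        ∑ a ∈ A \ K, (ρ (c (L.st a)) - ρ (c (L.st a) + L.sg a)) := by
      unfold ll la
      rw [Finset.sum_comm]
      exact Finset.sum_congr rfl fun c _ => by rw [Finset.mul_sum]
    have e6 : m A * d0 = m A * ∑ c ∈ bx V 1, g0 c * d0 := by
      rw [← Finset.sum_mul, hg.one, one_mul]
    rw [e5, e6, ← mul_sub, ← mul_add, ← mul_sub, ← Finset.sum_sub_distrib,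
      ← Finset.sum_add_distrib, ← Finset.sum_sub_distrib]
    congr 1
    refine Finset.sum_congr rfl fun c hc => ?_
    by_cases h0 : g0 c = 0
    · rw [h0]; ring
    have hcp : 0 < g0 c := lt_of_le_of_ne (hg.nn c) (Ne.symm h0)
    have hlam : 0 < lam L g0 m (c + L.dg A) := by
      refine lt_of_lt_of_le (mul_pos hAp hcp) ?_
      have := le_lam (L := L) hg hm.nn A (c + L.dg A)
      rwa [add_sub_cancel_right] at this
    have ez : c + L.dg A - L.dg K = c + L.dg (A \ K) := by
      rw [L.dg_sdiff (hK A hA)]; abel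
    have eU : g - s (L.dg K) - s (c + L.dg (A \ K)) = g - s (L.dg A) - s c := by
      rw [L.dg_sdiff (hK A hA), map_add, map_sub]; abel
    have hU := H.U_pos h0
    have hq : 0 < E (g - s (L.dg A)) / E 0 := div_pos (hE A hA) H.E0
    have hUz : 0 < U (g - s (L.dg A) - s c) := by
      have h3 := H.gi (s c) (g - s (L.dg A))
      have h4 : 0 < (U (s c) * (E (g - s (L.dg A)) / E 0)) ^ 2 := by positivity
      have h5 := lt_of_lt_of_le h4 h3
      have h6 : U (g - s (L.dg A) - s c) = U (s c - (g - s (L.dg A))) := by rw [← H.Ue, neg_sub]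
      rw [h6]
      rcases (H.U0 (s c - (g - s (L.dg A)))).eq_or_lt with h7 | h7
      · rw [← h7] at h5; simp at h5
      · exact h7
    have hc' := mem_bx.mp hc
    have hB' := mem_bx.mp (L.dg_bx hAK)
    have hpw : 0 < ∏ v, w (c v) := Finset.prod_pos fun v _ =>
      H.wp _ (by have := hc' v; push_cast at this; omega) (by have := hc' v; push_cast at this; omega)
    have hpr : 0 < ∏ v, if v ∈ Y then r ((c + L.dg (A \ K)) v) else w ((c + L.dg (A \ K)) v) := by
      refine Finset.prod_pos fun v _ => ?_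
      have h2 := hc' v
      have h3 := hB' v
      push_cast at h2 h3
      split_ifs with hv
      · refine H.rp _ ?_ ?_
        · simp only [Pi.add_apply]; omega
        · simp only [Pi.add_apply]; omega
      · have hz0 : L.dg (A \ K) v = 0 := L.dg_not fun a _ e => hv (e ▸ H.hY a)
        rw [Pi.add_apply, hz0, add_zero]
        exact H.wp _ (by omega) (by omega)
    have hpl := H.prod_log hAK hc
    have eQ : Q (c + L.dg A - L.dg K) =
        (∏ v, if v ∈ Y then r ((c + L.dg (A \ K)) v) else w ((c + L.dg (A \ K)) v)) *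
          U (g - s (L.dg A) - s c) := by
      rw [ez, hQ]
      simp only
      rw [eU]
    rw [eQ]
    have hl1 : Real.log (g0 c) = Real.log (∏ v, w (c v)) + Real.log (U (-s c)) - Real.log Z := by
      rw [H.g0e c, Real.log_div (mul_ne_zero hpw.ne' (by rw [H.Ue]; exact hU.ne')) H.Z0.ne',
        Real.log_mul hpw.ne' (by rw [H.Ue]; exact hU.ne')]
    rw [Real.log_div (mul_pos hcp ht).ne' hlam.ne', Real.log_mul hcp.ne' ht.ne',
      Real.log_div (by positivity) hlam.ne', Real.log_mul ht.ne' (by positivity),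
      Real.log_div (by positivity) hcon.ne', Real.log_mul hpr.ne' hUz.ne',
      Real.log_mul (Real.exp_pos _).ne' H.Z0.ne', Real.log_exp, hl1, ← hpl]
    ring
  rw [DS_eq hK]
  have h5 : ∑ A, m A * ll L g0 ρ (A \ K) - Ich L g0 m + ∑ A, m A * ∑ c ∈ bx V 1, g0 c *
      Real.log (tot m * (Q (c + L.dg A - L.dg K) / (Real.exp d0 * Z)) /
        lam L g0 m (c + L.dg A)) =
      ∑ A, m A * ∑ c ∈ bx V 1, g0 c *
        (Real.log (U (g - s (L.dg A) - s c)) - Real.log (U (-s c))) - d0 * tot m := by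
    unfold Ich tot
    rw [← Finset.sum_sub_distrib, ← Finset.sum_add_distrib, Finset.mul_sum,
      ← Finset.sum_sub_distrib]
    refine Finset.sum_congr rfl fun A _ => ?_
    have := h4 A
    unfold tot at this
    rw [this]
    ring
  have h6 : ∑ A, m A * Real.log (E (g - s (L.dg A)) / E 0) ≤
      ∑ A, m A * ∑ c ∈ bx V 1, g0 c *
        (Real.log (U (g - s (L.dg A) - s c)) - Real.log (U (-s c))) := by
    refine Finset.sum_le_sum fun A _ => ?_
    by_cases hA : m A = 0
    · rw [hA]; simp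
    exact mul_le_mul_of_nonneg_left (H.sym hg (hE A hA)) (hm.nn A)
  linarith

end Gas

namespace Gs

variable {G : Type*} [AddCommGroup G] {P : Gs V G}

/-- The hypotheses of the lower bound for the ternary gas. -/
theorem gas (h : P.Ok) (L : Lab α V) {T : Finset V} (hT : ∀ a, L.st a ∈ T) {E : G → ℝ}
    (hE0 : 0 < E 0) (gi : ∀ x h, (P.U x * (E h / E 0)) ^ 2 ≤ P.U (x + h) * P.U (x - h)) :
    Gas L P.g0 P.rho (AddMonoidHom.mk' P.s s_add) (wt P.p) (rf P.p P.η) P.U E (P.W 0)
      (2 * P.η * T.card) T where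
  Z0 := h.Z0
  g0e := fun _ => rfl
  wp := fun _ h1 h2 => wt_pos h.p0 ⟨h1, h2⟩
  wz := fun _ h1 => wt_eq_zero h1
  we := fun _ => wt_neg _ _
  rw' := fun _ h1 h2 => rf_eq_wt ⟨h1, h2⟩
  rp := fun _ h1 h2 => rf_pos h.p0 h.η0 ⟨h1, h2⟩
  rz := by
    intro d hd
    unfold rf
    rw [if_neg (by omega), if_neg (by omega), if_neg (by omega)]
  ρe := fun _ => rfl
  hY := hT
  ref := by
    intro g
    have h1 := WK_le' h T g
    refine h1.trans ?_
    refine mul_le_mul_of_nonneg_right ?_ h.Z0.le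
    have h2 : 1 + 2 * P.η ≤ Real.exp (2 * P.η) := by
      have := Real.add_one_le_exp (2 * P.η)
      linarith
    have h3 : (0 : ℝ) ≤ 1 + 2 * P.η := by
      have := h.η0
      linarith
    calc (1 + 2 * P.η) ^ T.card ≤ (Real.exp (2 * P.η)) ^ T.card := pow_le_pow_left₀ h3 h2 _
      _ = Real.exp (2 * P.η * T.card) := by rw [← Real.exp_nat_mul]; ring_nf
  U0 := h.U0
  Ue := h.Ueven
  E0 := hE0
  gi := gi

/-- **The lower bound of the functional**, ternary gas. -/
theorem low (h : P.Ok) (L : Lab α V) {T : Finset V} (hT : ∀ a, L.st a ∈ T) {E : G → ℝ}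
    (hE0 : 0 < E 0) (gi : ∀ x h, (P.U x * (E h / E 0)) ^ 2 ≤ P.U (x + h) * P.U (x - h))
    {m : Finset α → ℝ} (hm : Wd L m) {K : Finset α} (hK : ∀ A, m A ≠ 0 → K ⊆ A) (g : G)
    (hE : ∀ A, m A ≠ 0 → 0 < E (g - P.s (L.dg A))) :
    ∑ A, m A * Real.log (E (g - P.s (L.dg A)) / E 0) - 2 * P.η * T.card * tot m ≤
      DS L P.g0 P.rho K m :=
  (gas h L hT hE0 gi).low (noi h) hm hK g hE

end Gs

end Pool.Agent.RR
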