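import Pool.Agent.RR.Bridge
import Pool.Agent.RR.Low
import Pool.Agent.RR.HintSta
import Pool.Agent.SP.Shift

/-!
# The channel of the ternary gas
-/

set_option autoImplicit false
set_option linter.unusedSectionVars false

namespace Pool.Agent.RR

open Finset Real

namespace Gs

variable {V H α : Type*} [Fintype V] [DecidableEq V] [AddCommGroup H] [Fintype α] [DecidableEq α]
  {P : Gs V H}

theorem ll_eq (L : Lab α V) (A : Finset α) :
    ll L P.g0 (Pool.Agent.RR.rho (-log P.p) (log P.p - log P.η)) A = ll L P.g0 P.rho A := by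
  unfold ll la
  refine Finset.sum_congr rfl fun a _ => Finset.sum_congr rfl fun c hc => ?_
  have h1 := mem_bx.1 hc (L.st a)
  push_cast at h1
  rw [rho_eq (by omega) (by omega),
    rho_eq (by rcases L.sg1 a with h | h <;> rw [h] <;> omega)
      (by rcases L.sg1 a with h | h <;> rw [h] <;> omega)]

/-- The two forms of the functional. -/
theorem DSt_eq (L : Lab α V) {s : Sta α} (hs : ∀ A, s.m A ≠ 0 → s.K ⊆ A) :
    DSt L P.g0 (Pool.Agent.RR.rho (-log P.p) (log P.p - log P.η)) s =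
      DS L P.g0 P.rho s.K s.m := by
  rw [DS_eq hs]
  unfold DSt
  simp only [ll_eq]

/-- **The channel of the ternary gas.** -/
theorem chan (h : P.Ok) (L : Lab α V) (hη : P.η ≤ P.p ^ 2) {e e' : ℝ}
    (hact : ∀ v, ∑ c ∈ bx V 1, P.g0 c * (if c v = 0 then 0 else 1) ≤ e') {f : ℕ → ℝ}
    (hf0 : ∀ n, 0 ≤ f n) (hf : ∀ K, L.Pr K → f K.card ≤ 1 - P.W (P.s (L.dg K)) / P.W 0)
    (he : (2 * log P.p - log P.η) * e' + 4 * P.η ≤ e)
    {T : Finset V} (hT : ∀ a, L.st a ∈ T) {E : H → ℝ} (hE0 : 0 < E 0)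
    (gi : ∀ x h, (P.U x * (E h / E 0)) ^ 2 ≤ P.U (x + h) * P.U (x - h)) (g : H) :
    Chan L.Pr (fun A => 0 < E (g - P.s (L.dg A)))
      (DSt L P.g0 (Pool.Agent.RR.rho (-log P.p) (log P.p - log P.η))) (-log P.p) e f
      (fun A => -log (E (g - P.s (L.dg A)) / E 0) + 2 * P.η * T.card)
      (∑ a, |la L P.g0 P.rho a|) where
  hint := by
    intro s hs ι _ t ht
    have hX := axi h L hη hact hf0 hf
    obtain ⟨J, hJ0, hJs, hJm, h1, h2⟩ := hint_field (f := fun n => f n - 4 * P.η * n)
      (e := (2 * log P.p - log P.η) * e') (fun A hA => hA) hX (fun K _ => le_rfl)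
      (by
        refine le_of_eq ?_
        ring) s hs ι t ht
    have hrev : 0 ≤ rev s t := by
      unfold rev mass
      exact Finset.sum_nonneg fun i _ => mul_nonneg
        (Finset.sum_nonneg fun A _ => ht.nn i A) (Nat.cast_nonneg _)
    have h3 : ((2 * log P.p - log P.η) * e') * rev s t + 4 * P.η * rev s t ≤ e * rev s t := by
      rw [← add_mul]
      exact mul_le_mul_of_nonneg_right he hrev
    have h4 : 0 ≤ 4 * P.η * rev s t := by
      have := h.η0
      positivity
    have h5 : ∑ i, mass (t i).m * (f ((t i).K \ s.K).card - 4 * P.η * ((t i).K \ s.K).card) =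
        ∑ i, mass (t i).m * f ((t i).K \ s.K).card - 4 * P.η * rev s t := by
      unfold rev
      rw [Finset.mul_sum, ← Finset.sum_sub_distrib]
      refine Finset.sum_congr rfl fun i _ => ?_
      ring
    refine ⟨J, hJ0, hJs, hJm, by linarith, ?_⟩
    rw [h5] at h2
    linarith
  low := by
    intro s hs hG
    rw [DSt_eq L hs.sub]
    have h1 := low h L hT hE0 gi ⟨hs.nn, hs.adm⟩ hs.sub g hG
    refine le_trans (le_of_eq ?_) h1
    unfold tot
    rw [Finset.mul_sum, ← Finset.sum_sub_distrib, ← Finset.sum_neg_distrib]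
    refine Finset.sum_congr rfl fun A _ => ?_
    ring
  up := by
    intro s hs
    rw [DSt_eq L hs.sub]
    exact DS_up (noi h) ⟨hs.nn, hs.adm⟩ hs.sub
  zero := by
    intro s hs h0
    rw [DSt_eq L hs.sub]
    exact DS_zero h0

end Gs

open scoped ENNReal
open Pool.Agent.SP (GI Ext Fin0 ext_gi)

/-- The Gaussian inequality over the reals. -/
theorem gi_real {G : Type*} [AddCommGroup G] {E U : G → ℝ≥0∞} (hE : GI E) (hE0 : Fin0 E)
    (hx : Ext E U) (hU : ∀ g, U g ≠ ⊤) (x h : G) :
    ((U x).toReal * ((E h).toReal / (E 0).toReal)) ^ 2 ≤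
      (U (x + h)).toReal * (U (x - h)).toReal := by
  obtain ⟨ν, hν⟩ := hx
  have h1 := ext_gi hE hν (x + h) h
  have e1 : x + h - h = x := by abel
  rw [e1] at h1
  have h2 := ENNReal.toReal_mono (by
    refine ENNReal.mul_ne_top (ENNReal.mul_ne_top (hU _) (hU _)) (ENNReal.pow_ne_top hE0.2)) h1
  rw [ENNReal.toReal_pow, ENNReal.toReal_mul, ENNReal.toReal_mul, ENNReal.toReal_mul,
    ENNReal.toReal_pow] at h2
  have h3 : 0 < (E 0).toReal := ENNReal.toReal_pos hE0.1 hE0.2
  have h4 : ((U x).toReal * ((E h).toReal / (E 0).toReal)) ^ 2 =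
      ((U x).toReal * (E h).toReal) ^ 2 / (E 0).toReal ^ 2 := by
    field_simp
  rw [h4, div_le_iff₀ (by positivity)]
  exact h2

end Pool.Agent.RR
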