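import Pool.Agent.SP.Second
import Pool.Agent.SPG.Defs

/-!
Pressure of one class of levels: from the inequality on single levels to all levels together.
-/

set_option autoImplicit false

namespace Pool.Agent.RR

open Finset
open scoped ENNReal
open Pool.Agent.Helper36.LL (dlt FF tern)
open Pool.Agent.SP (SS sg mem_SS sum_SS FF_tern_sum sg_union)
open Pool.Agent.SPG (lvl)

variable {G : Type*} [AddCommGroup G] [DecidableEq G]

/-- The weighted number of signed sets in `Y` with sum `g`. -/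
noncomputable def ZZ (Y : Finset G) (w : G → ℝ) (g : G) : ℝ :=
  ∑ T ∈ SS Y, if sg T.1 T.2 = g then ∏ v ∈ T.1 ∪ T.2, w v else 0

theorem sum_SS_union {M : Type*} [AddCommMonoid M] {Y₁ Y₂ : Finset G} (h : Disjoint Y₁ Y₂)
    (F : Finset G × Finset G → M) :
    ∑ T ∈ SS (Y₁ ∪ Y₂), F T =
      ∑ T ∈ SS Y₁, ∑ R ∈ SS Y₂, F (T.1 ∪ R.1, T.2 ∪ R.2) := by
  rw [← Finset.sum_product']
  symm
  refine Finset.sum_bij' (fun q _ => (q.1.1 ∪ q.2.1, q.1.2 ∪ q.2.2))
    (fun T _ => ((T.1 ∩ Y₁, T.2 ∩ Y₁), (T.1 ∩ Y₂, T.2 ∩ Y₂))) ?_ ?_ ?_ ?_ ?_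
  · rintro ⟨T, R⟩ hq
    rw [mem_product, mem_SS, mem_SS] at hq
    obtain ⟨⟨h1, h2, h3⟩, h4, h5, h6⟩ := hq
    rw [mem_SS]
    refine ⟨union_subset_union h1 h4, union_subset_union h2 h5, ?_⟩
    rw [disjoint_union_left, disjoint_union_right, disjoint_union_right]
    exact ⟨⟨h3, disjoint_of_subset_left h1 (disjoint_of_subset_right h5 h)⟩,
      (disjoint_of_subset_left h2 (disjoint_of_subset_right h4 h)).symm, h6⟩
  · intro T hT
    rw [mem_SS] at hT
    rw [mem_product, mem_SS, mem_SS]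
    refine ⟨⟨inter_subset_right, inter_subset_right, ?_⟩, inter_subset_right,
      inter_subset_right, ?_⟩
    · exact disjoint_of_subset_left inter_subset_left
        (disjoint_of_subset_right inter_subset_left hT.2.2)
    · exact disjoint_of_subset_left inter_subset_left
        (disjoint_of_subset_right inter_subset_left hT.2.2)
  · rintro ⟨T, R⟩ hq
    rw [mem_product, mem_SS, mem_SS] at hq
    obtain ⟨⟨h1, h2, h3⟩, h4, h5, h6⟩ := hq
    have e1 : ∀ {A B : Finset G}, A ⊆ Y₁ → B ⊆ Y₂ → (A ∪ B) ∩ Y₁ = A := by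
      intro A B hA hB
      rw [union_inter_distrib_right, inter_eq_left.2 hA]
      rw [disjoint_iff_inter_eq_empty.1 (disjoint_of_subset_left hB h.symm), union_empty]
    have e2 : ∀ {A B : Finset G}, A ⊆ Y₁ → B ⊆ Y₂ → (A ∪ B) ∩ Y₂ = B := by
      intro A B hA hB
      rw [union_inter_distrib_right, inter_eq_left.2 hB]
      rw [disjoint_iff_inter_eq_empty.1 (disjoint_of_subset_left hA h), empty_union]
    simp only [e1 h1 h4, e1 h2 h5, e2 h1 h4, e2 h2 h5]
  · intro T hT
    rw [mem_SS] at hT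
    have e : ∀ {A : Finset G}, A ⊆ Y₁ ∪ Y₂ → A ∩ Y₁ ∪ A ∩ Y₂ = A := by
      intro A hA
      rw [← inter_union_distrib_left, inter_eq_left.2 hA]
    simp only [e hT.1, e hT.2.1]
  · rintro ⟨T, R⟩ _
    rfl

theorem ZZ_union {Y₁ Y₂ : Finset G} (h : Disjoint Y₁ Y₂) (w : G → ℝ) (g : G) :
    ZZ (Y₁ ∪ Y₂) w g =
      ∑ T ∈ SS Y₁, (∏ v ∈ T.1 ∪ T.2, w v) * ZZ Y₂ w (g - sg T.1 T.2) := by
  unfold ZZ
  rw [sum_SS_union h]
  refine Finset.sum_congr rfl fun T hT => ?_
  rw [Finset.mul_sum]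
  refine Finset.sum_congr rfl fun R hR => ?_
  rw [mem_SS] at hT hR
  have hd : Disjoint (T.1 ∪ T.2) (R.1 ∪ R.2) :=
    disjoint_of_subset_left (union_subset hT.1 hT.2.1)
      (disjoint_of_subset_right (union_subset hR.1 hR.2.1) h)
  have h1 : Disjoint T.1 R.1 := disjoint_of_subset_left hT.1 (disjoint_of_subset_right hR.1 h)
  have h2 : Disjoint T.2 R.2 :=
    disjoint_of_subset_left hT.2.1 (disjoint_of_subset_right hR.2.1 h)
  have e : T.1 ∪ R.1 ∪ (T.2 ∪ R.2) = T.1 ∪ T.2 ∪ (R.1 ∪ R.2) := by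
    ext v
    simp only [mem_union]
    tauto
  simp only [e, sg_union h1 h2, Finset.prod_union hd]
  by_cases hg : sg T.1 T.2 + sg R.1 R.2 = g
  · rw [if_pos hg, if_pos (by rw [← hg]; abel)]
  · rw [if_neg hg, if_neg (fun hh => hg (by rw [hh]; abel)), mul_zero]

theorem ZZ_nonneg {Y : Finset G} {w : G → ℝ} (hw : ∀ v ∈ Y, 0 ≤ w v) (g : G) :
    0 ≤ ZZ Y w g := by
  unfold ZZ
  refine Finset.sum_nonneg fun T hT => ?_
  rw [mem_SS] at hT
  split_ifs
  · exact Finset.prod_nonneg fun v hv => hw v (union_subset hT.1 hT.2.1 hv)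
  · exact le_rfl

theorem ZZ_mono {Y : Finset G} {w w' : G → ℝ} (hw : ∀ v ∈ Y, 0 ≤ w v)
    (h : ∀ v ∈ Y, w v ≤ w' v) (g : G) : ZZ Y w g ≤ ZZ Y w' g := by
  unfold ZZ
  refine Finset.sum_le_sum fun T hT => ?_
  rw [mem_SS] at hT
  split_ifs
  · exact Finset.prod_le_prod (fun v hv => hw v (union_subset hT.1 hT.2.1 hv))
      (fun v hv => h v (union_subset hT.1 hT.2.1 hv))
  · exact le_rfl

theorem ZZ_empty (w : G → ℝ) (g : G) : ZZ ∅ w g ≤ 1 := by
  unfold ZZ
  have : SS (∅ : Finset G) = {(∅, ∅)} := by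
    ext T
    rw [mem_SS, mem_singleton, subset_empty, subset_empty, Prod.ext_iff]
    constructor
    · rintro ⟨h1, h2, _⟩
      exact ⟨h1, h2⟩
    · rintro ⟨h1, h2⟩
      refine ⟨h1, h2, ?_⟩
      rw [h1]
      exact disjoint_empty_left _
  rw [this, sum_singleton]
  split_ifs
  · simp
  · norm_num

theorem FF_eq_ZZ {w : ℝ} (hw : 0 ≤ w) (Y : Finset G) (g : G) :
    FF (fun _ => tern (ENNReal.ofReal w)) Y dlt g = ENNReal.ofReal (ZZ Y (fun _ => w) g) := by
  rw [FF_tern_sum]
  unfold ZZ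
  rw [ENNReal.ofReal_sum_of_nonneg]
  · refine Finset.sum_congr rfl fun T hT => ?_
    rw [mem_SS] at hT
    rw [Finset.prod_const, card_union_of_disjoint hT.2.2]
    by_cases h : sg T.1 T.2 = g
    · have h' : g - sg T.1 T.2 = 0 := by rw [h, sub_self]
      rw [if_pos h, h']
      have : (dlt (0 : G) : ℝ≥0∞) = 1 := by simp [dlt]
      rw [this, mul_one, ENNReal.ofReal_pow hw]
    · have h' : ¬ g - sg T.1 T.2 = 0 := fun hh => h (sub_eq_zero.1 hh).symm
      rw [if_neg h]
      have : (dlt (g - sg T.1 T.2) : ℝ≥0∞) = 0 := by simp [dlt, h']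
      rw [this, mul_zero, ENNReal.ofReal_zero]
  · intro T _
    split_ifs
    · exact Finset.prod_nonneg fun _ _ => hw
    · exact le_rfl


omit [AddCommGroup G] [DecidableEq G] in
theorem lvl_eq {W : ℕ → Finset G} (hW : Antitone W) {v : G} {i : ℕ} (h : v ∈ W i)
    (h' : v ∉ W (i + 1)) : lvl W v = i := by
  unfold lvl
  apply le_antisymm
  · exact Nat.sInf_le h'
  · have hne : ({j | v ∉ W (j + 1)} : Set ℕ).Nonempty := ⟨i, h'⟩
    have hm := Nat.sInf_mem hne
    by_contra hlt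
    push Not at hlt
    exact hm (hW (Nat.succ_le_of_lt hlt) h)

omit [AddCommGroup G] [DecidableEq G] in
theorem le_lvl {W : ℕ → Finset G} (hW : Antitone W) (hfin : ∃ N, W N = ∅) {v : G} {i : ℕ}
    (h : v ∈ W i) : i ≤ lvl W v := by
  obtain ⟨N, hN⟩ := hfin
  have hne : ({j | v ∉ W (j + 1)} : Set ℕ).Nonempty := by
    refine ⟨N, ?_⟩
    intro hv
    have := hW (Nat.le_succ N) hv
    rw [hN] at this
    exact absurd this (notMem_empty v)
  have hm := Nat.sInf_mem hne
  by_contra hlt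
  push Not at hlt
  exact hm (hW (Nat.succ_le_of_lt hlt) h)

/-- Accumulated costs. -/
noncomputable def acc (κ : ℝ) (x : ℕ → ℝ) : ℕ → ℝ
  | 0 => 0
  | 1 => 0
  | (s + 2) => acc κ x s + κ * (-Real.log (x (s + 2)))

/-- **Pressure of a class.** All elements of `X` lie in levels of the same parity. -/
theorem class_pressure {V : Finset G} {W : ℕ → Finset G} (hV : W 0 = V) (hW : Antitone W)
    (hfin : ∃ N, W N = ∅) {E : ℕ → G → ℝ} (hEnn : ∀ i g, 0 ≤ E i g)
    (hE0 : ∀ i, 0 < E i 0) {x : ℕ → ℝ} (hx : ∀ s, 0 < x s) {κ : ℝ} (hκ : 0 ≤ κ) (hacc : ∀ s, acc κ x s ≤ 1) {w τ : ℝ}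
    (hw : 0 ≤ w) {X : Finset G} (hX : X ⊆ V) {ε : ℕ} (hε : ε < 2)
    (hpar : ∀ i, i % 2 ≠ ε → Disjoint X (W i \ W (i + 1)))
    (hshift : ∀ i, ∀ T ∈ SS (W (i + 2)),
      E i 0 * ∏ v ∈ T.1 ∪ T.2, x (lvl W v - i) ≤ E i (sg T.1 T.2))
    (hLV : ∀ i, ∀ Y ⊆ X ∩ (W i \ W (i + 1)), ∀ g : G,
      ∑ T ∈ SS Y, w ^ (T.1 ∪ T.2).card * (E i (g - sg T.1 T.2) / E i 0) ^ κ ≤
        Real.exp (τ * Y.card))
    {Y : Finset G} (hY : Y ⊆ X) :
    FF (fun _ => tern (ENNReal.ofReal (w * Real.exp (-1)))) Y dlt 0 ≤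
      ENNReal.ofReal (Real.exp (τ * Y.card)) := by
  classical
  obtain ⟨N, hN⟩ := hfin
  have hfin' : ∃ N, W N = ∅ := ⟨N, hN⟩
  set wg : ℕ → G → ℝ := fun i v => w * Real.exp (-acc κ x (lvl W v - i)) with hwg
  have hwg0 : ∀ i v, 0 ≤ wg i v := fun i v => mul_nonneg hw (Real.exp_pos _).le
  have key : ∀ n i, N ≤ i + 2 * n → i % 2 = ε → ∀ g,
      ZZ (Y ∩ W i) (wg i) g ≤ Real.exp (τ * (Y ∩ W i).card) := by
    intro n
    induction n with
    | zero =>
      intro i hi _ g
      have hWi : W i = ∅ := by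
        apply subset_empty.1
        rw [← hN]
        exact hW (by omega)
      rw [hWi, inter_empty]
      refine (ZZ_empty _ _).trans ?_
      simp
    | succ n ih =>
      intro i hi hpi g
      have hYi : Y ∩ W i = (Y ∩ (W i \ W (i + 1))) ∪ (Y ∩ W (i + 2)) := by
        ext v
        simp only [mem_union, mem_inter, mem_sdiff]
        constructor
        · rintro ⟨h1, h2⟩
          by_cases h3 : v ∈ W (i + 1)
          · right
            refine ⟨h1, ?_⟩
            by_contra h4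
            have h5 : v ∈ W (i + 1) \ W (i + 1 + 1) := mem_sdiff.2 ⟨h3, h4⟩
            exact (disjoint_left.1 (hpar (i + 1) (by omega)) (hY h1)) h5
          · left
            exact ⟨h1, h2, h3⟩
        · rintro (⟨h1, h2, h3⟩ | ⟨h1, h2⟩)
          · exact ⟨h1, h2⟩
          · exact ⟨h1, hW (by omega : i ≤ i + 2) h2⟩
      have hdis : Disjoint (Y ∩ (W i \ W (i + 1))) (Y ∩ W (i + 2)) := by
        rw [disjoint_left]
        intro v h1 h2
        have h3 := (mem_sdiff.1 (mem_inter.1 h1).2).2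
        exact h3 (hW (by omega : i + 1 ≤ i + 2) (mem_inter.1 h2).2)
      have hcard : ((Y ∩ W i).card : ℝ) =
          (Y ∩ (W i \ W (i + 1))).card + (Y ∩ W (i + 2)).card := by
        rw [hYi, card_union_of_disjoint hdis]
        push_cast
        rfl
      have hprod : ∀ T ∈ SS (Y ∩ (W i \ W (i + 1))),
          ∏ v ∈ T.1 ∪ T.2, wg i v = w ^ (T.1 ∪ T.2).card := by
        intro T hT
        rw [mem_SS] at hT
        rw [← Finset.prod_const]
        refine Finset.prod_congr rfl fun v hv => ?_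
        have h1 := mem_sdiff.1 (mem_inter.1 (union_subset hT.1 hT.2.1 hv)).2
        have h2 : lvl W v = i := lvl_eq hW h1.1 h1.2
        simp only [hwg, h2, Nat.sub_self, acc]
        simp
      have hdeep : ∀ h : G, ZZ (Y ∩ W (i + 2)) (wg i) h ≤
          (E i h / E i 0) ^ κ * ZZ (Y ∩ W (i + 2)) (wg (i + 2)) h := by
        intro h
        unfold ZZ
        rw [Finset.mul_sum]
        refine Finset.sum_le_sum fun T hT => ?_
        have hT' := mem_SS.1 hT
        by_cases hs : sg T.1 T.2 = h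
        · rw [if_pos hs, if_pos hs]
          have hsub : T.1 ∪ T.2 ⊆ W (i + 2) :=
            (union_subset hT'.1 hT'.2.1).trans inter_subset_right
          have hsh := hshift i T (mem_SS.2 ⟨hT'.1.trans inter_subset_right,
            hT'.2.1.trans inter_subset_right, hT'.2.2⟩)
          rw [hs] at hsh
          have h1 : ∏ v ∈ T.1 ∪ T.2, wg i v =
              (∏ v ∈ T.1 ∪ T.2, x (lvl W v - i)) ^ κ * ∏ v ∈ T.1 ∪ T.2, wg (i + 2) v := by
            rw [← Real.finsetProd_rpow _ _ (fun v _ => (hx _).le), ← Finset.prod_mul_distrib]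
            refine Finset.prod_congr rfl fun v hv => ?_
            have h2 : i + 2 ≤ lvl W v := le_lvl hW hfin' (hsub hv)
            obtain ⟨s, hs'⟩ := Nat.exists_eq_add_of_le h2
            have h3 : lvl W v - i = s + 2 := by omega
            have h4 : lvl W v - (i + 2) = s := by omega
            simp only [hwg, h3, h4, acc]
            rw [Real.rpow_def_of_pos (hx _)]
            have h5 : Real.exp (-(acc κ x s + κ * -Real.log (x (s + 2)))) =
                Real.exp (-acc κ x s) * Real.exp (Real.log (x (s + 2)) * κ) := by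
              rw [← Real.exp_add]
              congr 1
              ring
            rw [h5]
            ring
          rw [h1]
          refine mul_le_mul_of_nonneg_right ?_ (Finset.prod_nonneg fun v _ => hwg0 _ v)
          refine Real.rpow_le_rpow (Finset.prod_nonneg fun v _ => (hx _).le) ?_ hκ
          rw [le_div_iff₀ (hE0 i)]
          linarith
        · rw [if_neg hs, if_neg hs, mul_zero]
      have hbig := ih (i + 2) (by omega) (by omega)
      rw [hcard, hYi, ZZ_union hdis]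
      have hEz : ∀ h : G, ZZ (Y ∩ W (i + 2)) (wg i) h ≤
            (E i h / E i 0) ^ κ * Real.exp (τ * (Y ∩ W (i + 2)).card) := fun h =>
        (hdeep h).trans (mul_le_mul_of_nonneg_left (hbig h)
          (Real.rpow_nonneg (div_nonneg (hEnn i h) (hE0 i).le) κ))
      calc ∑ T ∈ SS (Y ∩ (W i \ W (i + 1))), (∏ v ∈ T.1 ∪ T.2, wg i v) *
            ZZ (Y ∩ W (i + 2)) (wg i) (g - sg T.1 T.2)
          ≤ ∑ T ∈ SS (Y ∩ (W i \ W (i + 1))), w ^ (T.1 ∪ T.2).card *
            ((E i (g - sg T.1 T.2) / E i 0) ^ κ *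
              Real.exp (τ * (Y ∩ W (i + 2)).card)) := by
            refine Finset.sum_le_sum fun T hT => ?_
            rw [hprod T hT]
            exact mul_le_mul_of_nonneg_left (hEz _) (pow_nonneg hw _)
        _ = (∑ T ∈ SS (Y ∩ (W i \ W (i + 1))), w ^ (T.1 ∪ T.2).card *
            (E i (g - sg T.1 T.2) / E i 0) ^ κ) * Real.exp (τ * (Y ∩ W (i + 2)).card) := by
            rw [Finset.sum_mul]
            refine Finset.sum_congr rfl fun T _ => ?_
            ring
        _ ≤ Real.exp (τ * (Y ∩ (W i \ W (i + 1))).card) *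
            Real.exp (τ * (Y ∩ W (i + 2)).card) := by
            refine mul_le_mul_of_nonneg_right (hLV i _ ?_ g) (Real.exp_pos _).le
            exact inter_subset_inter hY (Subset.refl _)
        _ = Real.exp (τ * ((Y ∩ (W i \ W (i + 1))).card + (Y ∩ W (i + 2)).card)) := by
            rw [← Real.exp_add]
            congr 1
            ring
  have hYε : Y ∩ W ε = Y := by
    rw [inter_eq_left]
    intro v hv
    have h0 : v ∈ W 0 := by rw [hV]; exact hX (hY hv)
    interval_cases ε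
    · exact h0
    · by_contra h1
      exact (disjoint_left.1 (hpar 0 (by norm_num)) (hY hv)) (mem_sdiff.2 ⟨h0, h1⟩)
  have hfinal := key N ε (by omega) (Nat.mod_eq_of_lt hε) 0
  rw [hYε] at hfinal
  rw [FF_eq_ZZ (mul_nonneg hw (Real.exp_pos _).le)]
  refine ENNReal.ofReal_le_ofReal ?_
  refine (ZZ_mono (fun v _ => mul_nonneg hw (Real.exp_pos _).le) (fun v hv => ?_) 0).trans hfinal
  simp only [hwg]
  refine mul_le_mul_of_nonneg_left ?_ hw
  rw [Real.exp_le_exp]
  exact neg_le_neg (hacc _)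

end Pool.Agent.RR
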