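import Pool.Agent.RR.TowDefs

/-!
Theorem R, part I: elementary facts on the entropy of unnormalised measures.
-/

set_option autoImplicit false
set_option linter.unusedSectionVars false

namespace Pool.Agent.RR

open Finset

variable {α : Type*} [Fintype α] [DecidableEq α]

theorem le_mass {m : Finset α → ℝ} (hm : ∀ A, 0 ≤ m A) (A : Finset α) : m A ≤ mass m :=
  Finset.single_le_sum (f := m) (fun B _ => hm B) (mem_univ A)

theorem ent_le {m : Finset α → ℝ} (hm : ∀ A, 0 ≤ m A) :
    ent m ≤ Fintype.card (Finset α) * mass m := by
  unfold ent
  rw [← nsmul_eq_mul, ← Finset.card_univ]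
  refine Finset.sum_le_card_nsmul _ _ _ fun A _ => ?_
  rcases (hm A).eq_or_lt with h | h
  · rw [← h, zero_mul]
    exact Finset.sum_nonneg fun A _ => hm A
  · have hM : 0 < mass m := h.trans_le (le_mass hm A)
    have h1 := Real.log_le_sub_one_of_pos (div_pos hM h)
    have h2 : m A * (mass m / m A - 1) = mass m - m A := by field_simp
    have h3 := mul_le_mul_of_nonneg_left h1 h.le
    linarith

theorem mass_split (m : Finset α → ℝ) (v : α) :
    mass (fun A => if v ∈ A then m A else 0) + mass (fun A => if v ∈ A then 0 else m A) =
      mass m := by
  unfold mass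
  rw [← Finset.sum_add_distrib]
  exact Finset.sum_congr rfl fun A _ => by split_ifs <;> simp

theorem ent_ask {m : Finset α → ℝ} (hm : ∀ A, 0 ≤ m A) (v : α) {L : ℝ} (_hL : 0 ≤ L) :
    ent m - (ent (fun A => if v ∈ A then m A else 0) + ent (fun A => if v ∈ A then 0 else m A)) ≤
      L * mass (fun A => if v ∈ A then m A else 0) + Real.exp (-L) * mass m := by
  set my : Finset α → ℝ := fun A => if v ∈ A then m A else 0 with hmy
  set mn : Finset α → ℝ := fun A => if v ∈ A then 0 else m A with hmn
  have hmy0 : ∀ A, 0 ≤ my A := fun A => by
    simp only [hmy]
    split_ifs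
    · exact hm A
    · exact le_refl _
  have hmn0 : ∀ A, 0 ≤ mn A := fun A => by
    simp only [hmn]
    split_ifs
    · exact le_refl _
    · exact hm A
  have hM := mass_split m v
  rw [← hmy, ← hmn] at hM
  have hY0 : 0 ≤ mass my := Finset.sum_nonneg fun A _ => hmy0 A
  have hN0 : 0 ≤ mass mn := Finset.sum_nonneg fun A _ => hmn0 A
  have key : ent m - (ent my + ent mn) =
      mass my * Real.log (mass m / mass my) + mass mn * Real.log (mass m / mass mn) := by
    have e1 : ∀ A, m A * Real.log (mass m / m A) -
        (my A * Real.log (mass my / my A) + mn A * Real.log (mass mn / mn A)) =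
        my A * Real.log (mass m / mass my) + mn A * Real.log (mass m / mass mn) := by
      intro A
      rcases (hm A).eq_or_lt with h | h
      · have h1 : my A = 0 := by simp only [hmy]; rw [← h]; simp
        have h2 : mn A = 0 := by simp only [hmn]; rw [← h]; simp
        rw [h1, h2, ← h]
        simp
      · have hMp : 0 < mass m := h.trans_le (le_mass hm A)
        by_cases hv : v ∈ A
        · have h1 : my A = m A := by simp only [hmy]; rw [if_pos hv]
          have h2 : mn A = 0 := by simp only [hmn]; rw [if_pos hv]
          have hYp : 0 < mass my := by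
            have := le_mass hmy0 A
            rw [h1] at this
            linarith
          rw [h1, h2, Real.log_div hMp.ne' h.ne', Real.log_div hYp.ne' h.ne',
            Real.log_div hMp.ne' hYp.ne']
          ring
        · have h1 : my A = 0 := by simp only [hmy]; rw [if_neg hv]
          have h2 : mn A = m A := by simp only [hmn]; rw [if_neg hv]
          have hNp : 0 < mass mn := by
            have := le_mass hmn0 A
            rw [h2] at this
            linarith
          rw [h1, h2, Real.log_div hMp.ne' h.ne', Real.log_div hNp.ne' h.ne',
            Real.log_div hMp.ne' hNp.ne']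
          ring
    have e2 : ent m - (ent my + ent mn) = ∑ A, (m A * Real.log (mass m / m A) -
        (my A * Real.log (mass my / my A) + mn A * Real.log (mass mn / mn A))) := by
      unfold ent
      rw [Finset.sum_sub_distrib, Finset.sum_add_distrib]
    rw [e2, Finset.sum_congr rfl fun A _ => e1 A, Finset.sum_add_distrib, ← Finset.sum_mul,
      ← Finset.sum_mul]
    rfl
  rw [key]
  have hMn : 0 ≤ mass m := by linarith
  have h1 : mass my * Real.log (mass m / mass my) ≤
      L * mass my + Real.exp (-L) * mass m - mass my := by
    rcases hY0.eq_or_lt with h | h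
    · rw [← h]
      have := mul_nonneg (Real.exp_pos (-L)).le hMn
      simpa using this
    · have hMp : 0 < mass m := by linarith
      have h2 := Real.log_le_sub_one_of_pos (x := Real.exp (-L) * mass m / mass my) (by positivity)
      rw [mul_div_assoc, Real.log_mul (Real.exp_pos _).ne' (by positivity), Real.log_exp] at h2
      have h3 := mul_le_mul_of_nonneg_left h2 h.le
      have h4 : mass my * (Real.exp (-L) * (mass m / mass my) - 1) =
          Real.exp (-L) * mass m - mass my := by field_simp
      nlinarith
  have h2 : mass mn * Real.log (mass m / mass mn) ≤ mass m - mass mn := by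
    rcases hN0.eq_or_lt with h | h
    · rw [← h]
      simpa using hMn
    · have hMp : 0 < mass m := by linarith
      have h2 := Real.log_le_sub_one_of_pos (x := mass m / mass mn) (by positivity)
      have h3 := mul_le_mul_of_nonneg_left h2 h.le
      have h4 : mass mn * (mass m / mass mn - 1) = mass m - mass mn := by field_simp
      linarith
  linarith

end Pool.Agent.RR
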