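import Pool.Agent.RR.RoundsU
import Pool.Agent.S12.SidonThm

/-!
Sidon sets of characters; uniform form.
-/

set_option autoImplicit false

universe u₀

namespace Pool.Agent.RR

open Finset Pool.Agent.Helper72.Sidon

theorem uniform_sidon (C : ℝ) :
    ∃ K : ℕ, ∀ (G : Type u₀) [CommGroup G] [TopologicalSpace G] (Λ : Set (PontryaginDual G)),
      1 ∉ Λ → IsSidonWith C Λ → ∀ m n : ℕ, 1 ≤ m → n ≤ (fun j : ℕ => 2 ^ j)^[m] 1 →
        ∃ E : Fin (2 ^ (K * m) ^ m) → Set (PontryaginDual G), Λ = ⋃ i, E i ∧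
          ∀ (i : Fin (2 ^ (K * m) ^ m)) (B : Finset (PontryaginDual G)),
            (B : Set (PontryaginDual G)) ⊆ E i → B.card ≤ n →
              QuasiIndependent (B : Set (PontryaginDual G)) := by
  classical
  obtain ⟨c, hc, hsid⟩ := Pool.Agent.S12.sidon_prop.{u₀} C
  obtain ⟨K, hK⟩ := uniform_group.{u₀} c hc
  refine ⟨K, fun G _ _ Λ h1 hS m n hm hn => ?_⟩
  set W : Set (Additive (PontryaginDual G)) := {x | x.toMul ∈ Λ} with hW
  obtain ⟨col, hcol⟩ := hK (Additive (PontryaginDual G)) W (by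
    intro B hB
    obtain ⟨D, hDB, hD, hcard⟩ := hsid G Λ h1 hS B fun b hb => hB hb
    exact ⟨D, hDB, hD, hcard⟩) m n hm hn
  refine ⟨fun i => {γ | γ ∈ Λ ∧ col (Additive.ofMul γ) = i}, ?_, ?_⟩
  · ext γ
    rw [Set.mem_iUnion]
    exact ⟨fun h => ⟨_, h, rfl⟩, fun ⟨_, h, _⟩ => h⟩
  intro i B hB hn
  set B' : Finset (Additive (PontryaginDual G)) := B.map Additive.ofMul.toEmbedding with hB'
  have hcard : B'.card = B.card := card_map _
  have ha := hcol B' (by
    intro x hx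
    rw [mem_coe, hB', mem_map] at hx
    obtain ⟨g, hg, rfl⟩ := hx
    exact (hB hg).1) (by rw [hcard]; exact hn) (by
    intro x hx y hy
    rw [hB', mem_map] at hx hy
    obtain ⟨g, hg, rfl⟩ := hx
    obtain ⟨g', hg', rfl⟩ := hy
    exact (hB hg).2.trans (hB hg').2.symm)
  refine Pool.Agent.S12.quasi_of_dis (D := B') ?_ ha
  intro g hg
  rw [hB', mem_map]
  exact ⟨g, hg, rfl⟩

end Pool.Agent.RR
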