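import Pool.Agent.RR.Chan

/-!
# The ternary gas over real numbers

Sites `V` with elements `x v`; ternary weights `wt p`; reference weights `rf p η` (the digits `2` and
`-2` have the weight `η`); everything else `U`.  The vacuum law `g0` satisfies the two exponential
inequalities used for the hints.
-/

set_option autoImplicit false
set_option linter.unusedSectionVars false

namespace Pool.Agent.RR

open Finset Real

/-- Ternary weights. -/
noncomputable def wt (p : ℝ) (d : ℤ) : ℝ := if d = 0 then 1 else if d = 1 ∨ d = -1 then p else 0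

/-- Reference weights. -/
noncomputable def rf (p η : ℝ) (d : ℤ) : ℝ :=
  if d = 0 then 1 else if d = 1 ∨ d = -1 then p else if d = 2 ∨ d = -2 then η else 0

theorem wt_nonneg {p : ℝ} (hp : 0 < p) (d : ℤ) : 0 ≤ wt p d := by
  unfold wt
  split_ifs <;> positivity

theorem wt_pos {p : ℝ} (hp : 0 < p) {d : ℤ} (hd : -1 ≤ d ∧ d ≤ 1) : 0 < wt p d := by
  unfold wt
  split_ifs with h1 h2
  · exact one_pos
  · exact hp
  · exfalso
    omega

theorem wt_eq_zero {p : ℝ} {d : ℤ} (hd : ¬ (-1 ≤ d ∧ d ≤ 1)) : wt p d = 0 := by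
  unfold wt
  rw [if_neg (by omega), if_neg (by omega)]

theorem rf_pos {p η : ℝ} (hp : 0 < p) (hη : 0 < η) {d : ℤ} (hd : -2 ≤ d ∧ d ≤ 2) :
    0 < rf p η d := by
  unfold rf
  split_ifs with h1 h2 h3
  · exact one_pos
  · exact hp
  · exact hη
  · exfalso
    omega

theorem rf_nonneg {p η : ℝ} (hp : 0 < p) (hη : 0 < η) (d : ℤ) : 0 ≤ rf p η d := by
  unfold rf
  split_ifs <;> positivity

theorem rf_eq_wt {p η : ℝ} {d : ℤ} (hd : -1 ≤ d ∧ d ≤ 1) : rf p η d = wt p d := by
  unfold rf wt
  split_ifs with h1 h2 h3 <;> first | rfl | (exfalso; omega)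

theorem rf_sub_wt {p η : ℝ} (d : ℤ) :
    rf p η d = wt p d + ((if d = 2 then η else 0) + if d = -2 then η else 0) := by
  unfold rf wt
  split_ifs <;> first | omega | ring

theorem wt_neg (p : ℝ) (d : ℤ) : wt p (-d) = wt p d := by
  unfold wt
  have h1 : -d = 0 ↔ d = 0 := by omega
  have h2 : (-d = 1 ∨ -d = -1) ↔ (d = 1 ∨ d = -1) := by omega
  rw [if_congr h1 rfl (if_congr h2 rfl rfl)]

/-- The data of one level. -/
structure Gs (V G : Type*) where
  x : V → G
  p : ℝ
  η : ℝ
  U : G → ℝ

namespace Gs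

variable {V G : Type*} [Fintype V] [DecidableEq V] [AddCommGroup G] (P : Gs V G)

/-- The sum of a configuration. -/
def s (c : V → ℤ) : G := ∑ v, c v • P.x v

/-- The weight of a configuration. -/
noncomputable def wc (c : V → ℤ) : ℝ := ∏ v, wt P.p (c v)

/-- The gas. -/
noncomputable def W (g : G) : ℝ := ∑ c ∈ bx V 1, P.wc c * P.U (g - P.s c)

/-- The vacuum law. -/
noncomputable def g0 (c : V → ℤ) : ℝ := P.wc c * P.U (- P.s c) / P.W 0

/-- Logarithms of the reference weights. -/
noncomputable def rho (d : ℤ) : ℝ := log (rf P.p P.η d)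

/-- The weights with the digit `2` at the sites in `T`. -/
noncomputable def wr (T : Finset V) (z : V → ℤ) : ℝ :=
  ∏ v, if v ∈ T then rf P.p P.η (z v) else wt P.p (z v)

/-- The gas with the digit `2` at the sites in `T`. -/
noncomputable def WK (T : Finset V) (h : G) : ℝ := ∑ z ∈ bx V 2, P.wr T z * P.U (h - P.s z)

/-- The hypotheses on a level. -/
structure Ok : Prop where
  p0 : 0 < P.p
  p1 : P.p ≤ 1
  η0 : 0 < P.η
  η1 : P.η ≤ P.p
  U0 : ∀ g, 0 ≤ P.U g
  Ueven : ∀ g, P.U (-g) = P.U g
  Z0 : 0 < P.W 0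
  pd : ∀ g, P.W g ≤ P.W 0

variable {P}

theorem wc_nonneg (h : P.Ok) (c : V → ℤ) : 0 ≤ P.wc c :=
  Finset.prod_nonneg fun _ _ => wt_nonneg h.p0 _

theorem wc_pos (h : P.Ok) {c : V → ℤ} (hc : c ∈ bx V 1) : 0 < P.wc c :=
  Finset.prod_pos fun v _ => wt_pos h.p0 (by
    have := mem_bx.1 hc v
    simpa using this)

theorem wc_eq_zero {c : V → ℤ} (hc : c ∉ bx V 1) : P.wc c = 0 := by
  rw [mem_bx] at hc
  push Not at hc
  obtain ⟨v, hv⟩ := hc
  refine Finset.prod_eq_zero (Finset.mem_univ v) (wt_eq_zero ?_)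
  rintro ⟨h1, h2⟩
  have := hv (by simpa using h1)
  simp at this
  omega

theorem wc_neg (c : V → ℤ) : P.wc (-c) = P.wc c :=
  Finset.prod_congr rfl fun v _ => wt_neg _ _

theorem g0_nonneg (h : P.Ok) (c : V → ℤ) : 0 ≤ P.g0 c :=
  div_nonneg (mul_nonneg (wc_nonneg h c) (h.U0 _)) h.Z0.le

theorem g0_eq_zero {c : V → ℤ} (hc : c ∉ bx V 1) : P.g0 c = 0 := by
  unfold g0
  rw [wc_eq_zero hc, zero_mul, zero_div]

theorem g0_sum (h : P.Ok) : ∑ c ∈ bx V 1, P.g0 c = 1 := by
  unfold g0
  rw [← Finset.sum_div]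
  have h1 : ∑ c ∈ bx V 1, P.wc c * P.U (- P.s c) = P.W 0 := by
    unfold W
    refine Finset.sum_congr rfl fun c _ => ?_
    rw [zero_sub]
  rw [h1, div_self h.Z0.ne']

/-- The vacuum law is a law of noise. -/
theorem noi (h : P.Ok) : Noi P.g0 := ⟨g0_nonneg h, fun _ hc => g0_eq_zero hc, g0_sum h⟩

theorem g0_U_pos (h : P.Ok) {c : V → ℤ} (hc : P.g0 c ≠ 0) : 0 < P.U (- P.s c) := by
  rcases eq_or_lt_of_le (h.U0 (- P.s c)) with h1 | h1
  · exfalso
    apply hc
    unfold g0
    rw [← h1, mul_zero, zero_div]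
  · exact h1

theorem s_add (c c' : V → ℤ) : P.s (c + c') = P.s c + P.s c' := by
  unfold s
  rw [← Finset.sum_add_distrib]
  exact Finset.sum_congr rfl fun v _ => by rw [Pi.add_apply, add_smul]

theorem s_neg (c : V → ℤ) : P.s (-c) = - P.s c := by
  unfold s
  rw [← Finset.sum_neg_distrib]
  exact Finset.sum_congr rfl fun v _ => by rw [Pi.neg_apply, neg_smul]

theorem s_sub (c c' : V → ℤ) : P.s (c - c') = P.s c - P.s c' := by
  rw [sub_eq_add_neg, s_add, s_neg, sub_eq_add_neg]

theorem g0_neg (h : P.Ok) (c : V → ℤ) : P.g0 (-c) = P.g0 c := by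
  unfold g0
  rw [wc_neg, s_neg, h.Ueven]

theorem W_neg (h : P.Ok) (g : G) : P.W (-g) = P.W g := by
  unfold W
  refine Finset.sum_bij' (fun c _ => -c) (fun c _ => -c) ?_ ?_ ?_ ?_ ?_
  · intro c hc
    rw [mem_bx] at *
    intro v
    have := hc v
    rw [Pi.neg_apply]
    omega
  · intro c hc
    rw [mem_bx] at *
    intro v
    have := hc v
    rw [Pi.neg_apply]
    omega
  · intro c _
    exact neg_neg c
  · intro c _
    exact neg_neg c
  · intro c _
    rw [wc_neg, s_neg, ← h.Ueven]
    congr 2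
    abel

/-! ### The reference weights with the digit `2` -/

theorem wr_nonneg (h : P.Ok) (T : Finset V) (z : V → ℤ) : 0 ≤ P.wr T z := by
  refine Finset.prod_nonneg fun v _ => ?_
  split_ifs
  · exact rf_nonneg h.p0 h.η0 _
  · exact wt_nonneg h.p0 _

theorem bx_mono : bx V 1 ⊆ bx V 2 := by
  intro c hc
  rw [mem_bx] at *
  intro v
  have := hc v
  push_cast at *
  omega

theorem WK_empty (g : G) : P.WK ∅ g = P.W g := by
  unfold WK W
  symm
  have h1 : ∀ z : V → ℤ, P.wr ∅ z = P.wc z := fun z => by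
    unfold wr wc
    simp
  simp only [h1]
  refine Finset.sum_subset bx_mono fun c _ hc => ?_
  rw [wc_eq_zero hc, zero_mul]

/-- The part of the sum with a digit `t` at the site `u`. -/
theorem WK_part (h : P.Ok) (T : Finset V) {u : V} (hu : u ∉ T) (g : G) (t : ℤ)
    (ht : t = 2 ∨ t = -2) :
    ∑ z ∈ bx V 2, (∏ v ∈ Finset.univ.erase u, if v ∈ T then rf P.p P.η (z v) else wt P.p (z v)) *
      (if z u = t then P.η else 0) * P.U (g - P.s z) ≤ P.η * P.WK T (g - t • P.x u) := by
  have h1 : ∑ z ∈ bx V 2, (∏ v ∈ Finset.univ.erase u,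
      if v ∈ T then rf P.p P.η (z v) else wt P.p (z v)) * (if z u = t then P.η else 0) *
        P.U (g - P.s z) = P.η * ∑ z ∈ (bx V 2).filter (fun z => z u = t),
        (∏ v ∈ Finset.univ.erase u, if v ∈ T then rf P.p P.η (z v) else wt P.p (z v)) *
          P.U (g - P.s z) := by
    rw [Finset.sum_filter, Finset.mul_sum]
    refine Finset.sum_congr rfl fun z _ => ?_
    by_cases hz : z u = t
    · rw [if_pos hz, if_pos hz]
      ring
    · rw [if_neg hz, if_neg hz]
      ring
  rw [h1]
  refine mul_le_mul_of_nonneg_left ?_ h.η0.le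
  have h2 : ∑ z ∈ (bx V 2).filter (fun z => z u = t),
      (∏ v ∈ Finset.univ.erase u, if v ∈ T then rf P.p P.η (z v) else wt P.p (z v)) *
          P.U (g - P.s z) =
      ∑ z ∈ (bx V 2).filter (fun z => z u = 0), P.wr T z * P.U (g - t • P.x u - P.s z) := by
    refine Finset.sum_bij' (fun z _ => Function.update z u 0) (fun z _ => Function.update z u t)
      ?_ ?_ ?_ ?_ ?_
    · intro z hz
      rw [Finset.mem_filter] at hz ⊢
      refine ⟨?_, Function.update_self _ _ _⟩
      rw [mem_bx] at hz ⊢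
      intro v
      by_cases hv : v = u
      · subst hv
        rw [Function.update_self]
        norm_num
      · rw [Function.update_of_ne hv]
        exact hz.1 v
    · intro z hz
      rw [Finset.mem_filter] at hz ⊢
      refine ⟨?_, Function.update_self _ _ _⟩
      rw [mem_bx] at hz ⊢
      intro v
      by_cases hv : v = u
      · subst hv
        rw [Function.update_self]
        push_cast
        omega
      · rw [Function.update_of_ne hv]
        exact hz.1 v
    · intro z hz
      rw [Finset.mem_filter] at hz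
      show Function.update (Function.update z u 0) u t = z
      rw [Function.update_idem, ← hz.2, Function.update_eq_self]
    · intro z hz
      rw [Finset.mem_filter] at hz
      show Function.update (Function.update z u t) u 0 = z
      rw [Function.update_idem, ← hz.2, Function.update_eq_self]
    · intro z hz
      rw [Finset.mem_filter] at hz
      have h3 : P.wr T (Function.update z u 0) =
          ∏ v ∈ Finset.univ.erase u, if v ∈ T then rf P.p P.η (z v) else wt P.p (z v) := by
        unfold wr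
        rw [← Finset.mul_prod_erase Finset.univ _ (Finset.mem_univ u), if_neg hu,
          Function.update_self]
        have h4 : wt P.p 0 = 1 := by
          unfold wt
          rw [if_pos rfl]
        rw [h4, one_mul]
        refine Finset.prod_congr rfl fun v hv => ?_
        rw [Function.update_of_ne (Finset.ne_of_mem_erase hv)]
      have h4 : P.s z = t • P.x u + P.s (Function.update z u 0) := by
        unfold s
        rw [← Finset.add_sum_erase Finset.univ _ (Finset.mem_univ u),
          ← Finset.add_sum_erase Finset.univ (fun v => Function.update z u 0 v • P.x v)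
            (Finset.mem_univ u), Function.update_self, zero_smul, zero_add, hz.2]
        congr 1
        refine Finset.sum_congr rfl fun v hv => ?_
        rw [Function.update_of_ne (Finset.ne_of_mem_erase hv)]
      rw [h3, h4]
      congr 2
      abel
  rw [h2]
  exact Finset.sum_le_sum_of_subset_of_nonneg (Finset.filter_subset _ _) fun z _ _ =>
    mul_nonneg (wr_nonneg h T z) (h.U0 _)

theorem WK_insert (h : P.Ok) (T : Finset V) {u : V} (hu : u ∉ T) (g : G) :
    P.WK (insert u T) g ≤ P.WK T g + P.η * (P.WK T (g - (2 : ℤ) • P.x u) +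
      P.WK T (g - (-2 : ℤ) • P.x u)) := by
  have h1 := WK_part h T hu g 2 (Or.inl rfl)
  have h2 := WK_part h T hu g (-2) (Or.inr rfl)
  have h3 : P.WK (insert u T) g = P.WK T g +
      (∑ z ∈ bx V 2, (∏ v ∈ Finset.univ.erase u, if v ∈ T then rf P.p P.η (z v)
        else wt P.p (z v)) * (if z u = 2 then P.η else 0) * P.U (g - P.s z) +
      ∑ z ∈ bx V 2, (∏ v ∈ Finset.univ.erase u, if v ∈ T then rf P.p P.η (z v)
        else wt P.p (z v)) * (if z u = -2 then P.η else 0) * P.U (g - P.s z)) := by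
    unfold WK
    rw [← Finset.sum_add_distrib, ← Finset.sum_add_distrib]
    refine Finset.sum_congr rfl fun z _ => ?_
    have h4 : P.wr (insert u T) z = (∏ v ∈ Finset.univ.erase u, if v ∈ T then rf P.p P.η (z v)
        else wt P.p (z v)) * rf P.p P.η (z u) := by
      unfold wr
      rw [← Finset.prod_erase_mul Finset.univ _ (Finset.mem_univ u),
        if_pos (Finset.mem_insert_self _ _)]
      congr 1
      refine Finset.prod_congr rfl fun v hv => ?_
      have hv' := Finset.ne_of_mem_erase hv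
      simp only [Finset.mem_insert, hv', false_or]
    have h5 : P.wr T z = (∏ v ∈ Finset.univ.erase u, if v ∈ T then rf P.p P.η (z v)
        else wt P.p (z v)) * wt P.p (z u) := by
      unfold wr
      rw [← Finset.prod_erase_mul Finset.univ _ (Finset.mem_univ u), if_neg hu]
    rw [h4, h5, rf_sub_wt]
    ring
  rw [h3]
  linarith

/-- The gas with the digit `2` at `n` sites is at most the gas plus `((1 + 2 η)^n - 1)` times its
value at zero. -/
theorem WK_le (h : P.Ok) (T : Finset V) : ∀ g : G,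
    P.WK T g ≤ P.W g + ((1 + 2 * P.η) ^ T.card - 1) * P.W 0 := by
  induction T using Finset.induction_on with
  | empty =>
    intro g
    rw [WK_empty]
    simp
  | insert u T hu ih =>
    intro g
    have h1 := WK_insert h T hu g
    have h2 : ∀ g, P.WK T g ≤ (1 + 2 * P.η) ^ T.card * P.W 0 := by
      intro g
      have h3 := ih g
      have h4 := h.pd g
      nlinarith
    have h5 := ih g
    have h6 := h2 (g - (2 : ℤ) • P.x u)
    have h7 := h2 (g - (-2 : ℤ) • P.x u)
    rw [Finset.card_insert_of_notMem hu, pow_succ]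
    have h8 : P.η * (P.WK T (g - (2 : ℤ) • P.x u) + P.WK T (g - (-2 : ℤ) • P.x u)) ≤
        P.η * ((1 + 2 * P.η) ^ T.card * P.W 0 + (1 + 2 * P.η) ^ T.card * P.W 0) :=
      mul_le_mul_of_nonneg_left (add_le_add h6 h7) h.η0.le
    nlinarith

theorem WK_le' (h : P.Ok) (T : Finset V) (g : G) :
    P.WK T g ≤ (1 + 2 * P.η) ^ T.card * P.W 0 := by
  have h3 := WK_le h T g
  have h4 := h.pd g
  nlinarith

/-! ### The two exponential inequalities -/

section lab

variable {α : Type*} [Fintype α] [DecidableEq α] {L : Lab α V}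

/-- The product over the labels of a proper set. -/
theorem g0_mul_exp (h : P.Ok) {K : Finset α} (hK : L.Pr K) {c : V → ℤ} (hc : c ∈ bx V 1) :
    P.g0 c * exp (∑ a ∈ K, (P.rho (c (L.st a) - L.sg a) - P.rho (c (L.st a)))) =
      P.wr (K.image L.st) (c - L.dg K) * P.U (- P.s c) / P.W 0 := by
  have h1 : ∀ v, -1 ≤ c v ∧ c v ≤ 1 := fun v => by
    have := mem_bx.1 hc v
    simpa using this
  have h2 : exp (∑ a ∈ K, (P.rho (c (L.st a) - L.sg a) - P.rho (c (L.st a)))) =
      ∏ v ∈ K.image L.st, (rf P.p P.η (c v - L.dg K v) / wt P.p (c v)) := by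
    rw [Real.exp_sum, Finset.prod_image (fun a ha a' ha' e => hK a ha a' ha' e)]
    refine Finset.prod_congr rfl fun a ha => ?_
    rw [L.dg_mem hK ha]
    have h3 : 0 < rf P.p P.η (c (L.st a) - L.sg a) := by
      apply rf_pos h.p0 h.η0
      have := h1 (L.st a)
      rcases L.sg1 a with h4 | h4 <;> rw [h4] <;> omega
    have h5 : 0 < rf P.p P.η (c (L.st a)) := by
      apply rf_pos h.p0 h.η0
      have := h1 (L.st a)
      omega
    unfold rho
    rw [← Real.log_div h3.ne' h5.ne', Real.exp_log (div_pos h3 h5), rf_eq_wt (h1 _)]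
  have h6 : P.wr (K.image L.st) (c - L.dg K) =
      P.wc c * ∏ v ∈ K.image L.st, (rf P.p P.η (c v - L.dg K v) / wt P.p (c v)) := by
    have h7 : ∏ v ∈ K.image L.st, (rf P.p P.η (c v - L.dg K v) / wt P.p (c v)) =
        ∏ v, if v ∈ K.image L.st then rf P.p P.η (c v - L.dg K v) / wt P.p (c v) else 1 := by
      rw [Finset.prod_ite_mem, Finset.univ_inter]
    rw [h7]
    unfold wr wc
    rw [← Finset.prod_mul_distrib]
    refine Finset.prod_congr rfl fun v _ => ?_
    have h8 := (wt_pos h.p0 (h1 v)).ne'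
    by_cases hv : v ∈ K.image L.st
    · rw [if_pos hv, if_pos hv, Pi.sub_apply]
      field_simp
    · rw [if_neg hv, if_neg hv, mul_one, Pi.sub_apply, L.dg_not, sub_zero]
      intro a ha e
      exact hv (Finset.mem_image.2 ⟨a, ha, e⟩)
  rw [h2, h6]
  unfold g0
  ring

/-- (HK): the sum over all configurations. -/
theorem exp_le (h : P.Ok) {K : Finset α} (hK : L.Pr K) :
    ∑ c ∈ bx V 1, P.g0 c * exp (∑ a ∈ K, (P.rho (c (L.st a) - L.sg a) - P.rho (c (L.st a)))) ≤
      P.W (P.s (L.dg K)) / P.W 0 + ((1 + 2 * P.η) ^ K.card - 1) := by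
  have h1 : ∑ c ∈ bx V 1, P.g0 c * exp (∑ a ∈ K, (P.rho (c (L.st a) - L.sg a) -
      P.rho (c (L.st a)))) ≤ P.WK (K.image L.st) (- P.s (L.dg K)) / P.W 0 := by
    rw [Finset.sum_congr rfl fun c hc => g0_mul_exp h hK hc, ← Finset.sum_div]
    refine div_le_div_of_nonneg_right ?_ h.Z0.le
    unfold WK
    have h2 : ∑ c ∈ bx V 1, P.wr (K.image L.st) (c - L.dg K) * P.U (- P.s c) =
        ∑ z ∈ (bx V 1).image (fun c => c - L.dg K),
          P.wr (K.image L.st) z * P.U (- P.s (L.dg K) - P.s z) := by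
      rw [Finset.sum_image (fun c _ c' _ e => sub_left_injective e)]
      refine Finset.sum_congr rfl fun c _ => ?_
      congr 2
      rw [s_sub]
      abel
    rw [h2]
    refine Finset.sum_le_sum_of_subset_of_nonneg ?_ fun z _ _ =>
      mul_nonneg (wr_nonneg h _ z) (h.U0 _)
    intro z hz
    obtain ⟨c, hc, rfl⟩ := Finset.mem_image.1 hz
    have h3 := L.dg_bx hK
    rw [mem_bx] at *
    intro v
    have h4 := hc v
    have h5 := h3 v
    rw [Pi.sub_apply]
    push_cast at *
    omega
  refine h1.trans ?_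
  have h2 := WK_le h (K.image L.st) (- P.s (L.dg K))
  have h3 : (K.image L.st).card = K.card :=
    Finset.card_image_of_injOn fun a ha a' ha' e => hK a ha a' ha' e
  rw [h3, W_neg h] at h2
  rw [div_add' _ _ _ h.Z0.ne']
  exact div_le_div_of_nonneg_right h2 h.Z0.le

/-- (HX): the sum over the configurations which stay ternary. -/
theorem exp_le_one (h : P.Ok) {K : Finset α} (hK : L.Pr K) :
    ∑ c ∈ (bx V 1).filter (fun c => c - L.dg K ∈ bx V 1), P.g0 c *
      exp (∑ a ∈ K, (P.rho (c (L.st a) - L.sg a) - P.rho (c (L.st a)))) ≤ 1 := by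
  have h1 : ∀ c ∈ (bx V 1).filter (fun c => c - L.dg K ∈ bx V 1), P.g0 c *
      exp (∑ a ∈ K, (P.rho (c (L.st a) - L.sg a) - P.rho (c (L.st a)))) =
      P.wc (c - L.dg K) * P.U (- P.s (L.dg K) - P.s (c - L.dg K)) / P.W 0 := by
    intro c hc
    rw [Finset.mem_filter] at hc
    rw [g0_mul_exp h hK hc.1]
    congr 2
    · unfold wr wc
      refine Finset.prod_congr rfl fun v _ => ?_
      have h2 := mem_bx.1 hc.2 v
      split_ifs
      · exact rf_eq_wt (by simpa using h2)
      · rfl
    · congr 1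
      rw [s_sub]
      abel
  rw [Finset.sum_congr rfl h1, ← Finset.sum_div, div_le_one h.Z0]
  refine le_trans ?_ (h.pd (- P.s (L.dg K)))
  unfold W
  have h2 : ∑ c ∈ (bx V 1).filter (fun c => c - L.dg K ∈ bx V 1),
      P.wc (c - L.dg K) * P.U (- P.s (L.dg K) - P.s (c - L.dg K)) =
      ∑ z ∈ ((bx V 1).filter (fun c => c - L.dg K ∈ bx V 1)).image (fun c => c - L.dg K),
        P.wc z * P.U (- P.s (L.dg K) - P.s z) := by
    rw [Finset.sum_image (fun c _ c' _ e => sub_left_injective e)]
  rw [h2]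
  refine Finset.sum_le_sum_of_subset_of_nonneg ?_ fun z _ _ =>
    mul_nonneg (wc_nonneg h z) (h.U0 _)
  intro z hz
  obtain ⟨c, hc, rfl⟩ := Finset.mem_image.1 hz
  exact (Finset.mem_filter.1 hc).2

end lab

end Gs

end Pool.Agent.RR
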