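import Pool.Agent.RR.Ent

/-!
Theorem R, part I: abstract tower.  Proofs.
-/

set_option autoImplicit false
set_option linter.unusedSectionVars false

namespace Pool.Agent.RR

open Finset

variable {α : Type*} [Fintype α] [DecidableEq α]

namespace Tow

/-- A bundled kernel. -/
structure Krn (s : Sta α) where
  ι : Type
  fi : Fintype ι
  t : ι → Sta α
  ker : IsKer s t

attribute [instance] Krn.fi

theorem mass_nonneg {m : Finset α → ℝ} (hm : ∀ A, 0 ≤ m A) : 0 ≤ mass m :=
  Finset.sum_nonneg fun A _ => hm A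

theorem IsKer.ne {s : Sta α} {ι : Type} [Fintype ι] {t : ι → Sta α} (h : IsKer s t) {i : ι}
    {A : Finset α} (hA : (t i).m A ≠ 0) : s.m A ≠ 0 := by
  rw [← h.sum A]
  have h1 : 0 < (t i).m A := lt_of_le_of_ne (h.nn i A) (Ne.symm hA)
  have h2 : (t i).m A ≤ ∑ i, (t i).m A :=
    Finset.single_le_sum (f := fun i => (t i).m A) (fun j _ => h.nn j A) (mem_univ i)
  linarith

theorem IsKer.ok {AA : Finset α → Prop} {s : Sta α} (hs : s.Ok AA) {ι : Type} [Fintype ι]
    {t : ι → Sta α} (h : IsKer s t) (i : ι) : (t i).Ok AA :=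
  ⟨h.nn i, h.sup i, fun A hA => hs.adm A (IsKer.ne h hA)⟩

theorem IsKer.int {s : Sta α} {ι : Type} [Fintype ι] {t : ι → Sta α} (h : IsKer s t)
    (F : Finset α → ℝ) : ∑ i, ∑ A, (t i).m A * F A = ∑ A, s.m A * F A := by
  rw [Finset.sum_comm]
  refine Finset.sum_congr rfl fun A _ => ?_
  rw [← Finset.sum_mul, h.sum]

theorem IsKer.mass {s : Sta α} {ι : Type} [Fintype ι] {t : ι → Sta α} (h : IsKer s t) :
    ∑ i, RR.mass (t i).m = RR.mass s.m := by
  unfold RR.mass
  rw [Finset.sum_comm]
  exact Finset.sum_congr rfl fun A _ => h.sum A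

theorem rev_eq {s : Sta α} {ι : Type} [Fintype ι] {t : ι → Sta α} (h : IsKer s t) :
    rev s t = siz s - ∑ i, siz (t i) := by
  have h1 := IsKer.int h (fun A => (A.card : ℝ))
  have h2 := IsKer.mass h
  have e1 : siz s = ∑ A, s.m A * (A.card : ℝ) - mass s.m * s.K.card := by
    unfold siz mass
    rw [Finset.sum_mul, ← Finset.sum_sub_distrib]
    exact Finset.sum_congr rfl fun A _ => by ring
  have e2 : ∀ i, siz (t i) = ∑ A, (t i).m A * (A.card : ℝ) - mass (t i).m * (t i).K.card := by
    intro i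
    unfold siz mass
    rw [Finset.sum_mul, ← Finset.sum_sub_distrib]
    exact Finset.sum_congr rfl fun A _ => by ring
  rw [e1, Finset.sum_congr rfl fun i _ => e2 i, Finset.sum_sub_distrib, h1, ← h2]
  unfold rev
  have e3 : ∀ i, (((t i).K \ s.K).card : ℝ) = (t i).K.card - s.K.card := by
    intro i
    rw [Finset.cast_card_sdiff (h.sub i)]
  rw [Finset.sum_congr rfl fun i _ => by rw [e3 i]]
  rw [Finset.sum_mul]
  have e4 : ∀ i, mass (t i).m * ((t i).K.card - s.K.card : ℝ) =
      mass (t i).m * (t i).K.card - mass (t i).m * s.K.card := fun i => by ring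
  rw [Finset.sum_congr rfl fun i _ => e4 i, Finset.sum_sub_distrib]
  ring

theorem rev_nonneg {s : Sta α} {ι : Type} [Fintype ι] {t : ι → Sta α} (h : IsKer s t) :
    0 ≤ rev s t :=
  Finset.sum_nonneg fun i _ => mul_nonneg (mass_nonneg (h.nn i)) (Nat.cast_nonneg _)

theorem siz_nonneg {AA : Finset α → Prop} {s : Sta α} (hs : s.Ok AA) : 0 ≤ siz s := by
  refine Finset.sum_nonneg fun A _ => ?_
  by_cases hA : s.m A = 0
  · rw [hA, zero_mul]
  · refine mul_nonneg (hs.nn A) ?_
    have := Finset.card_le_card (hs.sub A hA)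
    have h2 : (s.K.card : ℝ) ≤ A.card := by exact_mod_cast this
    linarith

/-- Composition. -/
def Krn.comp {s : Sta α} (W : Krn s) (V : ∀ i, Krn (W.t i)) : Krn s where
  ι := Σ i, (V i).ι
  fi := inferInstance
  t := fun q => (V q.1).t q.2
  ker :=
    { nn := fun q A => (V q.1).ker.nn q.2 A
      sup := fun q A => (V q.1).ker.sup q.2 A
      sub := fun q => (W.ker.sub q.1).trans ((V q.1).ker.sub q.2)
      sum := fun A => by
        rw [Fintype.sum_sigma]
        rw [← W.ker.sum A]
        exact Finset.sum_congr rfl fun i _ => (V i).ker.sum A }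

theorem Krn.comp_sum {s : Sta α} (W : Krn s) (V : ∀ i, Krn (W.t i)) (F : Sta α → ℝ) :
    ∑ q, F ((W.comp V).t q) = ∑ i, ∑ k, F ((V i).t k) := by
  have : (∑ q, F ((W.comp V).t q)) = ∑ q : (Σ i, (V i).ι), F ((V q.1).t q.2) := rfl
  rw [this, Fintype.sum_sigma]

/-- The trivial kernel. -/
def Krn.triv {AA : Finset α → Prop} {s : Sta α} (hs : s.Ok AA) : Krn s where
  ι := Unit
  fi := inferInstance
  t := fun _ => s
  ker :=
    { nn := fun _ => hs.nn
      sup := fun _ => hs.sub
      sub := fun _ => Finset.Subset.refl _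
      sum := fun A => by simp }

theorem Krn.triv_sum {AA : Finset α → Prop} {s : Sta α} (hs : s.Ok AA) (F : Sta α → ℝ) :
    ∑ q, F ((Krn.triv hs).t q) = F s := by
  have : (∑ q, F ((Krn.triv hs).t q)) = ∑ _q : Unit, F s := rfl
  rw [this]
  simp

/-- Everything is revealed. -/
def Fnl (AA : Finset α → Prop) (s : Sta α) : Prop := s.Ok AA ∧ ∀ A, s.m A ≠ 0 → A = s.K

theorem Fnl.ker {AA : Finset α → Prop} {s : Sta α} (hs : Fnl AA s) {ι : Type} [Fintype ι]
    {t : ι → Sta α} (h : IsKer s t) (i : ι) : Fnl AA (t i) := by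
  refine ⟨IsKer.ok hs.1 h i, fun A hA => ?_⟩
  have h1 := hs.2 A (IsKer.ne h hA)
  have h2 := h.sup i A hA
  refine (Finset.Subset.antisymm h2 ?_).symm
  rw [h1]
  exact h.sub i

/-- Reveal everything. -/
theorem exists_all {AA : Finset α → Prop} {s : Sta α} (hs : s.Ok AA) :
    ∃ W : Krn s, ∀ i, Fnl AA (W.t i) := by
  classical
  let eq := Fintype.equivFin (Finset α)
  have hk : IsKer s (fun n : Fin (Fintype.card (Finset α)) =>
      (⟨s.K ∪ eq.symm n, fun B => if B = eq.symm n then s.m B else 0⟩ : Sta α)) := by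
    refine ⟨fun n A => ?_, fun n A hA => ?_, fun n => subset_union_left, fun A => ?_⟩
    · simp only
      split_ifs
      · exact hs.nn A
      · exact le_refl _
    · simp only at hA ⊢
      by_cases h1 : A = eq.symm n
      · rw [if_pos h1] at hA
        rw [← h1]
        exact union_subset (hs.sub A hA) (Subset.refl _)
      · rw [if_neg h1] at hA
        exact absurd rfl hA
    · simp only
      rw [Fintype.sum_eq_single (eq A)]
      · simp
      · intro n hn
        rw [if_neg]
        intro h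
        apply hn
        rw [h]
        simp
  refine ⟨⟨Fin (Fintype.card (Finset α)), inferInstance, _, hk⟩, fun n => ⟨IsKer.ok hs hk n, ?_⟩⟩
  intro A hA
  change (if A = eq.symm n then s.m A else 0) ≠ 0 at hA
  change A = s.K ∪ eq.symm n
  by_cases h1 : A = eq.symm n
  · rw [if_pos h1] at hA
    rw [← h1]
    exact (union_eq_right.2 (hs.sub A hA)).symm
  · rw [if_neg h1] at hA
    exact absurd rfl hA

/-- The classes of states. -/
def Cls (AA : Finset α → Prop) (T : ℕ → Sta α → ℝ) (δ : ℝ) : ℕ → Sta α → Prop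
  | 0, s => s.Ok AA
  | (j + 1), s => Cls AA T δ j s ∧ ∀ W : Krn s, (∀ i, Cls AA T δ j (W.t i)) →
      -(δ * mass s.m) ≤ T j s - ∑ i, T j (W.t i)

theorem Cls.ok {AA : Finset α → Prop} {T : ℕ → Sta α → ℝ} {δ : ℝ} :
    ∀ {j : ℕ} {s : Sta α}, Cls AA T δ j s → s.Ok AA
  | 0, _, h => h
  | (_ + 1), _, h => Cls.ok h.1

theorem Cls.fnl {AA : Finset α → Prop} {T : ℕ → Sta α → ℝ} {δ : ℝ} (hδ : 0 ≤ δ)
    (hT : ∀ j s, Fnl AA s → T j s = 0) : ∀ (j : ℕ) {s : Sta α}, Fnl AA s → Cls AA T δ j s
  | 0, _, h => h.1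
  | (j + 1), s, h => by
      refine ⟨Cls.fnl hδ hT j h, fun W _ => ?_⟩
      rw [hT j s h, Finset.sum_eq_zero fun i _ => hT j _ (h.ker W.ker i), sub_zero]
      have := mul_nonneg hδ (mass_nonneg h.1.nn)
      linarith

theorem ret {AA : Finset α → Prop} {T : ℕ → Sta α → ℝ} {δ : ℝ} (hδ : 0 < δ)
    (hT : ∀ j s, Fnl AA s → T j s = 0) (j : ℕ) {c : ℝ} (hc : 0 ≤ c)
    (hTc : ∀ s : Sta α, s.Ok AA → T j s ≤ c * mass s.m) {s : Sta α} (hs : Cls AA T δ j s) :
    ∃ W : Krn s, (∀ i, Cls AA T δ (j + 1) (W.t i)) ∧ T j s - ∑ i, T j (W.t i) ≤ δ * mass s.m := by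
  classical
  have hok := Cls.ok hs
  rcases (mass_nonneg hok.nn).eq_or_lt with h0 | hpos
  · -- zero mass
    have hz : ∀ A, s.m A = 0 := by
      intro A
      have := (Finset.sum_eq_zero_iff_of_nonneg (fun A _ => hok.nn A)).1 h0.symm A (mem_univ A)
      exact this
    have hf : Fnl AA s := ⟨hok, fun A hA => absurd (hz A) hA⟩
    refine ⟨Krn.triv hok, fun _ => Cls.fnl hδ.le hT (j + 1) hf, ?_⟩
    rw [Krn.triv_sum hok]
    rw [← h0]
    simp
  · set X : Set ℝ := {x | ∃ W : Krn s, (∀ i, Cls AA T δ j (W.t i)) ∧ x = ∑ i, T j (W.t i)} with hX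
    have hXb : BddAbove X := by
      refine ⟨c * mass s.m, ?_⟩
      rintro x ⟨W, hW, rfl⟩
      rw [← IsKer.mass W.ker, Finset.mul_sum]
      exact Finset.sum_le_sum fun i _ => hTc _ (Cls.ok (hW i))
    have hTs : T j s ∈ X := ⟨Krn.triv hok, fun _ => hs, (Krn.triv_sum hok _).symm⟩
    set ε := δ * mass s.m / (1 + c / δ) with hε
    have hε0 : 0 < ε := by positivity
    obtain ⟨x, ⟨W, hW, rfl⟩, hx⟩ := exists_lt_of_lt_csSup ⟨_, hTs⟩
      (show sSup X - ε < sSup X by linarith)
    have hTle : T j s ≤ sSup X := le_csSup hXb hTs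
    -- the bad ends
    have hbad : ∀ i, ∃ V : Krn (W.t i), (∀ k, Cls AA T δ j (V.t k)) ∧
        (¬ Cls AA T δ (j + 1) (W.t i) → T j (W.t i) + δ * mass (W.t i).m ≤ ∑ k, T j (V.t k)) ∧
        (Cls AA T δ (j + 1) (W.t i) → T j (W.t i) ≤ ∑ k, T j (V.t k)) := by
      intro i
      by_cases hg : Cls AA T δ (j + 1) (W.t i)
      · refine ⟨Krn.triv (Cls.ok (hW i)), fun _ => hW i, fun h => absurd hg h, fun _ => ?_⟩
        rw [Krn.triv_sum]
      · have hg' : ¬ (Cls AA T δ j (W.t i) ∧ ∀ V : Krn (W.t i), (∀ k, Cls AA T δ j (V.t k)) →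
            -(δ * mass (W.t i).m) ≤ T j (W.t i) - ∑ k, T j (V.t k)) := hg
        push Not at hg'
        obtain ⟨V, hV, hlt⟩ := hg' (hW i)
        exact ⟨V, hV, fun _ => by linarith, fun h => absurd h hg⟩
    choose V hVc hVb hVg using hbad
    set B : Finset W.ι := univ.filter (fun i => ¬ Cls AA T δ (j + 1) (W.t i)) with hB
    have h1 : ∑ i, T j (W.t i) + δ * ∑ i ∈ B, mass (W.t i).m ≤ sSup X := by
      have h2 : ∑ q, T j ((W.comp V).t q) ≤ sSup X :=
        le_csSup hXb ⟨W.comp V, fun q => hVc q.1 q.2, rfl⟩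
      rw [Krn.comp_sum] at h2
      refine le_trans ?_ h2
      rw [hB, Finset.sum_filter, Finset.mul_sum, ← Finset.sum_add_distrib]
      refine Finset.sum_le_sum fun i _ => ?_
      by_cases hg : Cls AA T δ (j + 1) (W.t i)
      · rw [if_neg (not_not.2 hg), mul_zero, add_zero]
        exact hVg i hg
      · rw [if_pos hg]
        exact hVb i hg
    have h3 : δ * ∑ i ∈ B, mass (W.t i).m ≤ ε := by linarith
    -- the final kernel
    have hfin : ∀ i, ∃ R : Krn (W.t i), (∀ k, Cls AA T δ (j + 1) (R.t k)) ∧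
        T j (W.t i) - (if ¬ Cls AA T δ (j + 1) (W.t i) then c * mass (W.t i).m else 0) ≤
          ∑ k, T j (R.t k) := by
      intro i
      by_cases hg : Cls AA T δ (j + 1) (W.t i)
      · refine ⟨Krn.triv (Cls.ok (hW i)), fun _ => hg, ?_⟩
        rw [Krn.triv_sum, if_neg (not_not.2 hg), sub_zero]
      · obtain ⟨R, hR⟩ := exists_all (Cls.ok (hW i))
        refine ⟨R, fun k => Cls.fnl hδ.le hT _ (hR k), ?_⟩
        rw [if_pos hg, Finset.sum_eq_zero fun k _ => hT j _ (hR k)]
        have := hTc _ (Cls.ok (hW i))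
        linarith
    choose R hRc hRs using hfin
    refine ⟨W.comp R, fun q => hRc q.1 q.2, ?_⟩
    rw [Krn.comp_sum]
    have h4 : ∑ i, T j (W.t i) - c * ∑ i ∈ B, mass (W.t i).m ≤ ∑ i, ∑ k, T j ((R i).t k) := by
      rw [hB, Finset.sum_filter, Finset.mul_sum, ← Finset.sum_sub_distrib]
      refine Finset.sum_le_sum fun i _ => ?_
      refine le_trans (le_of_eq ?_) (hRs i)
      split_ifs <;> ring
    have h5 : ∑ i ∈ B, mass (W.t i).m ≤ ε / δ := by
      rw [le_div_iff₀ hδ]
      linarith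
    have h6 : ε + c * (ε / δ) = δ * mass s.m := by
      rw [hε]
      have : (1 + c / δ) ≠ 0 := by positivity
      field_simp
    have h7 := mul_le_mul_of_nonneg_left h5 hc
    linarith

/-- The functional of level `j`. -/
noncomputable def TT (D : Sta α → ℝ) (A κ : ℕ → ℝ) (j : ℕ) (s : Sta α) : ℝ :=
  ent s.m - A j * siz s + κ j * D s

/-- The errors. -/
noncomputable def er (b N : ℝ) (κ : ℕ → ℝ) : ℕ → ℝ
  | 0 => 0
  | (j + 1) => er b N κ j + 1 + (κ (j + 1) - κ j) * (2 * b) * (1 + er b N κ j * (1 + N))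

/-- The block property. -/
def Blk (AA : Finset α → Prop) (D : Sta α → ℝ) (b : ℝ) (A κ H : ℕ → ℝ) (δ : ℝ) (j : ℕ) : Prop :=
  ∀ s : Sta α, Cls AA (TT D A κ) δ j s → ∀ S : Krn s, ∃ V : ∀ i, Krn (S.t i),
    (∀ i k, Cls AA (TT D A κ) δ j ((V i).t k)) ∧
    TT D A κ j s - ∑ i, ∑ k, TT D A κ j ((V i).t k) +
      (b + 2) * (siz s - ∑ i, ∑ k, siz ((V i).t k)) ≤
    ent s.m - ∑ i, ent (S.t i).m - H j * (∑ i, if (S.t i).K = s.K then 0 else mass (S.t i).m) +
      δ * er b (Fintype.card α) κ j * mass s.m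

/-- The question `is v in A`. -/
theorem isKer_ask {s : Sta α} {AA : Finset α → Prop} (hs : s.Ok AA) (v : α) :
    IsKer s (fun t : Bool => (if t then ⟨insert v s.K, fun A => if v ∈ A then s.m A else 0⟩
      else ⟨s.K, fun A => if v ∈ A then 0 else s.m A⟩ : Sta α)) := by
  refine ⟨fun t A => ?_, fun t A hA => ?_, fun t => ?_, fun A => ?_⟩
  · cases t
    · simp only [Bool.false_eq_true, if_false]
      split_ifs
      · exact le_refl _
      · exact hs.nn A
    · simp only [if_true]
      split_ifs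
      · exact hs.nn A
      · exact le_refl _
  · cases t
    · simp only [Bool.false_eq_true, if_false] at hA ⊢
      by_cases h1 : v ∈ A
      · rw [if_pos h1] at hA
        exact absurd rfl hA
      · rw [if_neg h1] at hA
        exact hs.sub A hA
    · simp only [if_true] at hA ⊢
      by_cases h1 : v ∈ A
      · rw [if_pos h1] at hA
        exact insert_subset h1 (hs.sub A hA)
      · rw [if_neg h1] at hA
        exact absurd rfl hA
  · cases t
    · simp
    · simp only [if_true]
      exact subset_insert _ _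
  · rw [Fintype.sum_bool]
    simp only [if_true, Bool.false_eq_true, if_false]
    split_ifs <;> simp

theorem ask {AA : Finset α → Prop} {D : Sta α → ℝ} {b : ℝ} {A κ H : ℕ → ℝ} {δ : ℝ} {j : ℕ}
    (hH : 0 ≤ H j) (hE : 0 ≤ Real.exp (-H j) + δ * er b (Fintype.card α) κ j)
    (hB : Blk AA D b A κ H δ j) (L : Finset α) : ∀ s : Sta α, Cls AA (TT D A κ) δ j s →
    ∃ W : Krn s, (∀ i, Cls AA (TT D A κ) δ j (W.t i)) ∧
      (∀ i X, (W.t i).m X ≠ 0 → L ∩ X ⊆ (W.t i).K) ∧
      TT D A κ j s - ∑ i, TT D A κ j (W.t i) + (b + 2) * (siz s - ∑ i, siz (W.t i)) ≤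
        L.card * (Real.exp (-H j) + δ * er b (Fintype.card α) κ j) * mass s.m := by
  classical
  induction L using Finset.induction_on with
  | empty =>
    intro s hs
    refine ⟨Krn.triv (Cls.ok hs), fun _ => hs, fun i X _ => by simp, ?_⟩
    rw [Krn.triv_sum, Krn.triv_sum]
    simp
  | insert v L hv ih =>
    intro s hs
    have hok := Cls.ok hs
    have hm0 := mass_nonneg hok.nn
    by_cases hvK : v ∈ s.K
    · obtain ⟨W, hW1, hW2, hW3⟩ := ih s hs
      refine ⟨W, hW1, fun i X hX => ?_, hW3.trans ?_⟩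
      · intro x hx
        obtain ⟨hx1, hx2⟩ := mem_inter.1 hx
        rcases mem_insert.1 hx1 with h | h
        · rw [h]
          exact W.ker.sub i hvK
        · exact hW2 i X hX (mem_inter.2 ⟨h, hx2⟩)
      · rw [card_insert_of_notMem hv]
        push_cast
        have := mul_nonneg hE hm0
        nlinarith
    · set S : Krn s := ⟨Bool, inferInstance, _, isKer_ask hok v⟩ with hS
      obtain ⟨V, hV1, hV2⟩ := hB s hs S
      choose R hR1 hR2 hR3 using fun i k => ih ((V i).t k) (hV1 i k)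
      refine ⟨S.comp fun i => (V i).comp fun k => R i k, fun q => hR1 q.1 q.2.1 q.2.2, ?_, ?_⟩
      · rintro ⟨i, k, r⟩ X hX x hx
        change ((R i k).t r).m X ≠ 0 at hX
        change x ∈ ((R i k).t r).K
        obtain ⟨hx1, hx2⟩ := mem_inter.1 hx
        rcases mem_insert.1 hx1 with h | h
        · have h1 := IsKer.ne (R i k).ker hX
          have h2 := IsKer.ne (V i).ker h1
          refine (R i k).ker.sub r ((V i).ker.sub k ?_)
          cases i
          · exfalso
            change (if v ∈ X then 0 else s.m X) ≠ 0 at h2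
            rw [if_pos (h ▸ hx2)] at h2
            exact h2 rfl
          · change x ∈ insert v s.K
            rw [h]
            exact mem_insert_self _ _
        · exact hR2 i k r X hX (mem_inter.2 ⟨h, hx2⟩)
      · have e1 : ∀ F : Sta α → ℝ, ∑ q, F ((S.comp fun i => (V i).comp fun k => R i k).t q) =
            ∑ i, ∑ k, ∑ r, F ((R i k).t r) := by
          intro F
          rw [Krn.comp_sum]
          exact Finset.sum_congr rfl fun i _ => Krn.comp_sum _ _ _
        rw [e1, e1]
        have h1 : ∑ i, ∑ k, (TT D A κ j ((V i).t k) - ∑ r, TT D A κ j ((R i k).t r) +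
            (b + 2) * (siz ((V i).t k) - ∑ r, siz ((R i k).t r))) ≤
            ∑ i, ∑ k, L.card * (Real.exp (-H j) + δ * er b (Fintype.card α) κ j) *
              mass ((V i).t k).m :=
          Finset.sum_le_sum fun i _ => Finset.sum_le_sum fun k _ => hR3 i k
        have h2 : ∑ i, ∑ k, L.card * (Real.exp (-H j) + δ * er b (Fintype.card α) κ j) *
            mass ((V i).t k).m =
            L.card * (Real.exp (-H j) + δ * er b (Fintype.card α) κ j) * mass s.m := by
          rw [← IsKer.mass S.ker, Finset.mul_sum]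
          refine Finset.sum_congr rfl fun i _ => ?_
          rw [← IsKer.mass (V i).ker, Finset.mul_sum]
        have h3 : ∑ i, ∑ k, (TT D A κ j ((V i).t k) - ∑ r, TT D A κ j ((R i k).t r) +
            (b + 2) * (siz ((V i).t k) - ∑ r, siz ((R i k).t r))) =
            ∑ i, ∑ k, TT D A κ j ((V i).t k) - ∑ i, ∑ k, ∑ r, TT D A κ j ((R i k).t r) +
            (b + 2) * (∑ i, ∑ k, siz ((V i).t k) - ∑ i, ∑ k, ∑ r, siz ((R i k).t r)) := by
          simp only [Finset.sum_add_distrib, Finset.sum_sub_distrib, ← Finset.mul_sum]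
        rw [h3, h2] at h1
        -- the question
        have h4 := ent_ask hok.nn v hH
        have h5 : ∑ i, ent (S.t i).m = ent (fun X => if v ∈ X then s.m X else 0) +
            ent (fun X => if v ∈ X then 0 else s.m X) := by
          have : ∑ i, ent (S.t i).m = ∑ i : Bool, ent ((if i then
            ⟨insert v s.K, fun A => if v ∈ A then s.m A else 0⟩
              else ⟨s.K, fun A => if v ∈ A then 0 else s.m A⟩ : Sta α)).m := rfl
          rw [this, Fintype.sum_bool]
          simp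
        have h6 : (∑ i, if (S.t i).K = s.K then 0 else mass (S.t i).m) =
            mass (fun X => if v ∈ X then s.m X else 0) := by
          have : (∑ i, if (S.t i).K = s.K then 0 else mass (S.t i).m) = ∑ i : Bool,
            if ((if i then ⟨insert v s.K, fun A => if v ∈ A then s.m A else 0⟩
              else ⟨s.K, fun A => if v ∈ A then 0 else s.m A⟩ : Sta α)).K = s.K then 0 else
              mass ((if i then ⟨insert v s.K, fun A => if v ∈ A then s.m A else 0⟩
              else ⟨s.K, fun A => if v ∈ A then 0 else s.m A⟩ : Sta α)).m := rfl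
          rw [this, Fintype.sum_bool]
          have hne : insert v s.K ≠ s.K := fun h => hvK (h ▸ mem_insert_self v s.K)
          simp only [if_true, Bool.false_eq_true, if_false, add_zero]
          rw [if_neg hne]
        rw [h5, h6] at hV2
        rw [card_insert_of_notMem hv]
        push_cast
        nlinarith

/-- The hint kernel. -/
theorem isKer_msg {s : Sta α} {AA : Finset α → Prop} (hs : s.Ok AA) {ι : Type} [Fintype ι]
    {J : ι → Finset α → ℝ} (h0 : ∀ i X, 0 ≤ J i X) (h1 : ∀ X, ∑ i, J i X = s.m X) :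
    IsKer s (fun i => (⟨s.K, J i⟩ : Sta α)) := by
  refine ⟨h0, fun i X hX => ?_, fun i => Finset.Subset.refl _, h1⟩
  refine hs.sub X ?_
  rw [← h1 X]
  have h3 : 0 < J i X := lt_of_le_of_ne (h0 i X) (Ne.symm hX)
  have h2 : J i X ≤ ∑ i, J i X :=
    Finset.single_le_sum (f := fun i => J i X) (fun j _ => h0 j X) (mem_univ i)
  linarith

theorem rev_le {s : Sta α} {ι : Type} [Fintype ι] {t : ι → Sta α} (h : IsKer s t) :
    rev s t ≤ Fintype.card α * mass s.m := by
  unfold rev
  rw [← IsKer.mass h, Finset.mul_sum]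
  refine Finset.sum_le_sum fun i _ => ?_
  rw [mul_comm]
  refine mul_le_mul_of_nonneg_right ?_ (mass_nonneg (h.nn i))
  exact_mod_cast Finset.card_le_univ _

/-- The level step. -/
theorem th {AA : Finset α → Prop} {D : Sta α → ℝ} {b : ℝ} {A κ H : ℕ → ℝ} {δ : ℝ} {j : ℕ}
    (hH : 0 ≤ H j) (hb : 0 ≤ b) (hδ : 0 ≤ δ) (her : 0 ≤ er b (Fintype.card α) κ j)
    (hB : Blk AA D b A κ H δ j) {s : Sta α} (hs : Cls AA (TT D A κ) δ (j + 1) s)
    {ι : Type} [Fintype ι] {t : ι → Sta α} (ht : IsKer s t) {J : ι → Finset α → ℝ}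
    (h0 : ∀ i X, 0 ≤ J i X) (h1 : ∀ X, ∑ i, J i X = s.m X)
    (h2 : ∀ i, mass (J i) = mass (t i).m) {x : ℝ} (hx : ent s.m - ∑ i, ent (J i) ≤ x) :
    (b + 2) * ovl s t J ≤ x + Real.exp (-H j) * rev s t +
      δ * (1 + er b (Fintype.card α) κ j * (1 + Fintype.card α)) * mass s.m := by
  classical
  have hok := Cls.ok hs
  have hm0 := mass_nonneg hok.nn
  have hE : 0 ≤ Real.exp (-H j) + δ * er b (Fintype.card α) κ j := by positivity
  set S : Krn s := ⟨ι, inferInstance, _, isKer_msg hok h0 h1⟩ with hS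
  obtain ⟨V, hV1, hV2⟩ := hB s hs.1 S
  choose R hR1 hR2 hR3 using fun i k => ask hH hE hB ((t i).K \ s.K) ((V i).t k) (hV1 i k)
  have hcl := hs.2 (S.comp fun i => (V i).comp fun k => R i k) (fun q => hR1 q.1 q.2.1 q.2.2)
  have e1 : ∀ F : Sta α → ℝ, ∑ q, F ((S.comp fun i => (V i).comp fun k => R i k).t q) =
      ∑ i, ∑ k, ∑ r, F ((R i k).t r) := by
    intro F
    rw [Krn.comp_sum]
    exact Finset.sum_congr rfl fun i _ => Krn.comp_sum _ _ _
  rw [e1] at hcl
  -- the costs
  have h5 : ∑ i, ∑ k, (TT D A κ j ((V i).t k) - ∑ r, TT D A κ j ((R i k).t r) +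
      (b + 2) * (siz ((V i).t k) - ∑ r, siz ((R i k).t r))) ≤
      ∑ i, ∑ k, ((t i).K \ s.K).card * (Real.exp (-H j) + δ * er b (Fintype.card α) κ j) *
        mass ((V i).t k).m :=
    Finset.sum_le_sum fun i _ => Finset.sum_le_sum fun k _ => hR3 i k
  have h6 : ∑ i, ∑ k, ((t i).K \ s.K).card * (Real.exp (-H j) + δ * er b (Fintype.card α) κ j) *
      mass ((V i).t k).m = (Real.exp (-H j) + δ * er b (Fintype.card α) κ j) * rev s t := by
    unfold rev
    rw [Finset.mul_sum]
    refine Finset.sum_congr rfl fun i _ => ?_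
    rw [← Finset.mul_sum, IsKer.mass (V i).ker]
    have : mass (S.t i).m = mass (t i).m := h2 i
    rw [this]
    ring
  have h7 : ∑ i, ∑ k, (TT D A κ j ((V i).t k) - ∑ r, TT D A κ j ((R i k).t r) +
      (b + 2) * (siz ((V i).t k) - ∑ r, siz ((R i k).t r))) =
      ∑ i, ∑ k, TT D A κ j ((V i).t k) - ∑ i, ∑ k, ∑ r, TT D A κ j ((R i k).t r) +
      (b + 2) * (∑ i, ∑ k, siz ((V i).t k) - ∑ i, ∑ k, ∑ r, siz ((R i k).t r)) := by
    simp only [Finset.sum_add_distrib, Finset.sum_sub_distrib, ← Finset.mul_sum]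
    rfl
  rw [h7, h6] at h5
  have h8 : ∑ i, ent (S.t i).m = ∑ i, ent (J i) := rfl
  have h9 : (∑ i, if (S.t i).K = s.K then 0 else mass (S.t i).m) = 0 := by
    refine Finset.sum_eq_zero fun i _ => ?_
    have : (S.t i).K = s.K := rfl
    rw [if_pos this]
  rw [h8, h9, mul_zero, sub_zero] at hV2
  -- the number of revealed elements
  have h10 : ovl s t J ≤ siz s - ∑ i, ∑ k, ∑ r, siz ((R i k).t r) := by
    have e2 := IsKer.int S.ker (fun X => (X.card : ℝ) - s.K.card)
    have e3 : ∀ i, ∑ X, (S.t i).m X * ((X.card : ℝ) - s.K.card) =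
        ∑ k, ∑ r, ∑ X, ((R i k).t r).m X * ((X.card : ℝ) - s.K.card) := by
      intro i
      rw [← IsKer.int (V i).ker]
      exact Finset.sum_congr rfl fun k _ => (IsKer.int (R i k).ker _).symm
    have e4 : siz s = ∑ i, ∑ k, ∑ r, ∑ X, ((R i k).t r).m X * ((X.card : ℝ) - s.K.card) := by
      unfold siz
      rw [← e2]
      exact Finset.sum_congr rfl fun i _ => e3 i
    have e5 : ovl s t J = ∑ i, ∑ k, ∑ r, ∑ X, ((R i k).t r).m X *
        ((((t i).K \ s.K) ∩ X).card : ℝ) := by
      unfold ovl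
      refine Finset.sum_congr rfl fun i _ => ?_
      have : ∑ X, J i X * ((((t i).K \ s.K) ∩ X).card : ℝ) =
        ∑ X, (S.t i).m X * ((((t i).K \ s.K) ∩ X).card : ℝ) := rfl
      rw [this, ← IsKer.int (V i).ker]
      exact Finset.sum_congr rfl fun k _ => (IsKer.int (R i k).ker _).symm
    rw [e4, e5, ← Finset.sum_sub_distrib]
    refine Finset.sum_le_sum fun i _ => ?_
    rw [← Finset.sum_sub_distrib]
    refine Finset.sum_le_sum fun k _ => ?_
    rw [← Finset.sum_sub_distrib]
    refine Finset.sum_le_sum fun r _ => ?_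
    unfold siz
    rw [← Finset.sum_sub_distrib]
    refine Finset.sum_le_sum fun X _ => ?_
    rw [← mul_sub]
    by_cases hX : ((R i k).t r).m X = 0
    · rw [hX, zero_mul, zero_mul]
    · refine mul_le_mul_of_nonneg_left ?_ ((R i k).ker.nn r X)
      have hL := hR2 i k r X hX
      have hK : s.K ⊆ ((R i k).t r).K := (V i).ker.sub k |>.trans ((R i k).ker.sub r)
      have hd : Disjoint (((t i).K \ s.K) ∩ X) s.K := by
        rw [Finset.disjoint_left]
        intro y hy hy2
        exact (mem_sdiff.1 (mem_inter.1 hy).1).2 hy2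
      have hc := Finset.card_le_card (Finset.union_subset hL hK)
      rw [Finset.card_union_of_disjoint hd] at hc
      have : ((((t i).K \ s.K) ∩ X).card : ℝ) + s.K.card ≤ ((R i k).t r).K.card := by
        exact_mod_cast hc
      linarith
  have h11 := rev_le ht
  have h12 := mul_le_mul_of_nonneg_left h10 (by linarith : (0 : ℝ) ≤ b + 2)
  have h13 := mul_le_mul_of_nonneg_left h11 (mul_nonneg hδ her)
  nlinarith

section main

variable {AA Good : Finset α → Prop} {D : Sta α → ℝ} {b e : ℝ} {f : ℕ → ℝ}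
    {lam : Finset α → ℝ} {C : ℝ} {A κ H : ℕ → ℝ} {δ : ℝ}

theorem stepB (F : Chan AA Good D b e f lam C) (hb : 0 ≤ b) (he : 0 ≤ e)
    (hf : ∀ n, 0 ≤ f n) {j : ℕ} (hH : 0 ≤ H j) (hδ : 0 ≤ δ)
    (her : 0 ≤ er b (Fintype.card α) κ j)
    (hB : Blk AA D b A κ H δ j) {s : Sta α} (hs : Cls AA (TT D A κ) δ (j + 1) s)
    {ι : Type} [Fintype ι] {t : ι → Sta α} (ht : IsKer s t) :
    (∑ i, mass (t i).m * f ((t i).K \ s.K).card) / (1 + 2 * b) -
      (2 * b * (e + Real.exp (-H j)) + e) * rev s t -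
      2 * b * (δ * (1 + er b (Fintype.card α) κ j * (1 + Fintype.card α)) * mass s.m) ≤
      ∑ i, D (t i) - D s := by
  obtain ⟨J, h0, h1, h2, h3, h4⟩ := F.hint s (Cls.ok hs) ι t ht
  have hm0 := mass_nonneg (Cls.ok hs).nn
  have hr := rev_nonneg ht
  set Fs := ∑ i, mass (t i).m * f ((t i).K \ s.K).card with hFs
  set err := δ * (1 + er b (Fintype.card α) κ j * (1 + Fintype.card α)) * mass s.m with herr
  have herr0 : 0 ≤ err := by positivity
  have hF0 : 0 ≤ Fs := Finset.sum_nonneg fun i _ => mul_nonneg (mass_nonneg (ht.nn i)) (hf _)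
  have hF1 : Fs / (1 + 2 * b) ≤ Fs := div_le_self hF0 (by linarith)
  have hE := (Real.exp_pos (-H j)).le
  have k1 : 0 ≤ 2 * b * e * rev s t := by positivity
  have k2 : 0 ≤ 2 * b * Real.exp (-H j) * rev s t := by positivity
  have k3 : 0 ≤ 2 * b * err := by positivity
  have k4 : 0 ≤ e * rev s t := by positivity
  rcases le_total (∑ i, D (t i) - D s) (ovl s t J) with h | h
  · have h5 := th hH hb hδ her hB hs ht h0 h1 h2 (x := (b + 1) * ovl s t J + e * rev s t)
      (by linarith)
    have h6 : ovl s t J ≤ (e + Real.exp (-H j)) * rev s t + err := by linarith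
    have h7 := mul_le_mul_of_nonneg_left h6 (by linarith : (0 : ℝ) ≤ 2 * b)
    nlinarith
  · have h5 : Fs - e * rev s t ≤ (1 + 2 * b) * (∑ i, D (t i) - D s) := by nlinarith
    have h6 : (Fs - e * rev s t) / (1 + 2 * b) ≤ ∑ i, D (t i) - D s := by
      rw [div_le_iff₀ (by linarith)]
      linarith
    have h7 : e * rev s t / (1 + 2 * b) ≤ e * rev s t := div_le_self k4 (by linarith)
    rw [sub_div] at h6
    nlinarith

theorem er_nonneg (hb : 0 ≤ b) (hκ : ∀ j, κ j ≤ κ (j + 1)) {N : ℝ} (hN : 0 ≤ N) :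
    ∀ j, 0 ≤ er b N κ j
  | 0 => le_refl _
  | (j + 1) => by
      have ih := er_nonneg hb hκ hN j
      have h1 : 0 ≤ κ (j + 1) - κ j := by linarith [hκ j]
      unfold er
      positivity

theorem H_nonneg (S : Sched b e f A κ H) : ∀ j, 0 ≤ H j
  | 0 => S.H_nonneg
  | (j + 1) => (H_nonneg S j).trans (S.H_mono j)

theorem κ_nonneg (S : Sched b e f A κ H) : ∀ j, 0 ≤ κ j
  | 0 => S.κ_zero.ge
  | (j + 1) => (κ_nonneg S j).trans (S.κ_mono j)

theorem A_nonneg (hb : 0 ≤ b) (S : Sched b e f A κ H) : ∀ j, 0 ≤ A j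
  | 0 => by have := S.H_zero; have := S.H_nonneg; linarith
  | (j + 1) => by have := A_nonneg hb S j; have := S.A_succ j; linarith

theorem TT_fnl (F : Chan AA Good D b e f lam C) (j : ℕ) (s : Sta α) (hs : Fnl AA s) :
    TT D A κ j s = 0 := by
  have h1 : ent s.m = 0 := by
    unfold ent
    refine Finset.sum_eq_zero fun X _ => ?_
    by_cases hX : s.m X = 0
    · rw [hX, zero_mul]
    · have h2 : mass s.m = s.m X := by
        unfold mass
        rw [Finset.sum_eq_single X]
        · intro Y _ hY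
          by_contra h
          exact hY ((hs.2 Y h).trans (hs.2 X hX).symm)
        · simp
      rw [h2, div_self hX, Real.log_one, mul_zero]
  have h2 : siz s = 0 := by
    unfold siz
    refine Finset.sum_eq_zero fun X _ => ?_
    by_cases hX : s.m X = 0
    · rw [hX, zero_mul]
    · rw [hs.2 X hX, sub_self, mul_zero]
  unfold TT
  rw [h1, h2, F.zero s hs.1 hs.2]
  ring

theorem TT_le (F : Chan AA Good D b e f lam C) (hb : 0 ≤ b) (S : Sched b e f A κ H) (j : ℕ)
    (s : Sta α) (hs : s.Ok AA) :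
    TT D A κ j s ≤ (Fintype.card (Finset α) + κ j * max C 0) * mass s.m := by
  have h1 := ent_le hs.nn
  have h2 := mul_nonneg (A_nonneg hb S j) (siz_nonneg hs)
  have h3 := mul_le_mul_of_nonneg_left (F.up s hs) (κ_nonneg S j)
  have h4 : κ j * (C * mass s.m) ≤ κ j * (max C 0 * mass s.m) :=
    mul_le_mul_of_nonneg_left (mul_le_mul_of_nonneg_right (le_max_left _ _)
      (mass_nonneg hs.nn)) (κ_nonneg S j)
  unfold TT
  nlinarith

theorem ret' (F : Chan AA Good D b e f lam C) (hb : 0 ≤ b) (S : Sched b e f A κ H) (hδ : 0 < δ)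
    (j : ℕ) {s : Sta α} (hs : Cls AA (TT D A κ) δ j s) :
    ∃ W : Krn s, (∀ i, Cls AA (TT D A κ) δ (j + 1) (W.t i)) ∧
      TT D A κ j s - ∑ i, TT D A κ j (W.t i) ≤ δ * mass s.m :=
  ret hδ (TT_fnl F) j (c := Fintype.card (Finset α) + κ j * max C 0)
    (by have := κ_nonneg S j; positivity) (TT_le F hb S j) hs

theorem blk (F : Chan AA Good D b e f lam C) (hb : 0 ≤ b) (he : 0 ≤ e) (hf0 : f 0 = 0)
    (hf : ∀ n, 0 ≤ f n) (S : Sched b e f A κ H) (hδ : 0 < δ) :
    ∀ j, Blk AA D b A κ H δ j := by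
  classical
  have hN : (0 : ℝ) ≤ Fintype.card α := Nat.cast_nonneg _
  intro j
  induction j with
  | zero =>
    intro s hs W
    have hok := Cls.ok hs
    have hok' : ∀ i, (W.t i).Ok AA := fun i => IsKer.ok hok W.ker i
    refine ⟨fun i => Krn.triv (hok' i), fun i _ => hok' i, ?_⟩
    have e1 : ∀ G : Sta α → ℝ, ∑ i, ∑ k, G ((Krn.triv (hok' i)).t k) = ∑ i, G (W.t i) :=
      fun G => Finset.sum_congr rfl fun i _ => Krn.triv_sum (hok' i) G
    rw [e1, e1]
    have e2 : ∑ i, TT D A κ 0 (W.t i) = ∑ i, ent (W.t i).m - A 0 * ∑ i, siz (W.t i) := by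
      unfold TT
      rw [S.κ_zero, Finset.mul_sum, ← Finset.sum_sub_distrib]
      exact Finset.sum_congr rfl fun i _ => by ring
    have e3 : TT D A κ 0 s = ent s.m - A 0 * siz s := by
      unfold TT
      rw [S.κ_zero]
      ring
    have h1 : (∑ i, if (W.t i).K = s.K then 0 else mass (W.t i).m) ≤
        siz s - ∑ i, siz (W.t i) := by
      rw [← rev_eq W.ker]
      unfold rev
      refine Finset.sum_le_sum fun i _ => ?_
      split_ifs with h
      · exact mul_nonneg (mass_nonneg (W.ker.nn i)) (Nat.cast_nonneg _)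
      · have h2 : 1 ≤ ((W.t i).K \ s.K).card := by
          rw [Nat.one_le_iff_ne_zero, Ne, Finset.card_eq_zero, Finset.sdiff_eq_empty_iff_subset]
          exact fun h3 => h (Finset.Subset.antisymm h3 (W.ker.sub i))
        have h3 : (1 : ℝ) ≤ ((W.t i).K \ s.K).card := by exact_mod_cast h2
        have h4 := mul_le_mul_of_nonneg_left h3 (mass_nonneg (W.ker.nn i))
        linarith
    have h0 : 0 ≤ ∑ i, if (W.t i).K = s.K then 0 else mass (W.t i).m :=
      Finset.sum_nonneg fun i _ => by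
        split_ifs
        · exact le_refl _
        · exact mass_nonneg (W.ker.nn i)
    rw [e2, e3]
    unfold er
    have h2 := S.H_zero
    have h3 := S.H_nonneg
    set R := siz s - ∑ i, siz (W.t i) with hR
    have h4 : H 0 * (∑ i, if (W.t i).K = s.K then 0 else mass (W.t i).m) ≤ (A 0 - (b + 2)) * R :=
      (mul_le_mul_of_nonneg_left h1 h3).trans (mul_le_mul_of_nonneg_right h2 (h0.trans h1))
    have h5 : A 0 * siz s - A 0 * ∑ i, siz (W.t i) = A 0 * R := by rw [hR]; ring
    nlinarith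
  | succ j ih =>
    intro s hs W
    have hok := Cls.ok hs
    have hm0 := mass_nonneg hok.nn
    obtain ⟨V, hV1, hV2⟩ := ih s hs.1 W
    choose R hR1 hR2 using fun i k => ret' F hb S hδ j (hV1 i k)
    refine ⟨fun i => (V i).comp fun k => R i k, fun i q => hR1 i q.1 q.2, ?_⟩
    have e1 : ∀ G : Sta α → ℝ, ∑ i, ∑ q, G (((V i).comp fun k => R i k).t q) =
        ∑ i, ∑ k, ∑ r, G ((R i k).t r) :=
      fun G => Finset.sum_congr rfl fun i _ => Krn.comp_sum _ _ _
    rw [e1, e1]
    -- the returns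
    have h1 : ∑ i, ∑ k, TT D A κ j ((V i).t k) - ∑ i, ∑ k, ∑ r, TT D A κ j ((R i k).t r) ≤
        δ * mass s.m := by
      have h2 : ∑ i, ∑ k, (TT D A κ j ((V i).t k) - ∑ r, TT D A κ j ((R i k).t r)) ≤
          ∑ i, ∑ k, δ * mass ((V i).t k).m :=
        Finset.sum_le_sum fun i _ => Finset.sum_le_sum fun k _ => hR2 i k
      simp only [Finset.sum_sub_distrib, ← Finset.mul_sum] at h2
      rw [Finset.sum_congr rfl fun i _ => IsKer.mass (V i).ker, IsKer.mass W.ker] at h2
      exact h2
    -- the inequality (B)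
    set W' : Krn s := W.comp fun i => (V i).comp fun k => R i k with hW'
    have hBj := stepB F hb he hf (H_nonneg S j) hδ.le (er_nonneg hb S.κ_mono hN j) ih hs W'.ker
    have e2 : ∀ G : Sta α → ℝ, ∑ q, G (W'.t q) = ∑ i, ∑ k, ∑ r, G ((R i k).t r) := by
      intro G
      rw [hW', Krn.comp_sum]
      exact e1 G
    rw [rev_eq W'.ker, e2, e2] at hBj
    set Rv := siz s - ∑ i, ∑ k, ∑ r, siz ((R i k).t r) with hRv
    set dD := ∑ i, ∑ k, ∑ r, D ((R i k).t r) - D s with hdD
    set Fs := ∑ q, mass (W'.t q).m * f ((W'.t q).K \ s.K).card with hFs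
    set P := ∑ i, if (W.t i).K = s.K then 0 else mass (W.t i).m with hP
    -- revealed elements
    have hRvge : siz s - ∑ i, ∑ k, siz ((V i).t k) ≤ Rv := by
      have h2 : ∑ i, ∑ k, ∑ r, siz ((R i k).t r) ≤ ∑ i, ∑ k, siz ((V i).t k) := by
        refine Finset.sum_le_sum fun i _ => Finset.sum_le_sum fun k _ => ?_
        have h3 := rev_nonneg (R i k).ker
        rw [rev_eq (R i k).ker] at h3
        linarith
      linarith
    have hRV0 : 0 ≤ siz s - ∑ i, ∑ k, siz ((V i).t k) := by
      have h3 := rev_nonneg (W.comp V).ker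
      rw [rev_eq (W.comp V).ker, Krn.comp_sum] at h3
      exact h3
    have hRv0 : 0 ≤ Rv := hRV0.trans hRvge
    -- the gain
    have hgain : (H (j + 1) - H j) * P ≤ Rv + (κ (j + 1) - κ j) * (Fs / (1 + 2 * b)) := by
      have hHd : 0 ≤ H (j + 1) - H j := by linarith [S.H_mono j]
      have h2 : P ≤ ∑ q, if (W'.t q).K = s.K then 0 else mass (W'.t q).m := by
        have e3 : ∑ q, (if (W'.t q).K = s.K then 0 else mass (W'.t q).m) =
            ∑ i, ∑ k, ∑ r, if ((R i k).t r).K = s.K then 0 else mass ((R i k).t r).m :=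
          e2 fun u => if u.K = s.K then 0 else mass u.m
        rw [e3, hP]
        refine Finset.sum_le_sum fun i _ => ?_
        split_ifs with h
        · refine Finset.sum_nonneg fun k _ => Finset.sum_nonneg fun r _ => ?_
          split_ifs
          · exact le_refl _
          · exact mass_nonneg ((R i k).ker.nn r)
        · rw [← IsKer.mass (V i).ker]
          refine Finset.sum_le_sum fun k _ => ?_
          rw [← IsKer.mass (R i k).ker]
          refine Finset.sum_le_sum fun r _ => ?_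
          rw [if_neg]
          intro h3
          have h4 : (W.t i).K ⊆ ((R i k).t r).K := ((V i).ker.sub k).trans ((R i k).ker.sub r)
          rw [h3] at h4
          exact h (Finset.Subset.antisymm h4 (W.ker.sub i))
      refine (mul_le_mul_of_nonneg_left h2 hHd).trans ?_
      have e4 : Rv = rev s W'.t := by rw [rev_eq W'.ker, e2]
      rw [e4, hFs]
      unfold rev
      rw [Finset.mul_sum, Finset.sum_div, Finset.mul_sum, ← Finset.sum_add_distrib]
      refine Finset.sum_le_sum fun q _ => ?_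
      have hmq := mass_nonneg (W'.ker.nn q)
      split_ifs with h
      · rw [h, Finset.sdiff_self, Finset.card_empty, hf0]
        simp
      · have h3 : 1 ≤ ((W'.t q).K \ s.K).card := by
          rw [Nat.one_le_iff_ne_zero, Ne, Finset.card_eq_zero, Finset.sdiff_eq_empty_iff_subset]
          exact fun h3 => h (Finset.Subset.antisymm h3 (W'.ker.sub q))
        have h4 := mul_le_mul_of_nonneg_left (S.H_step j _ h3) hmq
        calc (H (j + 1) - H j) * mass (W'.t q).m = mass (W'.t q).m * (H (j + 1) - H j) := by ring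
          _ ≤ _ := h4
          _ = _ := by ring
    -- assembly
    have hκd : 0 ≤ κ (j + 1) - κ j := by linarith [S.κ_mono j]
    have h2 := mul_le_mul_of_nonneg_left hBj hκd
    have h3 := mul_le_mul_of_nonneg_right (S.κ_step j) hRv0
    have e5 : TT D A κ (j + 1) s - ∑ i, ∑ k, ∑ r, TT D A κ (j + 1) ((R i k).t r) =
        (TT D A κ j s - ∑ i, ∑ k, ∑ r, TT D A κ j ((R i k).t r)) - (b + 4) * Rv -
          (κ (j + 1) - κ j) * dD := by
      have e6 : ∀ u : Sta α, TT D A κ (j + 1) u =
          TT D A κ j u - (b + 4) * siz u + (κ (j + 1) - κ j) * D u := by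
        intro u
        unfold TT
        rw [S.A_succ]
        ring
      simp only [e6, Finset.sum_add_distrib, Finset.sum_sub_distrib, ← Finset.mul_sum]
      rw [hRv, hdD]
      ring
    rw [e5]
    have e7 : er b (Fintype.card α) κ (j + 1) = er b (Fintype.card α) κ j + 1 +
      (κ (j + 1) - κ j) * (2 * b) * (1 + er b (Fintype.card α) κ j * (1 + Fintype.card α)) := rfl
    rw [e7]
    have h4 : (0 : ℝ) ≤ (b + 2) * (siz s - ∑ i, ∑ k, siz ((V i).t k)) :=
      mul_nonneg (by linarith) hRV0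
    nlinarith

/-- The end of the tower. -/
theorem fin_lvl (F : Chan AA Good D b e f lam C) (hb : 0 ≤ b) (he : 0 ≤ e) (hf0 : f 0 = 0)
    (hf : ∀ n, 0 ≤ f n) (S : Sched b e f A κ H) (hδ : 0 < δ) (J : ℕ) :
    ∀ d j, j + d = J → ∀ s : Sta α, Cls AA (TT D A κ) δ j s → (∀ X, s.m X ≠ 0 → Good X) →
      TT D A κ j s ≤ (A J - A j) * siz s + (κ J - κ j) * ∑ X, s.m X * lam X +
        (Fintype.card α * (Real.exp (-H J) + δ * er b (Fintype.card α) κ J) + d * δ) *
          mass s.m := by
  classical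
  have hN : (0 : ℝ) ≤ Fintype.card α := Nat.cast_nonneg _
  intro d
  induction d with
  | zero =>
    intro j hj s hs hG
    have hj' : j = J := by omega
    subst hj'
    obtain ⟨W, hW1, hW2, hW3⟩ := ask (H_nonneg S j)
      (by have := er_nonneg hb S.κ_mono hN j; positivity) (blk F hb he hf0 hf S hδ j) univ s hs
    have h1 : ∀ i, Fnl AA (W.t i) := by
      intro i
      refine ⟨Cls.ok (hW1 i), fun X hX => ?_⟩
      have h2 := hW2 i X hX
      rw [univ_inter] at h2
      exact Finset.Subset.antisymm h2 (W.ker.sup i X hX)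
    rw [Finset.sum_eq_zero fun i _ => TT_fnl F j _ (h1 i)] at hW3
    have h2 := rev_nonneg W.ker
    rw [rev_eq W.ker] at h2
    have h3 := mul_nonneg (by linarith : (0 : ℝ) ≤ b + 2) h2
    rw [Finset.card_univ] at hW3
    push_cast
    linarith
  | succ d ih =>
    intro j hj s hs hG
    obtain ⟨W, hW1, hW2⟩ := ret' F hb S hδ j hs
    have hok := Cls.ok hs
    have hm0 := mass_nonneg hok.nn
    have hG' : ∀ i X, (W.t i).m X ≠ 0 → Good X := fun i X hX => hG X (IsKer.ne W.ker hX)
    set c := Fintype.card α * (Real.exp (-H J) + δ * er b (Fintype.card α) κ J) + d * δ with hc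
    have hAle : ∀ n, A j ≤ A (j + n) := by
      intro n
      induction n with
      | zero => exact le_refl _
      | succ n ihn =>
        have := S.A_succ (j + n)
        have e : j + (n + 1) = j + n + 1 := by omega
        rw [e]
        linarith
    have hAJ : 0 ≤ A J - A j := by
      have := hAle (d + 1)
      rw [hj] at this
      linarith
    have h1 : ∀ i, TT D A κ j (W.t i) ≤ (A J - A j) * siz (W.t i) +
        (κ J - κ j) * ∑ X, (W.t i).m X * lam X + c * mass (W.t i).m := by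
      intro i
      have h2 := ih (j + 1) (by omega) (W.t i) (hW1 i) (hG' i)
      have h3 := F.low (W.t i) (Cls.ok (hW1 i)) (hG' i)
      have h4 := S.κ_mono j
      have h5 := S.A_succ j
      have e6 : TT D A κ (j + 1) (W.t i) =
          TT D A κ j (W.t i) - (b + 4) * siz (W.t i) + (κ (j + 1) - κ j) * D (W.t i) := by
        unfold TT
        rw [S.A_succ]
        ring
      rw [e6] at h2
      rw [h5] at h2
      have h6 := mul_le_mul_of_nonneg_left h3 (by linarith : 0 ≤ κ (j + 1) - κ j)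
      nlinarith
    have h2 := Finset.sum_le_sum fun i (_ : i ∈ univ) => h1 i
    rw [Finset.sum_add_distrib, Finset.sum_add_distrib, ← Finset.mul_sum, ← Finset.mul_sum,
      ← Finset.mul_sum, IsKer.int W.ker, IsKer.mass W.ker] at h2
    have h3 := rev_nonneg W.ker
    rw [rev_eq W.ker] at h3
    have h4 := mul_nonneg hAJ h3
    push_cast
    nlinarith

end main

end Tow

/-- **Abstract tower, entropy form.** -/
theorem tower {AA Good : Finset α → Prop} {D : Sta α → ℝ} {b e : ℝ} {f : ℕ → ℝ}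
    {lam : Finset α → ℝ} {C : ℝ} (F : Chan AA Good D b e f lam C) (hb : 0 ≤ b) (he : 0 ≤ e)
    (hf0 : f 0 = 0) (hf : ∀ n, 0 ≤ f n)
    {A κ H : ℕ → ℝ} (S : Sched b e f A κ H) (J : ℕ) (m : Finset α → ℝ) (hm : ∀ X, 0 ≤ m X)
    (hAA : ∀ X, m X ≠ 0 → AA X) (hG : ∀ X, m X ≠ 0 → Good X) :
    ent m ≤ A J * ∑ X, m X * X.card + κ J * ∑ X, m X * lam X +
      Fintype.card α * Real.exp (-H J) * mass m := by
  classical
  have hN : (0 : ℝ) ≤ Fintype.card α := Nat.cast_nonneg _
  set s : Sta α := ⟨∅, m⟩ with hs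
  have hok : s.Ok AA := ⟨hm, fun X _ => Finset.empty_subset _, hAA⟩
  have hm0 : 0 ≤ mass m := Tow.mass_nonneg hm
  have her := Tow.er_nonneg hb S.κ_mono hN J
  set B := (Fintype.card α * Tow.er b (Fintype.card α) κ J + J) * mass m with hB
  have hB0 : 0 ≤ B := by positivity
  refine le_of_forall_pos_le_add fun ε hε => ?_
  set δ := ε / (B + 1) with hδ
  have hδ0 : 0 < δ := by positivity
  have h1 := Tow.fin_lvl F hb he hf0 hf S hδ0 J J 0 (by omega) s hok hG
  have e1 : Tow.TT D A κ 0 s = ent m - A 0 * siz s := by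
    unfold Tow.TT
    rw [S.κ_zero]
    ring
  have e2 : siz s = ∑ X, m X * (X.card : ℝ) := by
    unfold siz
    refine Finset.sum_congr rfl fun X _ => ?_
    simp [hs]
  rw [e1, e2, S.κ_zero] at h1
  have e3 : mass s.m = mass m := rfl
  have e4 : ∑ X, s.m X * lam X = ∑ X, m X * lam X := rfl
  rw [e3, e4] at h1
  have h2 : δ * B ≤ ε := by
    rw [hδ, div_mul_eq_mul_div, div_le_iff₀ (by positivity)]
    nlinarith
  rw [hB] at h2
  nlinarith

open Classical in
/-- **Abstract tower, partition function form.** -/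
theorem tower_lv {AA Good : Finset α → Prop} {D : Sta α → ℝ} {b e : ℝ} {f : ℕ → ℝ}
    {lam : Finset α → ℝ} {C : ℝ} (F : Chan AA Good D b e f lam C) (hb : 0 ≤ b) (he : 0 ≤ e)
    (hf0 : f 0 = 0) (hf : ∀ n, 0 ≤ f n)
    {A κ H : ℕ → ℝ} (S : Sched b e f A κ H) (J : ℕ) :
    ∑ X with AA X ∧ Good X, Real.exp (-(A J * X.card + κ J * lam X)) ≤
      Real.exp (Fintype.card α * Real.exp (-H J)) := by
  set T := univ.filter fun X : Finset α => AA X ∧ Good X with hT
  set g : Finset α → ℝ := fun X => Real.exp (-(A J * X.card + κ J * lam X)) with hg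
  rcases T.eq_empty_or_nonempty with h | h
  · rw [h, Finset.sum_empty]
    exact (Real.exp_pos _).le
  set Z := ∑ X ∈ T, g X with hZ
  have hZ0 : 0 < Z := Finset.sum_pos (fun X _ => Real.exp_pos _) h
  set m : Finset α → ℝ := fun X => if X ∈ T then g X / Z else 0 with hm
  have hg0 : ∀ X, 0 < g X := fun X => Real.exp_pos _
  have hm0 : ∀ X, 0 ≤ m X := fun X => by
    simp only [hm]
    split_ifs
    · exact (div_pos (hg0 X) hZ0).le
    · exact le_refl _
  have hmT : ∀ X, m X ≠ 0 → X ∈ T := fun X hX => by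
    by_contra hcon
    simp only [hm] at hX
    rw [if_neg hcon] at hX
    exact hX rfl
  have hsum : ∀ k : Finset α → ℝ, ∑ X, m X * k X = ∑ X ∈ T, g X / Z * k X := by
    intro k
    rw [← Finset.sum_subset (Finset.subset_univ T)]
    · refine Finset.sum_congr rfl fun X hX => ?_
      simp only [hm]
      rw [if_pos hX]
    · intro X _ hX
      simp only [hm]
      rw [if_neg hX, zero_mul]
  have hmass : mass m = 1 := by
    have h1 := hsum fun _ => 1
    simp only [mul_one] at h1
    unfold mass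
    rw [h1, ← Finset.sum_div, ← hZ, div_self hZ0.ne']
  have hmain := tower F hb he hf0 hf S J m hm0 (fun X hX => (mem_filter.1 (hmT X hX)).2.1)
    (fun X hX => (mem_filter.1 (hmT X hX)).2.2)
  rw [hmass, mul_one, Finset.mul_sum, Finset.mul_sum, ← Finset.sum_add_distrib] at hmain
  have hent : ent m = ∑ X, (A J * (m X * X.card) + κ J * (m X * lam X)) + Real.log Z := by
    have e1 : ∀ X, m X * Real.log (mass m / m X) =
        (A J * (m X * X.card) + κ J * (m X * lam X)) + m X * Real.log Z := by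
      intro X
      by_cases hX : X ∈ T
      · have h1 : m X = g X / Z := by simp only [hm]; rw [if_pos hX]
        rw [hmass, h1, one_div, inv_div, Real.log_div hZ0.ne' (hg0 X).ne']
        have h2 : Real.log (g X) = -(A J * X.card + κ J * lam X) := Real.log_exp _
        rw [h2]
        ring
      · have h1 : m X = 0 := by simp only [hm]; rw [if_neg hX]
        rw [h1]
        ring
    unfold ent
    rw [Finset.sum_congr rfl fun X _ => e1 X, Finset.sum_add_distrib, ← Finset.sum_mul]
    have h2 : ∑ X, m X = 1 := hmass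
    rw [h2, one_mul]
  rw [hent] at hmain
  have h3 : Real.log Z ≤ Fintype.card α * Real.exp (-H J) := by linarith
  calc Z = Real.exp (Real.log Z) := (Real.exp_log hZ0).symm
    _ ≤ _ := Real.exp_le_exp.2 h3

end Pool.Agent.RR
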