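import Pool.Agent.RR.ChanGas
import Pool.Agent.RR.Tow
import Pool.Agent.SPG.Defs

/-!
# The pressure of one level
-/

set_option autoImplicit false
set_option linter.unusedSectionVars false

namespace Pool.Agent.RR

open Finset Real
open scoped ENNReal
open Pool.Agent.Helper36.LL (FF tern conv)
open Pool.Agent.SP (SS sg mem_SS FF_tern_sum PD Fin0 kap GI Ext conv_tern_apply)
open Pool.Agent.SPG (wp MQ Lev cfa)

variable {G : Type*} [AddCommGroup G] [DecidableEq G]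

/-- The partition function over signed sets. -/
theorem lv_gas {P Y : Finset G} (hY : Y ⊆ P) {p : ℝ≥0∞} (hp0 : p ≠ 0) (hp : p ≤ 2⁻¹) {η : ℝ}
    (hη : 0 < η) (hη2 : η ≤ p.toReal ^ 2) {E U : G → ℝ≥0∞} (hE : GI E) (hE0 : Fin0 E)
    (hEU : Ext E U) (hU : PD U) (hU0 : Fin0 U) {e e' : ℝ} (he0 : 0 ≤ e)
    (hact : ∀ v ∈ P, (1 - e') * (FF (fun _ => tern p) P U 0).toReal ≤
      (FF (fun _ => tern p) (P.erase v) U 0).toReal)
    (he : (2 * log p.toReal - log η) * e' + 4 * η ≤ e) {f : ℕ → ℝ} (hf00 : f 0 = 0)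
    (hf0 : ∀ n, 0 ≤ f n)
    (hf : ∀ T ∈ SS Y, (T.1 ∪ T.2).Nonempty →
      f (T.1 ∪ T.2).card ≤ kap (FF (fun _ => tern p) P U) (sg T.1 T.2))
    {A κ H : ℕ → ℝ} (S : Sched (-log p.toReal) e f A κ H) (J : ℕ) (hκ : 0 < κ J) (g : G) :
    ∑ T ∈ SS Y, exp (-A J) ^ (T.1 ∪ T.2).card *
      ((E (g - sg T.1 T.2)).toReal / (E 0).toReal) ^ (κ J) ≤
      exp ((2 * exp (-H J) + 2 * κ J * η) * Y.card) := by
  classical
  have hpt : p ≠ ⊤ := ne_top_of_le_ne_top (by norm_num) hp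
  have hUt : ∀ g, U g ≠ ⊤ := fun g => ne_top_of_le_ne_top hU0.2 (hU.le_zero g)
  have hp1 : p.toReal ≤ 1 := by
    have h1 : p.toReal ≤ (2⁻¹ : ℝ≥0∞).toReal := ENNReal.toReal_mono (by norm_num) hp
    have h2 : (2⁻¹ : ℝ≥0∞).toReal = 2⁻¹ := by norm_num
    rw [h2] at h1
    linarith
  have hpp : 0 < p.toReal := ENNReal.toReal_pos hp0 hpt
  have hη1 : η ≤ p.toReal := by nlinarith
  have hok := gs_ok P hp0 hp hη hη1 hU hU0
  have hE0' : 0 < (E 0).toReal := ENNReal.toReal_pos hE0.1 hE0.2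
  set L := lb hY with hL
  set Q := gs P p η U with hQ
  have hactv : ∀ v, ∑ c ∈ bx {v // v ∈ P} 1, Q.g0 c * (if c v = 0 then 0 else 1) ≤ e' :=
    fun v => gs_act hp0 hp hη hη1 hU hU0 v (hact v.1 v.2)
  have hthr : ∀ K, L.Pr K → f K.card ≤ 1 - Q.W (Q.s (L.dg K)) / Q.W 0 := by
    intro K hK
    have hT := kT_SS hK
    have hc := kT_card (K := K)
    have hs : Q.s (L.dg K) = sg (kT K).1 (kT K).2 := kT_s K
    have hcard : ((kT K).1 ∪ (kT K).2).card = K.card := by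
      rw [Finset.card_union_of_disjoint (mem_SS.1 hT).2.2, hc]
    rcases Finset.eq_empty_or_nonempty K with h0 | h0
    · rw [h0, Finset.card_empty, hf00]
      have h1 := hok.pd (Q.s (L.dg ∅))
      have h2 := hok.Z0
      have h3 : Q.W (Q.s (L.dg ∅)) / Q.W 0 ≤ 1 := by
        rw [div_le_one h2]
        exact h1
      linarith
    · have hne : ((kT K).1 ∪ (kT K).2).Nonempty := by
        rw [← Finset.card_pos, hcard, Finset.card_pos]
        exact h0
      have h1 := hf (kT K) hT hne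
      rw [hcard] at h1
      unfold kap at h1
      rw [hs, hQ, gs_W P hpt hUt, gs_W P hpt hUt]
      exact h1
  set Tt : Finset {v // v ∈ P} := univ.filter (fun v => v.1 ∈ Y) with hTt
  have hTc : Tt.card = Y.card := by
    rw [hTt]
    refine Finset.card_bij (fun v _ => v.1) ?_ ?_ ?_
    · intro v hv
      exact (Finset.mem_filter.1 hv).2
    · intro v _ w _ e
      exact Subtype.ext e
    · intro x hx
      exact ⟨⟨x, hY hx⟩, Finset.mem_filter.2 ⟨Finset.mem_univ _, hx⟩, rfl⟩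
  have hst : ∀ a, L.st a ∈ Tt := fun a => Finset.mem_filter.2 ⟨Finset.mem_univ _, a.1.2⟩
  have hch := Gs.chan (P := Q) hok L hη2 hactv hf0 hthr he hst
    (E := fun g => (E g).toReal) hE0' (fun x h => gi_real hE hE0 hEU hUt x h) g
  have hlv := tower_lv hch (by
    have := log_nonpos hpp.le hp1
    show 0 ≤ -log p.toReal
    linarith) he0 hf00 hf0 S J
  have hcardα : (Fintype.card ({v // v ∈ Y} × Bool) : ℝ) = 2 * Y.card := by
    rw [Fintype.card_prod, Fintype.card_bool, Fintype.card_coe]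
    push_cast
    ring
  rw [hcardα] at hlv
  -- from signed sets to labels
  have hκη : exp (κ J * (2 * η * Y.card)) * exp (2 * Y.card * exp (-H J)) =
      exp ((2 * exp (-H J) + 2 * κ J * η) * Y.card) := by
    rw [← exp_add]
    congr 1
    ring
  rw [← hκη]
  refine le_trans ?_ (mul_le_mul_of_nonneg_left hlv (exp_pos _).le)
  rw [Finset.mul_sum]
  set F : Finset ({v // v ∈ Y} × Bool) → ℝ := fun X => exp (κ J * (2 * η * Y.card)) *
    exp (-(A J * X.card + κ J * (-log ((E (g - Q.s (L.dg X))).toReal / (E 0).toReal) +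
      2 * Q.η * Tt.card))) with hF
  have hterm : ∀ T ∈ SS Y, exp (-A J) ^ (T.1 ∪ T.2).card *
      ((E (g - sg T.1 T.2)).toReal / (E 0).toReal) ^ (κ J) =
      if 0 < (E (g - Q.s (L.dg (tK Y T)))).toReal then F (tK Y T) else 0 := by
    intro T hT
    have e1 : Q.s (L.dg (tK Y T)) = sg T.1 T.2 := by
      rw [hQ, hL, kT_s, kT_tK hT]
    have e2 : (tK Y T).card = (T.1 ∪ T.2).card := by
      rw [← kT_card, kT_tK hT, Finset.card_union_of_disjoint (mem_SS.1 hT).2.2]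
    simp only [hF]
    rw [e1, e2]
    split_ifs with h0
    · have h1 : 0 < (E (g - sg T.1 T.2)).toReal / (E 0).toReal := div_pos h0 hE0'
      rw [rpow_def_of_pos h1, ← exp_nat_mul, ← exp_add, ← exp_add, hTc]
      congr 1
      show _ = κ J * (2 * η * Y.card) + -(A J * (T.1 ∪ T.2).card + κ J *
        (-log ((E (g - sg T.1 T.2)).toReal / (E 0).toReal) + 2 * η * Y.card))
      ring
    · have h1 : (E (g - sg T.1 T.2)).toReal = 0 :=
        le_antisymm (not_lt.1 h0) ENNReal.toReal_nonneg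
      rw [h1, zero_div, zero_rpow hκ.ne', mul_zero]
  rw [Finset.sum_congr rfl hterm, ← Finset.sum_filter]
  refine le_trans (le_of_eq ?_) (Finset.sum_le_sum_of_subset_of_nonneg
    (s := ((SS Y).filter (fun T => 0 < (E (g - Q.s (L.dg (tK Y T)))).toReal)).image (tK Y))
    ?_ fun X _ _ => (mul_pos (exp_pos _) (exp_pos _)).le)
  · rw [Finset.sum_image]
    intro T hT T' hT' e
    rw [Finset.mem_coe, Finset.mem_filter] at hT hT'
    rw [← kT_tK hT.1, ← kT_tK hT'.1, e]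
  · intro X hX
    obtain ⟨T, hT, rfl⟩ := Finset.mem_image.1 hX
    rw [Finset.mem_filter] at hT
    exact Finset.mem_filter.2 ⟨Finset.mem_univ _, tK_Pr hT.1, hT.2⟩

/-- The thresholds of a level. -/
noncomputable def ffn (a k n : ℕ) : ℝ := if 1 ≤ n ∧ n ≤ 2 ^ k then cfa a / (n : ℝ) ^ 11 else 0

theorem ffn_zero (a k : ℕ) : ffn a k 0 = 0 := by
  unfold ffn
  rw [if_neg (by omega)]

theorem ffn_nonneg (a k n : ℕ) : 0 ≤ ffn a k n := by
  unfold ffn cfa
  split_ifs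
  · positivity
  · exact le_rfl

theorem wp_toReal (a : ℕ) : (wp a).toReal = (2 ^ (a + 4))⁻¹ := by
  unfold wp
  rw [ENNReal.toReal_inv, ENNReal.toReal_pow, ENNReal.toReal_ofNat]

theorem wp_ne_zero (a : ℕ) : wp a ≠ 0 := by
  unfold wp
  exact ENNReal.inv_ne_zero.2 (ENNReal.pow_ne_top (by norm_num))

theorem wp_le_half (a : ℕ) : wp a ≤ 2⁻¹ := by
  unfold wp
  refine ENNReal.inv_le_inv.2 ?_
  calc (2 : ℝ≥0∞) = 2 ^ 1 := (pow_one _).symm
    _ ≤ 2 ^ (a + 4) := pow_le_pow_right₀ (by norm_num) (by omega)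

theorem log_wp (a : ℕ) : -log (wp a).toReal = ((a : ℝ) + 4) * log 2 := by
  rw [wp_toReal, log_inv, neg_neg, log_pow]
  push_cast
  ring

theorem twenty_le (k : ℕ) (hk : 8 ≤ k) : 20 * k ≤ 2 ^ k := by
  induction k, hk using Nat.le_induction with
  | base => norm_num
  | succ n hn ih =>
    have h1 : 2 ^ 8 ≤ 2 ^ n := Nat.pow_le_pow_right (by norm_num) hn
    rw [pow_succ]
    omega

theorem exp_two_pow_le (k : ℕ) (hk : 8 ≤ k) : exp (-(2 : ℝ) ^ k) ≤ 1 / 2 ^ (20 * k) := by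
  have h1 : (20 * k : ℝ) ≤ 2 ^ k := by
    exact_mod_cast twenty_le k hk
  have h2 : (1 : ℝ) / 2 ^ (20 * k) = exp (-(20 * k * log 2)) := by
    rw [exp_neg, ← one_div]
    congr 1
    have : (20 * k : ℝ) * log 2 = log 2 * ((20 * k : ℕ) : ℝ) := by
      push_cast
      ring
    rw [this, exp_mul, exp_log (by norm_num), rpow_natCast]
  rw [h2, exp_le_exp]
  have h3 : log 2 ≤ 1 := by
    have := log_two_lt_d9
    linarith
  have h4 : (20 * k : ℝ) * log 2 ≤ 20 * k * 1 := mul_le_mul_of_nonneg_left h3 (by positivity)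
  linarith

/-- The gas of a level and the gas without one site. -/
theorem erase_le {P : Finset G} {p : ℝ≥0∞} (hp : p ≤ 2⁻¹) {U : G → ℝ≥0∞} (hU : PD U)
    (hU0 : Fin0 U) {v : G} (hv : v ∈ P) {e' : ℝ}
    (h : 2 * p.toReal * (FF (fun _ => tern p) (P.erase v) U v).toReal ≤
      e' * (FF (fun _ => tern p) P U 0).toReal) :
    (1 - e') * (FF (fun _ => tern p) P U 0).toReal ≤
      (FF (fun _ => tern p) (P.erase v) U 0).toReal := by
  have hpt : p ≠ ⊤ := ne_top_of_le_ne_top (by norm_num) hp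
  have hM := hU.FF_tern hp (P.erase v)
  have hM0 := hU0.FF_tern hU hp (P.erase v)
  have hMt : ∀ g, FF (fun _ => tern p) (P.erase v) U g ≠ ⊤ := fun g =>
    ne_top_of_le_ne_top hM0.2 (hM.le_zero g)
  have h1 : FF (fun _ => tern p) P U 0 = FF (fun _ => tern p) (P.erase v) U 0 +
      p * FF (fun _ => tern p) (P.erase v) U v + p * FF (fun _ => tern p) (P.erase v) U v := by
    conv_lhs => rw [← Finset.insert_erase hv]
    rw [Pool.Agent.Helper36.LL.FF_insert _ (Finset.notMem_erase v P), conv_tern_apply, zero_sub,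
      zero_add, hM.neg]
  have h2 : (FF (fun _ => tern p) P U 0).toReal =
      (FF (fun _ => tern p) (P.erase v) U 0).toReal +
      2 * p.toReal * (FF (fun _ => tern p) (P.erase v) U v).toReal := by
    rw [h1, ENNReal.toReal_add (ENNReal.add_ne_top.2 ⟨hMt _, ENNReal.mul_ne_top hpt (hMt _)⟩)
      (ENNReal.mul_ne_top hpt (hMt _)), ENNReal.toReal_add (hMt _)
      (ENNReal.mul_ne_top hpt (hMt _)), ENNReal.toReal_mul]
    ring
  linarith

/-- **The pressure of one level**, with the activity as a hypothesis. -/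
theorem level_LV_act {a k : ℕ} (hk : 2 ^ (a + 20) ≤ k) {P : Finset G}
    {E U : G → ℝ≥0∞} (h : Lev a k P E U)
    (hact : ∀ v ∈ P, 2 * (wp a).toReal * (MQ a (P.erase v) U v).toReal ≤
      1 / 2 ^ (20 * k) * (MQ a P U 0).toReal)
    {Y : Finset G} (hY : Y ⊆ P)
    (hthr : ∀ A B : Finset G, A ⊆ Y → B ⊆ Y → Disjoint A B → (A ∪ B).Nonempty →
      (A ∪ B).card ≤ 2 ^ k → cfa a / ((A ∪ B).card : ℝ) ^ 11 ≤ kap (MQ a P U) (sg A B))
    {AA κ H : ℕ → ℝ}
    (S : Sched (((a : ℝ) + 4) * log 2) (1 / 2 ^ (17 * k)) (ffn a k) AA κ H) (J : ℕ)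
    (hκ : 0 < κ J) (g : G) :
    ∑ T ∈ SS Y, exp (-AA J) ^ (T.1 ∪ T.2).card *
      ((E (g - sg T.1 T.2)).toReal / (E 0).toReal) ^ (κ J) ≤
      exp ((2 * exp (-H J) + 2 * κ J * exp (-(2 : ℝ) ^ k)) * Y.card) := by
  have hk0 : a + 20 ≤ k := (Nat.lt_two_pow_self).le.trans hk
  have hη := exp_two_pow_le k (by omega)
  have h2k : (1 : ℝ) ≤ 2 ^ k := one_le_pow₀ (by norm_num)
  have hp := wp_le_half a
  have hpp : 0 < (wp a).toReal := by
    rw [wp_toReal]
    positivity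
  have hp1 : (wp a).toReal ≤ 1 := by
    rw [wp_toReal]
    exact inv_le_one_of_one_le₀ (one_le_pow₀ (by norm_num))
  rw [← log_wp] at S
  refine lv_gas (p := wp a) (η := exp (-(2 : ℝ) ^ k)) (e' := 1 / 2 ^ (20 * k)) hY (wp_ne_zero a)
    hp (exp_pos _) ?_ h.gi h.e0 h.ext h.pd h.u0 (e := 1 / 2 ^ (17 * k)) (by positivity) ?_ ?_
    (ffn_zero a k) (ffn_nonneg a k) ?_ S J hκ g
  · refine hη.trans ?_
    rw [wp_toReal, ← one_div, one_div_pow, ← pow_mul]
    exact one_div_le_one_div_of_le (by positivity) (pow_le_pow_right₀ (by norm_num) (by omega))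
  · intro v hv
    exact erase_le hp h.pd h.u0 hv (hact v hv)
  · have h1 : log (wp a).toReal ≤ 0 := log_nonpos hpp.le hp1
    rw [log_exp]
    have h3 : (1 : ℝ) / 2 ^ (17 * k) = 2 ^ (3 * k) * (1 / 2 ^ (20 * k)) := by
      have : (2 : ℝ) ^ (20 * k) = 2 ^ (3 * k) * 2 ^ (17 * k) := by
        rw [← pow_add]
        congr 1
        ring
      rw [this]
      field_simp
    rw [h3]
    have h4 : (0 : ℝ) < 1 / 2 ^ (20 * k) := by positivity
    have h5 : (2 : ℝ) ^ k + 4 ≤ 2 ^ (3 * k) := by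
      have h6 : (2 : ℝ) ^ (3 * k) = 2 ^ k * 2 ^ (2 * k) := by
        rw [← pow_add]
        congr 1
        ring
      have h7 : (2 : ℝ) ^ 3 ≤ 2 ^ (2 * k) := pow_le_pow_right₀ (by norm_num) (by omega)
      rw [h6]
      nlinarith
    have h6 : (2 * log (wp a).toReal - -(2 : ℝ) ^ k) * (1 / 2 ^ (20 * k)) ≤
        2 ^ k * (1 / 2 ^ (20 * k)) := mul_le_mul_of_nonneg_right (by linarith) h4.le
    have h7 : ((2 : ℝ) ^ k + 4) * (1 / 2 ^ (20 * k)) ≤ 2 ^ (3 * k) * (1 / 2 ^ (20 * k)) :=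
      mul_le_mul_of_nonneg_right h5 h4.le
    linarith
  · intro T hT hne
    have hT' := mem_SS.1 hT
    unfold ffn
    split_ifs with h1
    · exact hthr T.1 T.2 hT'.1 hT'.2.1 hT'.2.2 hne h1.2
    · exact (h.pd.FF_tern hp P).kap_nonneg (h.u0.FF_tern h.pd hp P) _

end Pool.Agent.RR
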