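import Pool.Agent.SP.Lll

/-!
The local lemma for hypergraphs with weights `2⁻ᴿ`.
-/

set_option autoImplicit false

namespace Pool.Agent.RR

open Finset
open Pool.Agent.SP (mono mono_dep mono_card)
open Pool.Agent.Helper14.Sq (DependsOn')
open Pool.Agent.Helper14.Pcf (lll_weights)

/-- The local lemma for hypergraphs, with the weight `2⁻ᴿ`. -/
theorem lll_hyper2 {G : Type*} [DecidableEq G] {R : ℕ} (hR : 1 ≤ R) (𝒢 : Finset (Finset G))
    (h2 : ∀ D ∈ 𝒢, 2 ≤ D.card)
    (h : ∀ v, ∑ D ∈ 𝒢.filter (fun D => v ∈ D), (1 / 2 ^ R : ℝ) ^ D.card ≤ 1 / 4) :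
    ∃ f : G → Fin (2 ^ (2 * R + 2)), ∀ D ∈ 𝒢, ∃ x ∈ D, ∃ y ∈ D, f x ≠ f y := by
  classical
  set X : Finset G := 𝒢.biUnion id with hX
  have hDX : ∀ D ∈ 𝒢, D ⊆ X := fun D hD x hx => Finset.mem_biUnion.2 ⟨D, hD, hx⟩
  set T : Finset G → Finset X := fun D => Finset.univ.filter fun v => (v : G) ∈ D with hT
  have hTcard : ∀ D ∈ 𝒢, (T D).card = D.card := by
    intro D hD
    have : (T D).map ⟨Subtype.val, Subtype.val_injective⟩ = D := by
      ext x
      simp only [hT, Finset.mem_map, Finset.mem_filter, Finset.mem_univ, true_and,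
        Function.Embedding.coeFn_mk]
      constructor
      · rintro ⟨v, hv, rfl⟩; exact hv
      · intro hx; exact ⟨⟨x, hDX D hD hx⟩, hx, rfl⟩
    rw [← Finset.card_map ⟨Subtype.val, Subtype.val_injective⟩, this]
  have key := lll_weights (V := X) (A := Fin (2 ^ (2 * R + 2))) (fun D => mono (Fin (2 ^ (2 * R + 2))) (T D)) T 𝒢
    (fun D _ => mono_dep (T D)) (fun D => (1 / 2 ^ R : ℝ) ^ D.card)
    (fun D _ => by positivity)
    (fun D hD => by
      have h1 := h2 D hD
      have hq : (1 / 2 ^ R : ℝ) ≤ 1 / 2 := by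
        apply one_div_le_one_div_of_le (by norm_num)
        calc (2 : ℝ) = 2 ^ 1 := by norm_num
          _ ≤ 2 ^ R := pow_le_pow_right₀ (by norm_num) hR
      calc (1 / 2 ^ R : ℝ) ^ D.card ≤ (1 / 2 ^ R : ℝ) ^ 1 :=
            pow_le_pow_of_le_one (by positivity) (by linarith) (by omega)
        _ ≤ 1 / 2 := by rw [pow_one]; exact hq)
    (1 / 4)
    (fun v => by
      rw [← Finset.sum_filter]
      have e : (𝒢.filter fun D => v ∈ T D) = 𝒢.filter fun D => (v : G) ∈ D := by
        ext D; simp [hT]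
      rw [e]
      exact h v)
    (fun D hD => by
      have h1 := h2 D hD
      have hc := hTcard D hD
      have hne : (T D).Nonempty := by rw [← Finset.card_pos, hc]; omega
      have h3 := mono_card (A := Fin (2 ^ (2 * R + 2))) hne
      rw [hc] at h3
      have hexp : Real.exp (2 * (1 / 4) * ((T D).card : ℝ)) ≤ 2 ^ D.card := by
        rw [hc]
        have e1 : Real.exp (1 / 2) ≤ 2 := by
          have := Real.exp_one_lt_d9
          have h5 : Real.exp (1 / 2) ^ 2 = Real.exp 1 := by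
            rw [← Real.exp_nat_mul]; norm_num
          nlinarith [Real.exp_pos (1 / 2)]
        calc Real.exp (2 * (1 / 4) * (D.card : ℝ)) = Real.exp (1 / 2) ^ D.card := by
              rw [← Real.exp_nat_mul]; congr 1; ring
          _ ≤ 2 ^ D.card := pow_le_pow_left₀ (Real.exp_pos _).le e1 _
      have h6 : ((mono (Fin (2 ^ (2 * R + 2))) (T D)).card : ℝ) * (2 ^ (2 * R + 2)) ^ (D.card - 1)
          ≤ (Fintype.card (X → Fin (2 ^ (2 * R + 2))) : ℝ) := by
        have h10 := (Nat.cast_le (α := ℝ)).2 h3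
        rw [Fintype.card_fin, Nat.cast_mul, Nat.cast_pow, Nat.cast_pow, Nat.cast_ofNat] at h10
        exact h10
      have h7 : (2 : ℝ) ^ D.card * 2 ^ (R * D.card) ≤ (2 ^ (2 * R + 2)) ^ (D.card - 1) := by
        rw [← pow_add, ← pow_mul]
        refine pow_le_pow_right₀ (by norm_num) ?_
        obtain ⟨n, hn⟩ : ∃ n, D.card = n + 2 := ⟨D.card - 2, by omega⟩
        rw [hn]
        have e1 : n + 2 - 1 = n + 1 := by omega
        rw [e1]
        nlinarith [Nat.zero_le (R * n)]
      have h8 : (1 / 2 ^ R : ℝ) ^ D.card * 2 ^ (R * D.card) = 1 := by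
        rw [pow_mul, ← mul_pow]; norm_num
      set m : ℝ := ((mono (Fin (2 ^ (2 * R + 2))) (T D)).card : ℝ) with hm
      have hm0 : 0 ≤ m := Nat.cast_nonneg _
      have h9 : 0 ≤ (1 / 2 ^ R : ℝ) ^ D.card := by positivity
      calc m * Real.exp (2 * (1 / 4) * ((T D).card : ℝ)) ≤ m * 2 ^ D.card := by gcongr
        _ = (1 / 2 ^ R : ℝ) ^ D.card * (m * (2 ^ D.card * 2 ^ (R * D.card))) := by
            calc m * 2 ^ D.card = ((1 / 2 ^ R : ℝ) ^ D.card * 2 ^ (R * D.card)) * (m * 2 ^ D.card) := by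
                  rw [h8, one_mul]
              _ = _ := by ring
        _ ≤ (1 / 2 ^ R : ℝ) ^ D.card * (m * (2 ^ (2 * R + 2)) ^ (D.card - 1)) := by gcongr
        _ ≤ _ := by gcongr)
  obtain ⟨a, ha⟩ := key
  refine ⟨fun x => if hx : x ∈ X then a ⟨x, hx⟩ else ⟨0, by positivity⟩, fun D hD => ?_⟩
  by_contra hcon
  push Not at hcon
  apply ha D hD
  simp only [mono, Finset.mem_filter, Finset.mem_univ, true_and]
  intro x hx y hy
  have hx' : (x : G) ∈ D := (Finset.mem_filter.1 hx).2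
  have hy' : (y : G) ∈ D := (Finset.mem_filter.1 hy).2
  have h1 := hcon x hx' y hy'
  simpa using h1

end Pool.Agent.RR
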