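import Pool.Agent.RR.Seq

/-!
The sequences of the tower with an explicit constant.
-/

set_option autoImplicit false

namespace Pool.Agent.RR

/-- The sequences of the tower, with the constant `5 r + 200`. -/
theorem sched_explicit {r : ℕ} {b e cf u : ℝ} {k : ℕ} {f : ℕ → ℝ}
    (hb : 1 ≤ b) (he : 0 ≤ e) (hek : e ≤ 1 / 2 ^ (17 * k)) (hCu : (5 * r + 200 : ℝ) ≤ u)
    (hcf : Real.exp (-u) ≤ cf) (hbu : b ≤ u) (huk : u ≤ k)
    (hr : (2 : ℝ) ^ k ≤ Real.exp^[r] u) (hf : ∀ n, 0 ≤ f n)
    (hf' : ∀ n : ℕ, 1 ≤ n → n ≤ 2 ^ k → cf / (n : ℝ) ^ 11 ≤ f n) :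
    ∃ (A κ H : ℕ → ℝ) (J : ℕ), Sched b e f A κ H ∧ 0 ≤ A J ∧ A J ≤ (5 * r + 200) * u ∧
      (2 : ℝ) ^ (10 * k) ≤ κ J ∧ κ J ≤ 2 ^ (12 * k) ∧ (2 : ℝ) ^ (k / 2 + 10) ≤ H J := by
  have hr0 : (0 : ℝ) ≤ r := Nat.cast_nonneg r
  have hu : 4 ≤ u := by linarith
  have hk : 100 ≤ k := by
    have : (100 : ℝ) ≤ k := by linarith
    exact_mod_cast this
  have hK : ∀ i, 0 ≤ sqK b u k i := fun i => by
    have := sqY_pos hu k i
    rw [sqK]
    positivity
  have hY : ∀ i, 0 ≤ sqY u k i := fun i => (sqY_pos hu k i).le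
  have hKr : sqK b u k r ≤ ∑ i ∈ Finset.range (r + 1), sqK b u k i :=
    Finset.single_le_sum (f := fun l => sqK b u k l) (fun l _ => hK l) (by simp)
  have hYr : ∀ i, sqY u k i ≤ ∑ l ∈ Finset.range (i + 1), sqY u k l := fun i =>
    Finset.single_le_sum (f := fun l => sqY u k l) (fun l _ => hY l) (by simp)
  refine ⟨fun j => 100 * u + j * (b + 4), fun j => ∑ i ∈ Finset.range j, sqK b u k i,
    fun j => 100 * u - (b + 2) + ∑ i ∈ Finset.range j, sqY u k i, r + 1, ?_, ?_, ?_, ?_, ?_,
    ?_⟩
  · refine ⟨?_, by simp, ?_, by simp, ?_, ?_, ?_, ?_⟩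
    · intro j
      push_cast
      ring
    · intro j
      simp only [Finset.sum_range_succ]
      linarith [hK j]
    · simp only [Finset.range_zero, Finset.sum_empty]
      linarith
    · intro j
      simp only [Finset.sum_range_succ]
      linarith [hY j]
    · intro j n hn
      simp only [Finset.sum_range_succ]
      have h1 := sq_gain hb hu hcf hf hf' j n hn
      calc _ = sqY u k j := by ring
        _ ≤ n + sqK b u k j * (f n / (1 + 2 * b)) := h1
        _ = _ := by ring
    · intro j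
      have h5 := sqK_e hb hbu he hek hk hu huk j
      have h6 : sqK b u k j * (2 * b *
          Real.exp (-(100 * u - (b + 2) + ∑ i ∈ Finset.range j, sqY u k i))) ≤ 1 / 2 := by
        cases j with
        | zero =>
          have h7 := sqK_zero (k := k) hb hbu hu
          have h8 : -(100 * u - (b + 2) + ∑ i ∈ Finset.range 0, sqY u k i) =
              b + 2 - 100 * u := by
            simp only [Finset.range_zero, Finset.sum_empty]
            ring
          rw [h8]
          exact h7
        | succ i =>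
          refine sqK_succ hb hbu hk hu huk i ?_
          have := hYr i
          linarith
      simp only [Finset.sum_range_succ]
      calc _ = sqK b u k j * ((2 * b + 1) * e) + sqK b u k j * (2 * b *
          Real.exp (-(100 * u - (b + 2) + ∑ i ∈ Finset.range j, sqY u k i))) := by ring
        _ ≤ 1 := by linarith
  · positivity
  · push_cast
    nlinarith
  · refine le_trans ?_ hKr
    rw [sqK, sqY_end hu hr]
    have h3 : (1600 : ℝ) ≤ Real.exp u := by
      have h4 : Real.exp 4 * Real.exp 4 ≤ Real.exp u := by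
        rw [← Real.exp_add]
        exact Real.exp_le_exp.2 (by linarith)
      have h5 := exp_four
      nlinarith
    calc (2 : ℝ) ^ (10 * k) ≤ 2 ^ (5 * k / 6 * 12 + 10) :=
          pow_le_pow_right₀ (by norm_num) (by omega)
      _ = (2 ^ (5 * k / 6)) ^ 12 * 1 * 1024 := by
          rw [pow_add, pow_mul]
          norm_num
      _ ≤ (2 ^ (5 * k / 6)) ^ 12 * (1 + 2 * b) * Real.exp u := by
          gcongr
          · linarith
          · linarith
  · have h2 : ∀ i ∈ Finset.range (r + 1), sqK b u k i ≤ 2 ^ (10 * k) * (3 * u) * Real.exp u := by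
      intro i _
      have hy := sqY_pos hu k i
      have h3 := sqY_pow hu k i
      rw [sqK]
      gcongr
      linarith
    refine (Finset.sum_le_sum h2).trans ?_
    rw [Finset.sum_const, Finset.card_range, nsmul_eq_mul]
    have h3 := sum_bound hk (by linarith) huk
    have h4 : ((r + 1 : ℕ) : ℝ) ≤ u := by
      push_cast
      linarith
    calc ((r + 1 : ℕ) : ℝ) * (2 ^ (10 * k) * (3 * u) * Real.exp u)
        ≤ u * (2 ^ (10 * k) * (3 * u) * Real.exp u) := by gcongr
      _ = 2 ^ (10 * k) * (3 * u ^ 2 * Real.exp u) := by ring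
      _ ≤ 2 ^ (10 * k) * 2 ^ (2 * k) := by gcongr
      _ = 2 ^ (12 * k) := by
        rw [← pow_add]
        congr 1
        ring
  · have h1 := hYr r
    rw [sqY_end hu hr] at h1
    have h2 : 0 ≤ 100 * u - (b + 2) := by linarith
    have h3 : (2 : ℝ) ^ (k / 2 + 10) ≤ 2 ^ (5 * k / 6) :=
      pow_le_pow_right₀ (by norm_num) (by omega)
    linarith

end Pool.Agent.RR
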