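import Mathlib

/-!
The sequences of the uniform form of the theorem: weights, lengths and numbers of classes.
-/

set_option autoImplicit false

namespace Pool.Agent.RR

open Finset

/-- The constant of the schedule in round `i` (with `r = i + 2`). -/
def cU (i : ℕ) : ℕ := 5 * (i + 2) + 200

/-- The exponent of the weight of the pressure in round `i`. -/
def aU : ℕ → ℕ
  | 0 => 2
  | (i + 1) => 2 * (cU i * (aU i + cU i) + 1)

/-- The exponent of the lengths in round `i`. -/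
def kU : ℕ → ℕ
  | 0 => 2 ^ 60
  | (i + 1) => 2 ^ (kU i / 3)

theorem sqU (n : ℕ) (hn : 7 ≤ n) : 2 * n ^ 2 ≤ 2 ^ n := by
  induction n, hn using Nat.le_induction with
  | base => norm_num
  | succ n hn ih =>
    have h1 : (n + 1) ^ 2 ≤ 2 * n ^ 2 := by nlinarith
    calc 2 * (n + 1) ^ 2 ≤ 2 * (2 * n ^ 2) := Nat.mul_le_mul_left _ h1
      _ ≤ 2 * 2 ^ n := Nat.mul_le_mul_left _ ih
      _ = 2 ^ (n + 1) := by ring

theorem kU_ge (i : ℕ) : 2 ^ 60 ≤ kU i := by
  induction i with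
  | zero => exact le_refl _
  | succ i ih =>
    unfold kU
    refine Nat.pow_le_pow_right (by norm_num) ?_
    have : 180 ≤ kU i := le_trans (by norm_num) ih
    omega

theorem aU_ge (i : ℕ) : 2 ≤ aU i := by
  cases i with
  | zero => exact le_refl _
  | succ i =>
    unfold aU
    omega

theorem cU_ge (i : ℕ) : 210 ≤ cU i := by unfold cU; omega

theorem aU_step (i : ℕ) : aU (i + 1) + cU (i + 1) ≤ 3 * (cU i * (aU i + cU i)) := by
  have h1 : aU (i + 1) = 2 * (cU i * (aU i + cU i) + 1) := rfl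
  have h2 : cU (i + 1) = cU i + 5 := by unfold cU; ring
  have h3 := cU_ge i
  have h4 : cU i * 210 ≤ cU i * (aU i + cU i) := Nat.mul_le_mul_left _ (by omega)
  rw [h1, h2]
  omega

theorem aU_kU (i : ℕ) : 100 * (aU i + cU i) ^ 2 ≤ kU i := by
  induction i with
  | zero =>
    have h1 : aU 0 = 2 := rfl
    have h2 : cU 0 = 210 := rfl
    have h3 : kU 0 = 2 ^ 60 := rfl
    rw [h1, h2, h3]
    norm_num
  | succ i ih =>
    have h1 := aU_step i
    set s := aU i + cU i with hs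
    have h2 : cU i ≤ s := by omega
    have h3 : aU (i + 1) + cU (i + 1) ≤ 3 * s ^ 2 := by
      refine h1.trans ?_
      rw [sq]
      exact Nat.mul_le_mul_left _ (Nat.mul_le_mul_right _ h2)
    have h4 := kU_ge i
    set j := kU i / 3 with hj
    have hj7 : 7 ≤ j := by
      have : 180 ≤ kU i := le_trans (by norm_num) h4
      omega
    have h5 : kU i ≤ 4 * j := by omega
    have h6 : 25 * s ^ 2 ≤ j := by omega
    have h7 := sqU j hj7
    have h8 : kU (i + 1) = 2 ^ j := rfl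
    rw [h8]
    have h9 : (25 * s ^ 2) ^ 2 ≤ j ^ 2 := Nat.pow_le_pow_left h6 2
    calc 100 * (aU (i + 1) + cU (i + 1)) ^ 2 ≤ 100 * (3 * s ^ 2) ^ 2 :=
          Nat.mul_le_mul_left _ (Nat.pow_le_pow_left h3 2)
      _ = 900 * (s ^ 2) ^ 2 := by ring
      _ ≤ 2 * (25 * s ^ 2) ^ 2 := by nlinarith [Nat.zero_le ((s ^ 2) ^ 2)]
      _ ≤ 2 * j ^ 2 := Nat.mul_le_mul_left _ h9
      _ ≤ 2 ^ j := h7

theorem aU_pow (i : ℕ) : 2 ^ (aU i + 20) ≤ kU i := by
  cases i with
  | zero =>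
    have h1 : aU 0 = 2 := rfl
    have h3 : kU 0 = 2 ^ 60 := rfl
    rw [h1, h3]
    norm_num
  | succ i =>
    have h8 : kU (i + 1) = 2 ^ (kU i / 3) := rfl
    rw [h8]
    refine Nat.pow_le_pow_right (by norm_num) ?_
    have h1 := aU_step i
    have h2 := aU_kU i
    have h3 := kU_ge i
    set s := aU i + cU i with hs
    have h4 : cU i ≤ s := by omega
    have h5 : cU i * s ≤ s ^ 2 := by rw [sq]; exact Nat.mul_le_mul_right _ h4
    have h6 : 180 ≤ kU i := le_trans (by norm_num) h3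
    omega

theorem uU_le (i : ℕ) : aU i + cU i ≤ kU i := by
  have h1 := aU_kU i
  have h2 := cU_ge i
  nlinarith

theorem exp_iter_mono (n : ℕ) : Monotone (Real.exp^[n]) := by
  induction n with
  | zero => exact monotone_id
  | succ n ih =>
    rw [Function.iterate_succ']
    exact Real.exp_monotone.comp ih

theorem two_pow_le_exp (n : ℕ) : (2 : ℝ) ^ n ≤ Real.exp n := by
  have h1 : (2 : ℝ) ≤ Real.exp 1 := by
    have := Real.add_one_le_exp (1 : ℝ)
    linarith
  calc (2 : ℝ) ^ n ≤ Real.exp 1 ^ n := pow_le_pow_left₀ (by norm_num) h1 n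
    _ = Real.exp n := by rw [← Real.exp_nat_mul, mul_one]

theorem kU_exp (i : ℕ) :
    (2 : ℝ) ^ kU i ≤ Real.exp^[i + 2] ((aU i + cU i : ℕ) : ℝ) := by
  induction i with
  | zero =>
    have h1 : aU 0 = 2 := rfl
    have h2 : cU 0 = 210 := rfl
    have h3 : kU 0 = 2 ^ 60 := rfl
    rw [h1, h2, h3]
    refine (two_pow_le_exp _).trans ?_
    rw [show Real.exp^[0 + 2] (((2 + 210 : ℕ) : ℝ)) = Real.exp (Real.exp ((2 + 210 : ℕ) : ℝ))
      from rfl]
    refine Real.exp_le_exp.2 ?_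
    have h4 := two_pow_le_exp 60
    have h5 : Real.exp ((60 : ℕ) : ℝ) ≤ Real.exp ((2 + 210 : ℕ) : ℝ) := by
      refine Real.exp_le_exp.2 ?_
      norm_num
    have h6 : ((2 ^ 60 : ℕ) : ℝ) = (2 : ℝ) ^ 60 := by norm_num
    rw [h6]
    exact h4.trans h5
  | succ i ih =>
    have h8 : kU (i + 1) = 2 ^ (kU i / 3) := rfl
    rw [h8]
    refine (two_pow_le_exp _).trans ?_
    have e : Real.exp^[i + 1 + 2] ((aU (i + 1) + cU (i + 1) : ℕ) : ℝ) =
        Real.exp (Real.exp^[i + 2] ((aU (i + 1) + cU (i + 1) : ℕ) : ℝ)) := by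
      rw [show i + 1 + 2 = (i + 2) + 1 by ring, Function.iterate_succ_apply']
    rw [e]
    refine Real.exp_le_exp.2 ?_
    have h1 : aU i + cU i ≤ aU (i + 1) + cU (i + 1) := by
      have h2 : aU (i + 1) = 2 * (cU i * (aU i + cU i) + 1) := rfl
      have h3 := cU_ge i
      have h4 : 1 * (aU i + cU i) ≤ cU i * (aU i + cU i) := Nat.mul_le_mul_right _ (by omega)
      omega
    have h5 : ((2 ^ (kU i / 3) : ℕ) : ℝ) ≤ (2 : ℝ) ^ kU i := by
      push_cast
      exact pow_le_pow_right₀ (by norm_num) (Nat.div_le_self _ _)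
    refine h5.trans (ih.trans ?_)
    exact exp_iter_mono _ (by exact_mod_cast h1)

/-- The total exponent of the number of classes, from round `i` on, with `m` rounds. -/
def SU : ℕ → ℕ → ℕ
  | i, 0 => 4 * aU i + 27
  | i, (m + 1) => (4 * aU i + 27) + SU (i + 1) m

theorem sU_bound (i : ℕ) : aU i + cU i ≤ (630 * (i + 1)) ^ (i + 1) := by
  induction i with
  | zero =>
    have h1 : aU 0 = 2 := rfl
    have h2 : cU 0 = 210 := rfl
    rw [h1, h2]
    norm_num
  | succ i ih =>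
    have h1 := aU_step i
    have h2 : cU i ≤ 210 * (i + 1) := by unfold cU; omega
    calc aU (i + 1) + cU (i + 1) ≤ 3 * (cU i * (aU i + cU i)) := h1
      _ ≤ 3 * ((210 * (i + 1)) * (630 * (i + 1)) ^ (i + 1)) :=
          Nat.mul_le_mul_left _ (Nat.mul_le_mul h2 ih)
      _ = (630 * (i + 1)) * (630 * (i + 1)) ^ (i + 1) := by ring
      _ ≤ (630 * (i + 1 + 1)) * (630 * (i + 1 + 1)) ^ (i + 1) := by gcongr <;> omega
      _ = (630 * (i + 1 + 1)) ^ (i + 1 + 1) := by ring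

theorem SU_le (m : ℕ) : ∀ i, SU i m ≤ (m + 1) * (5 * (630 * (i + m + 1)) ^ (i + m + 1)) := by
  induction m with
  | zero =>
    intro i
    have h1 := sU_bound i
    have h2 := cU_ge i
    unfold SU
    simp only [Nat.add_zero, zero_add, one_mul]
    omega
  | succ m ih =>
    intro i
    have h1 := sU_bound i
    have h2 := cU_ge i
    have h3 := ih (i + 1)
    have e : i + 1 + m + 1 = i + (m + 1) + 1 := by ring
    rw [e] at h3
    unfold SU
    have h4 : (630 * (i + 1)) ^ (i + 1) ≤ (630 * (i + (m + 1) + 1)) ^ (i + (m + 1) + 1) := by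
      calc (630 * (i + 1)) ^ (i + 1) ≤ (630 * (i + (m + 1) + 1)) ^ (i + 1) := by
            gcongr; omega
        _ ≤ _ := Nat.pow_le_pow_right (by omega) (by omega)
    generalize (630 * (i + (m + 1) + 1)) ^ (i + (m + 1) + 1) = X at *
    have h5 : 4 * aU i + 27 ≤ 5 * X := by omega
    calc (4 * aU i + 27) + SU (i + 1) m ≤ 5 * X + (m + 1) * (5 * X) := Nat.add_le_add h5 h3
      _ = (m + 1 + 1) * (5 * X) := by ring

theorem SU_zero_le (m : ℕ) : SU 0 m ≤ (6300 * (m + 1)) ^ (m + 1) := by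
  have h1 := SU_le m 0
  rw [Nat.zero_add] at h1
  refine h1.trans ?_
  have h2 : m + 1 ≤ 2 ^ (m + 1) := Nat.lt_two_pow_self.le
  have h3 : 5 ≤ 5 ^ (m + 1) := by
    calc 5 = 5 ^ 1 := by norm_num
      _ ≤ 5 ^ (m + 1) := Nat.pow_le_pow_right (by norm_num) (by omega)
  have e : 6300 * (m + 1) = 2 * (5 * (630 * (m + 1))) := by ring
  rw [e, mul_pow 2, mul_pow 5]
  exact Nat.mul_le_mul h2 (Nat.mul_le_mul_right _ h3)

/-- The tower of `2`s. -/
def tow2 : ℕ → ℕ
  | 0 => 1
  | (m + 1) => 2 ^ tow2 m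

theorem tow2_le (m : ℕ) : 3 * (tow2 m + 6) ≤ kU m ∧ 1 ≤ tow2 m := by
  induction m with
  | zero =>
    have h1 : tow2 0 = 1 := rfl
    have h3 : kU 0 = 2 ^ 60 := rfl
    rw [h1, h3]
    norm_num
  | succ m ih =>
    have h1 : tow2 (m + 1) = 2 ^ tow2 m := rfl
    have h8 : kU (m + 1) = 2 ^ (kU m / 3) := rfl
    rw [h1, h8]
    have h2 : 2 ^ (tow2 m + 6) ≤ 2 ^ (kU m / 3) := Nat.pow_le_pow_right (by norm_num) (by omega)
    have h3 : 1 ≤ 2 ^ tow2 m := Nat.one_le_two_pow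
    rw [pow_add] at h2
    generalize 2 ^ (kU m / 3) = X at *
    generalize 2 ^ tow2 m = Y at *
    omega

theorem tow2_le' (m : ℕ) : tow2 (m + 1) ≤ 2 ^ kU m := by
  have h := (tow2_le m).1
  have h1 : tow2 (m + 1) = 2 ^ tow2 m := rfl
  rw [h1]
  exact Nat.pow_le_pow_right (by norm_num) (by omega)

end Pool.Agent.RR
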