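import Pool.Agent.RR.LevelLV
import Pool.Agent.RR.Cls
import Pool.Agent.RR.SeqU
import Pool.Agent.RR.UniSeq
import Pool.Agent.SP.Moves
import Pool.Agent.SPG.Own
import Pool.Agent.SPG.Main

/-!
One round with explicit constants.
-/

set_option autoImplicit false

namespace Pool.Agent.RR

open Finset
open scoped ENNReal
open Pool.Agent.Helper36.LL (conv dlt FF gw tern)
open Pool.Agent.SP (SS sg kap PD GI Ext Fin0)
open Pool.Agent.SP.Mv (FF_mono)
open Pool.Agent.SPG (lvl xd cfa wq wp MQ Lev)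

variable {G : Type*} [AddCommGroup G] [DecidableEq G]

/-! ### the costs -/

theorem neg_log_le {y : ℝ} (h0 : 0 ≤ y) (h : y ≤ 1 / 2) : -Real.log (1 - y) ≤ 2 * y := by
  have h1 : 0 < 1 - y := by linarith
  have h2 := Real.one_sub_inv_le_log_of_pos h1
  have h3 : (1 - y)⁻¹ ≤ 1 + 2 * y := by
    rw [inv_le_comm₀ h1 (by linarith), inv_eq_one_div, div_le_iff₀ (by linarith)]
    nlinarith
  linarith

theorem acc_le {κ : ℝ} (hκ : 0 ≤ κ) {k : ℕ} (hk : 1 ≤ k) (s : ℕ) :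
    acc κ (xd k) s ≤ κ * (4 / 2 ^ (20 * k)) * (1 - 1 / 2 ^ s) ∧
    acc κ (xd k) (s + 1) ≤ κ * (4 / 2 ^ (20 * k)) * (1 - 1 / 2 ^ (s + 1)) := by
  have hp : (0 : ℝ) < 2 ^ (20 * k) := by positivity
  induction s with
  | zero =>
    constructor
    · simp [acc]
    · simp only [acc, zero_add, pow_one]
      have : (0 : ℝ) ≤ κ * (4 / 2 ^ (20 * k)) := by positivity
      nlinarith
  | succ s ih =>
    refine ⟨ih.2, ?_⟩
    have e : acc κ (xd k) (s + 1 + 1) = acc κ (xd k) s + κ * (-Real.log (xd k (s + 2))) := rfl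
    rw [e]
    have hy : (1 : ℝ) / 2 ^ (20 * k + 2 * s) ≤ 1 / 2 := by
      apply one_div_le_one_div_of_le (by norm_num)
      calc (2 : ℝ) = 2 ^ 1 := by norm_num
        _ ≤ 2 ^ (20 * k + 2 * s) := pow_le_pow_right₀ (by norm_num) (by omega)
    have h1 : -Real.log (xd k (s + 2)) ≤ 2 * (1 / 2 ^ (20 * k + 2 * s)) := by
      unfold xd
      rw [Nat.add_sub_cancel]
      exact neg_log_le (by positivity) hy
    have h2 : (1 : ℝ) / 2 ^ (20 * k + 2 * s) = 1 / 2 ^ (20 * k) * (1 / 2 ^ s) * (1 / 2 ^ s) := by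
      rw [pow_add, two_mul, pow_add]
      field_simp
    have h3 : (1 : ℝ) / 2 ^ s ≤ 1 := by
      rw [div_le_one (by positivity)]
      exact one_le_pow₀ (by norm_num)
    have h4 : (0 : ℝ) < 1 / 2 ^ s := by positivity
    have h5 : (1 : ℝ) / 2 ^ (s + 1 + 1) = 1 / 2 ^ s / 4 := by
      rw [pow_succ, pow_succ]
      field_simp
      norm_num
    have h6 := mul_le_mul_of_nonneg_left h1 hκ
    rw [h2] at h6
    rw [h5]
    have h7 : κ * (2 * (1 / 2 ^ (20 * k) * (1 / 2 ^ s) * (1 / 2 ^ s))) ≤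
        κ * (4 / 2 ^ (20 * k)) * (1 / 2 ^ s * (3 / 4)) := by
      have h8 : κ * (4 / 2 ^ (20 * k)) * (1 / 2 ^ s * (3 / 4)) =
          κ * (1 / 2 ^ (20 * k)) * (1 / 2 ^ s) * 3 := by ring
      have h9 : κ * (2 * (1 / 2 ^ (20 * k) * (1 / 2 ^ s) * (1 / 2 ^ s))) =
          κ * (1 / 2 ^ (20 * k)) * (1 / 2 ^ s) * (2 * (1 / 2 ^ s)) := by ring
      rw [h8, h9]
      refine mul_le_mul_of_nonneg_left (by linarith) (by positivity)
    have h10 := ih.1
    generalize (1 : ℝ) / 2 ^ s = z at *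
    generalize κ * (4 / 2 ^ (20 * k)) = w at *
    nlinarith

theorem acc_le_one {κ : ℝ} (hκ : 0 ≤ κ) {k : ℕ} (hk : 1 ≤ k) (hκ2 : κ ≤ 2 ^ (12 * k)) (s : ℕ) :
    acc κ (xd k) s ≤ 1 := by
  refine (acc_le hκ hk s).1.trans ?_
  have h1 : (0 : ℝ) < 1 / 2 ^ s := by positivity
  have h2 : κ * (4 / 2 ^ (20 * k)) ≤ 1 := by
    rw [← mul_div_assoc, div_le_one (by positivity)]
    calc κ * 4 ≤ 2 ^ (12 * k) * 2 ^ 2 := by
          have : κ * 4 ≤ 2 ^ (12 * k) * 4 := mul_le_mul_of_nonneg_right hκ2 (by norm_num)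
          calc κ * 4 ≤ 2 ^ (12 * k) * 4 := this
            _ = _ := by norm_num
      _ = 2 ^ (12 * k + 2) := by rw [pow_add]
      _ ≤ 2 ^ (20 * k) := pow_le_pow_right₀ (by norm_num) (by omega)
  have h3 : 0 ≤ κ * (4 / 2 ^ (20 * k)) := by positivity
  nlinarith

/-! ### the numbers of the pressure -/

theorem exp_neg_nat_le (n : ℕ) : Real.exp (-(n : ℝ)) ≤ 1 / 2 ^ n := by
  rw [Real.exp_neg, ← one_div]
  exact one_div_le_one_div_of_le (by positivity) (two_pow_le_exp n)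

theorem tau_le {k : ℕ} (hk : 100 ≤ k) {κ H : ℝ} (hκ : κ ≤ 2 ^ (12 * k))
    (hH : (2 : ℝ) ^ (k / 2 + 10) ≤ H) :
    2 * Real.exp (-H) + 2 * κ * Real.exp (-(2 : ℝ) ^ k) ≤ 1 / 2 ^ (60 * 2 ^ (k / 3)) := by
  set y : ℕ := 2 ^ (k / 3) with hy
  have hy1 : 1 ≤ y := Nat.one_le_two_pow
  -- first term
  have a1 : 60 * y + 2 ≤ 2 ^ (k / 2 + 10) := by
    have h1 : 2 ^ (k / 3) ≤ 2 ^ (k / 2) := Nat.pow_le_pow_right (by norm_num) (by omega)
    rw [pow_add]
    norm_num
    omega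
  have h1 : Real.exp (-H) ≤ 1 / 2 ^ (60 * y + 2) := by
    have h2 : Real.exp (-H) ≤ Real.exp (-((60 * y + 2 : ℕ) : ℝ)) := by
      refine Real.exp_le_exp.2 ?_
      have : ((60 * y + 2 : ℕ) : ℝ) ≤ (2 : ℝ) ^ (k / 2 + 10) := by exact_mod_cast a1
      linarith
    exact h2.trans (exp_neg_nat_le _)
  -- second term
  have a2 : 12 * k + (60 * y + 2) ≤ 2 ^ k := by
    have h2 : 2 ^ (k / 3) * 2 ^ (k / 3) * 2 ^ (k / 3) ≤ 2 ^ k := by
      rw [← pow_add, ← pow_add]
      exact Nat.pow_le_pow_right (by norm_num) (by omega)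
    have h3 : 100 ≤ 2 ^ (k / 3) := by
      calc 100 ≤ 2 ^ 7 := by norm_num
        _ ≤ 2 ^ (k / 3) := Nat.pow_le_pow_right (by norm_num) (by omega)
    have h4 : k / 3 < 2 ^ (k / 3) := Nat.lt_two_pow_self
    rw [← hy] at h2 h3 h4
    have h5 : k ≤ 3 * y + 2 := by omega
    have h6 : 100 * y ≤ y * y := Nat.mul_le_mul_right _ h3
    have h7 : 100 * y * 1 ≤ y * y * y := Nat.mul_le_mul h6 hy1
    have h8 : 100 * (100 * y) ≤ y * y * y := by
      calc 100 * (100 * y) ≤ y * (y * y) := Nat.mul_le_mul h3 h6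
        _ = y * y * y := by ring
    omega
  have h2 : 2 * κ * Real.exp (-(2 : ℝ) ^ k) ≤ 2 * (1 / 2 ^ (60 * y + 2)) := by
    have h3 : Real.exp (-(2 : ℝ) ^ k) ≤ 1 / 2 ^ (12 * k + (60 * y + 2)) := by
      have h4 : Real.exp (-(2 : ℝ) ^ k) ≤ Real.exp (-((12 * k + (60 * y + 2) : ℕ) : ℝ)) := by
        refine Real.exp_le_exp.2 ?_
        have : ((12 * k + (60 * y + 2) : ℕ) : ℝ) ≤ (2 : ℝ) ^ k := by exact_mod_cast a2
        linarith
      exact h4.trans (exp_neg_nat_le _)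
    have h6 : κ * Real.exp (-(2 : ℝ) ^ k) ≤ 2 ^ (12 * k) * (1 / 2 ^ (12 * k + (60 * y + 2))) :=
      mul_le_mul hκ h3 (Real.exp_pos _).le (by positivity)
    have h7 : (2 : ℝ) ^ (12 * k) * (1 / 2 ^ (12 * k + (60 * y + 2))) = 1 / 2 ^ (60 * y + 2) := by
      rw [pow_add (2 : ℝ) (12 * k)]
      field_simp
    rw [h7] at h6
    linarith
  have h8 : (1 : ℝ) / 2 ^ (60 * y + 2) = 1 / 2 ^ (60 * y) / 4 := by
    rw [pow_add]
    field_simp
    norm_num
  rw [h8] at h1 h2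
  have h9 : (0 : ℝ) < 1 / 2 ^ (60 * y) := by positivity
  linarith

/-! ### one round -/

theorem cube_le (n : ℕ) (hn : 4 ≤ n) : n ^ 3 ≤ 2 ^ (n + 2) := by
  induction n, hn using Nat.le_induction with
  | base => norm_num
  | succ n hn ih =>
    have h1 : (n + 1) ^ 3 ≤ 2 * n ^ 3 := by
      obtain ⟨m, rfl⟩ : ∃ m, n = m + 4 := ⟨n - 4, by omega⟩
      nlinarith [Nat.zero_le (m ^ 3), Nat.zero_le (m ^ 2), Nat.zero_le m]
    calc (n + 1) ^ 3 ≤ 2 * n ^ 3 := h1
      _ ≤ 2 * 2 ^ (n + 2) := Nat.mul_le_mul_left _ ih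
      _ = 2 ^ (n + 1 + 2) := by ring

theorem cfa_ge (a r : ℕ) : Real.exp (-((a + (5 * r + 200) : ℕ) : ℝ)) ≤ cfa a := by
  refine (exp_neg_nat_le _).trans ?_
  unfold cfa
  refine one_div_le_one_div_of_le (by positivity) ?_
  have h1 := cube_le (a + 4) (by omega)
  have h2 : ((a : ℝ) + 4) ^ 3 ≤ 2 ^ (a + 4 + 2) := by exact_mod_cast h1
  calc (2 : ℝ) ^ 37 * ((a : ℝ) + 4) ^ 3 ≤ 2 ^ 37 * 2 ^ (a + 4 + 2) := by gcongr
    _ = 2 ^ (37 + (a + 4 + 2)) := by rw [pow_add (2 : ℝ) 37]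
    _ ≤ 2 ^ (a + (5 * r + 200)) := pow_le_pow_right₀ (by norm_num) (by omega)

theorem tern_mono {w w' : ℝ≥0∞} (h : w ≤ w') (j : ℤ) : tern w j ≤ tern w' j := by
  unfold tern
  split_ifs
  · exact le_rfl
  · exact h
  · exact le_rfl

/-- **One round.** -/
theorem roundU {a k r : ℕ} (ha : 2 ≤ a) (hk : 2 ^ (a + 20) ≤ k)
    (hu : a + (5 * r + 200) ≤ k)
    (hr : (2 : ℝ) ^ k ≤ Real.exp^[r] ((a + (5 * r + 200) : ℕ) : ℝ))
    {V : Finset G} (hV : SPG.Press a k V) :
    ∃ f : G → Fin (2 ^ (4 * a + 27)), ∀ j,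
      SPG.Press (2 * ((5 * r + 200) * (a + (5 * r + 200)) + 1)) (2 ^ (k / 3))
        (V.filter (fun v => f v = j)) := by
  classical
  have hk20 : 2 ^ 20 ≤ k := by
    refine le_trans ?_ hk
    exact Nat.pow_le_pow_right (by norm_num) (by omega)
  have hk100 : 100 ≤ k := le_trans (by norm_num) hk20
  obtain ⟨W, E, U, f, hW0, hWa, hWf, hLev, hshift, hcol⟩ := SPG.levels ha hk hV
  set u : ℝ := ((a + (5 * r + 200) : ℕ) : ℝ) with hudef
  have haR : (2 : ℝ) ≤ a := by exact_mod_cast ha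
  have hlog : Real.log 2 ≤ 1 := by
    have := Real.log_two_lt_d9
    linarith
  have hlog' : 1 / 2 ≤ Real.log 2 := by
    have := Real.log_two_gt_d9
    linarith
  have hu1 : (a : ℝ) + (5 * r + 200) = u := by
    rw [hudef]
    push_cast
    ring
  have hr0 : (0 : ℝ) ≤ r := Nat.cast_nonneg r
  -- the schedule
  obtain ⟨A, κ, H, J, hS, hA0, hAJ, hκ1, hκ2, hH⟩ := sched_explicit (r := r)
    (b := ((a : ℝ) + 4) * Real.log 2) (e := 1 / 2 ^ (17 * k)) (cf := cfa a) (u := u) (k := k)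
    (f := ffn a k) (by nlinarith) (by positivity) le_rfl (by linarith) (cfa_ge a r)
    (by nlinarith) (by rw [hudef]; exact_mod_cast hu) hr (ffn_nonneg a k) (by
      intro n h1 h2
      unfold ffn
      rw [if_pos ⟨h1, h2⟩])
  have hκ0 : 0 < κ J := lt_of_lt_of_le (by positivity) hκ1
  -- the colouring
  set ff : G → Fin 2 × Fin (2 ^ (4 * a + 26)) := fun v =>
    (⟨lvl W v % 2, Nat.mod_lt _ (by norm_num)⟩, f (lvl W v) v) with hff
  have ecard : 2 * 2 ^ (4 * a + 26) = 2 ^ (4 * a + 27) := by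
    rw [show 4 * a + 27 = (4 * a + 26) + 1 by ring, pow_succ]
    ring
  refine ⟨fun v => Fin.cast ecard (finProdFinEquiv (ff v)), fun j => ?_⟩
  set X := V.filter (fun v => Fin.cast ecard (finProdFinEquiv (ff v)) = j) with hX
  -- members of the class have the same data
  have hsame : ∀ x ∈ X, ∀ y ∈ X, ff x = ff y := by
    intro x hx y hy
    have h1 := (mem_filter.1 hx).2
    have h2 := (mem_filter.1 hy).2
    have h3 := Fin.cast_injective _ (h1.trans h2.symm)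
    exact finProdFinEquiv.injective h3
  intro Y hY
  rcases X.eq_empty_or_nonempty with hXe | ⟨x₀, hx₀⟩
  · have hYe : Y = ∅ := by
      rw [← subset_empty, ← hXe]
      exact hY
    rw [hYe]
    simp [dlt]
  set ε := lvl W x₀ % 2 with hε
  have hpar : ∀ x ∈ X, lvl W x % 2 = ε := by
    intro x hx
    have := hsame x hx x₀ hx₀
    simp only [hff, Prod.mk.injEq, Fin.mk.injEq] at this
    exact this.1
  have hmono : ∀ x ∈ X, ∀ y ∈ X, lvl W x = lvl W y → f (lvl W x) x = f (lvl W x) y := by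
    intro x hx y hy hxy
    have := hsame x hx y hy
    simp only [hff, Prod.mk.injEq] at this
    rw [← hxy] at this
    exact this.2
  have key := class_pressure (V := V) (W := W) hW0 hWa hWf (E := fun i g => (E i g).toReal)
    (fun i g => ENNReal.toReal_nonneg)
    (fun i => ENNReal.toReal_pos (hLev i).e0.1 (hLev i).e0.2)
    (x := xd k) (by
      intro s
      unfold xd
      have h1 : (1 : ℝ) / 2 ^ (20 * k + 2 * (s - 2)) ≤ 1 / 2 := by
        apply one_div_le_one_div_of_le (by norm_num)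
        calc (2 : ℝ) = 2 ^ 1 := by norm_num
          _ ≤ 2 ^ (20 * k + 2 * (s - 2)) := pow_le_pow_right₀ (by norm_num) (by omega)
      linarith)
    (κ := κ J) hκ0.le (fun s => acc_le_one hκ0.le (by omega) hκ2 s)
    (w := Real.exp (-A J)) (τ := 2 * Real.exp (-H J) + 2 * κ J * Real.exp (-(2 : ℝ) ^ k))
    (Real.exp_pos _).le (X := X) (filter_subset _ _) (ε := ε) (Nat.mod_lt _ (by norm_num))
    (by
      intro i hi
      rw [Finset.disjoint_left]
      intro x hx hxi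
      obtain ⟨h1, h2⟩ := mem_sdiff.1 hxi
      have h3 := lvl_eq hWa h1 h2
      have h4 := hpar x hx
      rw [h3] at h4
      exact hi h4)
    hshift
    (by
      intro i Y' hY' g
      refine level_LV_act hk (hLev i) (fun v hv => SPG.Lev.act ha hk100 (hLev i) hv)
        (hY'.trans inter_subset_right) ?_ hS J hκ0 g
      intro B C hB hC hBC hne hc
      have hsub : B ∪ C ⊆ Y' := union_subset hB hC
      refine hcol i B C ((hB.trans hY').trans inter_subset_right)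
        ((hC.trans hY').trans inter_subset_right) hBC hne hc ?_
      intro x hx y hy
      have hx' := mem_inter.1 (hY' (hsub hx))
      have hy' := mem_inter.1 (hY' (hsub hy))
      obtain ⟨x1, x2⟩ := mem_sdiff.1 hx'.2
      obtain ⟨y1, y2⟩ := mem_sdiff.1 hy'.2
      have ex := lvl_eq hWa x1 x2
      have ey := lvl_eq hWa y1 y2
      have := hmono x hx'.1 y hy'.1 (ex.trans ey.symm)
      rwa [ex] at this)
    hY
  -- comparison of the weights and of the pressures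
  have hweight : wq (2 * ((5 * r + 200) * (a + (5 * r + 200)) + 1)) ≤
      ENNReal.ofReal (Real.exp (-A J) * Real.exp (-1)) := by
    set a' := 2 * ((5 * r + 200) * (a + (5 * r + 200)) + 1) with ha'
    have e1 : wq a' = ENNReal.ofReal (1 / 2 ^ a') := by
      unfold SPG.wq
      rw [ENNReal.ofReal_div_of_pos (by positivity), ENNReal.ofReal_one,
        ENNReal.ofReal_pow (by norm_num), one_div]
      simp
    rw [e1]
    refine ENNReal.ofReal_le_ofReal ?_
    rw [← Real.exp_add]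
    have e2 : (1 : ℝ) / 2 ^ a' = Real.exp (-(a' * Real.log 2)) := by
      rw [Real.exp_neg, ← one_div, mul_comm, Real.exp_mul, Real.exp_log (by norm_num),
        Real.rpow_natCast]
    rw [e2]
    refine Real.exp_le_exp.2 ?_
    have e3 : (a' : ℝ) = 2 * ((5 * r + 200) * u + 1) := by
      rw [ha', ← hu1]
      push_cast
      ring
    have h2 : (a' : ℝ) * (1 / 2) ≤ a' * Real.log 2 :=
      mul_le_mul_of_nonneg_left hlog' (Nat.cast_nonneg _)
    rw [e3] at h2
    rw [e3]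
    linarith
  refine le_trans (FF_mono (fun _ _ j => tern_mono hweight j) (fun _ => le_rfl) 0)
    (key.trans ?_)
  refine ENNReal.ofReal_le_ofReal (Real.exp_le_exp.2 ?_)
  have h1 := tau_le hk100 hκ2 hH
  calc (2 * Real.exp (-H J) + 2 * κ J * Real.exp (-(2 : ℝ) ^ k)) * (Y.card : ℝ)
      ≤ 1 / 2 ^ (60 * 2 ^ (k / 3)) * Y.card :=
        mul_le_mul_of_nonneg_right h1 (Nat.cast_nonneg _)
    _ = _ := by rw [one_div, inv_mul_eq_div]

end Pool.Agent.RR
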