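import Pool.Agent.RR.RoundU
import Pool.Agent.SP.Press
import Pool.Agent.S12.Cpt

/-!
All rounds, with explicit constants; the theorem for groups.
-/

set_option autoImplicit false

universe u₀

namespace Pool.Agent.RR

open Finset
open scoped ENNReal
open Pool.Agent.SP (SS sg kap Fin0)

/-- **`m` rounds.** -/
theorem roundsU (m : ℕ) : ∀ i : ℕ, ∀ (G : Type u₀) [AddCommGroup G] [DecidableEq G]
    (V : Finset G), SPG.Press (aU i) (kU i) V →
    ∃ f : G → Fin (2 ^ SU i m), ∀ X Y : Finset G, X ⊆ V → Y ⊆ V → Disjoint X Y →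
      (X ∪ Y).Nonempty → (X ∪ Y).card ≤ 2 ^ kU (i + m) →
      (∀ x ∈ X ∪ Y, ∀ y ∈ X ∪ Y, f x = f y) → sg X Y ≠ 0 := by
  induction m with
  | zero =>
    intro i G _ _ V hV
    obtain ⟨f, hf⟩ := SPG.sprime (aU_ge i) (aU_pow i) hV
    have he : 2 * 2 ^ (4 * aU i + 26) = 2 ^ SU i 0 := by
      have : SU i 0 = 4 * aU i + 26 + 1 := rfl
      rw [this]
      ring
    refine ⟨fun v => Fin.cast he (f v), ?_⟩
    intro X Y hX hY hd hne hc hm
    refine hf X Y hX hY hd hne hc fun x hx y hy => ?_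
    exact Fin.cast_injective he (hm x hx y hy)
  | succ m ih =>
    intro i G _ _ V hV
    obtain ⟨f₁, hf₁⟩ := roundU (r := i + 2) (aU_ge i) (aU_pow i) (uU_le i) (kU_exp i) hV
    have hstep : ∀ j, ∃ f : G → Fin (2 ^ SU (i + 1) m), ∀ X Y : Finset G,
        X ⊆ V.filter (fun v => f₁ v = j) → Y ⊆ V.filter (fun v => f₁ v = j) → Disjoint X Y →
        (X ∪ Y).Nonempty → (X ∪ Y).card ≤ 2 ^ kU (i + (m + 1)) →
        (∀ x ∈ X ∪ Y, ∀ y ∈ X ∪ Y, f x = f y) → sg X Y ≠ 0 := by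
      intro j
      have h := ih (i + 1) G _ (hf₁ j)
      rw [show i + 1 + m = i + (m + 1) by ring] at h
      exact h
    choose f₂ hf₂ using hstep
    have he : 2 ^ (4 * aU i + 27) * 2 ^ SU (i + 1) m = 2 ^ SU i (m + 1) := by
      rw [← pow_add]
      rfl
    refine ⟨fun v => Fin.cast he (finProdFinEquiv (f₁ v, f₂ (f₁ v) v)), ?_⟩
    intro X Y hX hY hd hne hc hm
    have hm' : ∀ x ∈ X ∪ Y, ∀ y ∈ X ∪ Y, f₁ x = f₁ y ∧ f₂ (f₁ x) x = f₂ (f₁ y) y := by
      intro x hx y hy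
      have h1 := finProdFinEquiv.injective (Fin.cast_injective he (hm x hx y hy))
      rw [Prod.mk.injEq] at h1
      exact h1
    obtain ⟨b, hb⟩ := hne
    refine hf₂ (f₁ b) X Y (fun x hx => mem_filter.2 ⟨hX hx, (hm' x (mem_union_left _ hx) b hb).1⟩)
      (fun x hx => mem_filter.2 ⟨hY hx, (hm' x (mem_union_right _ hx) b hb).1⟩) hd ⟨b, hb⟩ hc ?_
    intro x hx y hy
    have hx' := hm' x hx b hb
    have hy' := hm' y hy b hb
    rw [← hx'.1]
    rw [hx'.2, ← hy'.2, hx'.1, hy'.1]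

theorem press_aU {G : Type*} [AddCommGroup G] [DecidableEq G] {V : Finset G}
    (h : SP.Press (2 ^ 60) V) : SPG.Press (aU 0) (kU 0) V := by
  intro Y hY
  have e : SPG.wq (aU 0) = 4⁻¹ := by
    unfold SPG.wq aU
    norm_num
  rw [e]
  exact h Y hY

/-- The tower is an iterate. -/
theorem tow2_iter (m : ℕ) : tow2 m = (fun j : ℕ => 2 ^ j)^[m] 1 := by
  induction m with
  | zero => rfl
  | succ m ih =>
    rw [Function.iterate_succ_apply', ← ih]
    rfl

/-- **The uniform theorem for groups**; `K` depends on `c` only. -/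
theorem uniform_group (c : ℝ) (hc : 0 < c) : ∃ K : ℕ, ∀ (A : Type u₀) [AddCommGroup A]
    (W : Set A), (∀ B : Finset A, (B : Set A) ⊆ W → ∃ D ⊆ B,
      (∀ X Y : Finset A, X ⊆ D → Y ⊆ D → X.sum id = Y.sum id → X = Y) ∧
      c * (B.card : ℝ) ≤ D.card) → ∀ m n : ℕ, 1 ≤ m → n ≤ (fun j : ℕ => 2 ^ j)^[m] 1 →
      ∃ f : A → Fin (2 ^ (K * m) ^ m), ∀ B : Finset A, (B : Set A) ⊆ W →
        B.card ≤ n → (∀ x ∈ B, ∀ y ∈ B, f x = f y) →
        ∀ X Y : Finset A, X ⊆ B → Y ⊆ B → X.sum id = Y.sum id → X = Y := by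
  classical
  set c' := min c 1 with hcdef
  have hc' : 0 < c' := lt_min hc one_pos
  have hc1 : c' ≤ 1 := min_le_right _ _
  obtain ⟨q, hq⟩ : ∃ q : ℕ, 2 * (3 / c' * Real.log (1 + 12 / c' *
      Real.log (2 ^ (60 * 2 ^ 60 + 2))) + 2) ≤ (q : ℝ) := exists_nat_ge _
  refine ⟨6300 + q, fun A _ W hW m n hm hn => ?_⟩
  obtain ⟨m, rfl⟩ : ∃ m', m = m' + 1 := ⟨m - 1, by omega⟩
  rw [← tow2_iter] at hn
  -- the number of classes
  have hcount : q * 2 ^ SU 0 m ≤ 2 ^ ((6300 + q) * (m + 1)) ^ (m + 1) := by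
    have h1 : q ≤ 2 ^ q := Nat.lt_two_pow_self.le
    calc q * 2 ^ SU 0 m ≤ 2 ^ q * 2 ^ SU 0 m := Nat.mul_le_mul_right _ h1
      _ = 2 ^ (q + SU 0 m) := by rw [pow_add]
      _ ≤ _ := by
        refine Nat.pow_le_pow_right (by norm_num) ?_
        have h2 := SU_zero_le m
        have h3 : (6300 * (m + 1)) ^ (m + 1) + (q * (m + 1)) ^ (m + 1) ≤
            ((6300 + q) * (m + 1)) ^ (m + 1) := by
          rw [add_mul]
          exact pow_add_pow_le (Nat.zero_le _) (Nat.zero_le _) (by omega)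
        have h4 : q ≤ (q * (m + 1)) ^ (m + 1) := by
          calc q ≤ q * (m + 1) := Nat.le_mul_of_pos_right _ (by omega)
            _ ≤ (q * (m + 1)) ^ (m + 1) := Nat.le_self_pow (by omega) _
        omega
  obtain ⟨f, hf⟩ := Pool.Agent.S12.compactness
    (2 ^ ((6300 + q) * (m + 1)) ^ (m + 1)) W
    (fun B => B.card ≤ n → ∀ X Y : Finset A, X ⊆ B → Y ⊆ B → X.sum id = Y.sum id → X = Y)
    (fun V hV => by
      have hP : ∀ B ⊆ V, ∃ D ⊆ B,
          (∀ X Y : Finset A, X ⊆ D → Y ⊆ D → X.sum id = Y.sum id → X = Y) ∧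
          c' * (B.card : ℝ) ≤ D.card := by
        intro B hB
        obtain ⟨D, hD, hd, hcard⟩ := hW B (fun x hx => hV (hB hx))
        refine ⟨D, hD, hd, le_trans ?_ hcard⟩
        exact mul_le_mul_of_nonneg_right (min_le_left _ _) (Nat.cast_nonneg _)
      obtain ⟨g, hg⟩ := SP.press_classes hc' hc1 (k := 2 ^ 60) Nat.one_le_two_pow V hP q hq
      have hstep : ∀ j, ∃ f : A → Fin (2 ^ SU 0 m), ∀ X Y : Finset A,
          X ⊆ V.filter (fun v => g v = j) → Y ⊆ V.filter (fun v => g v = j) → Disjoint X Y →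
          (X ∪ Y).Nonempty → (X ∪ Y).card ≤ n → (∀ x ∈ X ∪ Y, ∀ y ∈ X ∪ Y, f x = f y) →
          sg X Y ≠ 0 := by
        intro j
        obtain ⟨f, hf⟩ := roundsU m 0 A _ (press_aU (hg j))
        refine ⟨f, fun X Y hX hY hd hne hcd => hf X Y hX hY hd hne (hcd.trans ?_)⟩
        rw [Nat.zero_add]
        exact hn.trans (tow2_le' m)
      choose f₂ hf₂ using hstep
      refine ⟨fun v => Fin.castLE hcount (finProdFinEquiv (g v, f₂ (g v) v)),
        fun B hB hmono hcard X Y hX hY hXY => ?_⟩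
      have hmono' : ∀ x ∈ B, ∀ y ∈ B, g x = g y ∧ f₂ (g x) x = f₂ (g y) y := by
        intro x hx y hy
        have h1 := finProdFinEquiv.injective (Fin.castLE_injective hcount (hmono x hx y hy))
        rw [Prod.mk.injEq] at h1
        exact h1
      by_contra hne
      have hne' : (X \ Y ∪ Y \ X).Nonempty := by
        rw [Finset.nonempty_iff_ne_empty]
        intro h0
        rw [Finset.union_eq_empty, Finset.sdiff_eq_empty_iff_subset,
          Finset.sdiff_eq_empty_iff_subset] at h0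
        exact hne (Finset.Subset.antisymm h0.1 h0.2)
      obtain ⟨b, hb⟩ := hne'
      have hsub : X \ Y ∪ Y \ X ⊆ B := by
        intro x hx
        rcases Finset.mem_union.1 hx with h | h
        · exact hX (Finset.mem_sdiff.1 h).1
        · exact hY (Finset.mem_sdiff.1 h).1
      have hclass : ∀ x ∈ B, x ∈ V.filter (fun v => g v = g b) := fun x hx =>
        Finset.mem_filter.2 ⟨hB hx, (hmono' x hx b (hsub hb)).1⟩
      refine hf₂ (g b) (X \ Y) (Y \ X) (fun x hx => hclass x (hX (Finset.mem_sdiff.1 hx).1))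
        (fun x hx => hclass x (hY (Finset.mem_sdiff.1 hx).1)) disjoint_sdiff_sdiff ⟨b, hb⟩
        ((Finset.card_le_card hsub).trans hcard) ?_ ?_
      · intro x hx y hy
        have hx' := hmono' x (hsub hx) b (hsub hb)
        have hy' := hmono' y (hsub hy) b (hsub hb)
        rw [← hx'.1]
        rw [hx'.2, ← hy'.2, hx'.1, hy'.1]
      · unfold sg
        rw [Finset.sum_sdiff_sub_sum_sdiff, sub_eq_zero]
        exact hXY)
  exact ⟨f, fun B hB hcard hmono => hf B hB hmono hcard⟩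

end Pool.Agent.RR
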