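import Pool.Agent.RR.TowDefs

/-!
The numerical sequences of the entropy tower (row I.6).
-/

set_option autoImplicit false

namespace Pool.Agent.RR

/-- The sequence `40 u`, `exp (2 u)`, ... -/
noncomputable def sqZ (u : ℝ) : ℕ → ℝ
  | 0 => 40 * u
  | (i + 1) => Real.exp (sqZ u i / 20)

/-- The sequence `sqZ` cut at `2 ^ (5 * k / 6)`. -/
noncomputable def sqY (u : ℝ) (k i : ℕ) : ℝ := min (2 ^ (5 * k / 6)) (sqZ u i)

/-- The steps of `kap`. -/
noncomputable def sqK (b u : ℝ) (k i : ℕ) : ℝ := sqY u k i ^ 12 * (1 + 2 * b) * Real.exp u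

theorem le_iter {u : ℝ} (i : ℕ) : u ≤ Real.exp^[i] u := by
  induction i with
  | zero => simp
  | succ i ih =>
    rw [Function.iterate_succ_apply']
    have := Real.add_one_le_exp (Real.exp^[i] u)
    linarith

theorem exp_four : (40 : ℝ) ≤ Real.exp 4 := by
  have h1 : (2.7182818283 : ℝ) < Real.exp 1 := Real.exp_one_gt_d9
  have h2 : Real.exp 4 = Real.exp 1 ^ 4 := by
    rw [← Real.exp_nat_mul]
    norm_num
  rw [h2]
  have h3 : (2.7182818283 : ℝ) ^ 4 ≤ Real.exp 1 ^ 4 := by gcongr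
  have h4 : (40 : ℝ) ≤ (2.7182818283 : ℝ) ^ 4 := by norm_num
  linarith

theorem sqZ_ge {u : ℝ} (hu : 4 ≤ u) (i : ℕ) : 40 * Real.exp^[i] u ≤ sqZ u i := by
  induction i with
  | zero => simp [sqZ]
  | succ i ih =>
    rw [Function.iterate_succ_apply']
    have h1 := le_iter (u := u) i
    have h2 : Real.exp (2 * Real.exp^[i] u) ≤ sqZ u (i + 1) := by
      rw [sqZ]
      apply Real.exp_le_exp.2
      linarith
    have h3 : Real.exp (2 * Real.exp^[i] u) = Real.exp (Real.exp^[i] u) * Real.exp (Real.exp^[i] u) := by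
      rw [← Real.exp_add]
      ring_nf
    have h4 : 40 ≤ Real.exp (Real.exp^[i] u) := by
      refine exp_four.trans (Real.exp_le_exp.2 ?_)
      linarith
    have h5 : 0 < Real.exp (Real.exp^[i] u) := Real.exp_pos _
    nlinarith

theorem pow_big {k : ℕ} (hk : 100 ≤ k) :
    40 * (k : ℝ) ≤ 2 ^ (5 * k / 6) ∧ (1600 : ℝ) ≤ 2 ^ (5 * k / 6) := by
  have h : ∀ m : ℕ, 50 ≤ m → 80 * m ≤ 2 ^ m := by
    intro m hm
    induction m, hm using Nat.le_induction with
    | base => norm_num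
    | succ m hm ih =>
      rw [pow_succ]
      omega
  have h1 := h (5 * k / 6) (by omega)
  have h2 : 40 * k ≤ 2 ^ (5 * k / 6) := by omega
  have h3 : 1600 ≤ 2 ^ (5 * k / 6) := by omega
  exact ⟨by exact_mod_cast h2, by exact_mod_cast h3⟩

theorem le_exp_div {x : ℝ} (hx : 1600 ≤ x) : x ≤ Real.exp (x / 20) := by
  have h1 : Real.exp (x / 20) = Real.exp (x / 40) * Real.exp (x / 40) := by
    rw [← Real.exp_add]
    ring_nf
  have h2 := Real.add_one_le_exp (x / 40)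
  rw [h1]
  nlinarith

theorem sqY_pos {u : ℝ} (hu : 4 ≤ u) (k i : ℕ) : 0 < sqY u k i := by
  have h1 := sqZ_ge hu i
  have h2 := le_iter (u := u) i
  refine lt_min (by positivity) ?_
  linarith

theorem sqY_le (u : ℝ) (k i : ℕ) : sqY u k i ≤ 2 ^ (5 * k / 6) := min_le_left _ _

theorem sqY_le' (u : ℝ) (k i : ℕ) : sqY u k i ≤ 2 ^ k := by
  refine (sqY_le u k i).trans ?_
  exact pow_le_pow_right₀ (by norm_num) (by omega)

theorem sqY_pow {u : ℝ} (hu : 4 ≤ u) (k i : ℕ) : sqY u k i ^ 12 ≤ 2 ^ (10 * k) := by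
  have hy := sqY_pos hu k i
  calc sqY u k i ^ 12 ≤ (2 ^ (5 * k / 6)) ^ 12 := by
        gcongr
        exact sqY_le u k i
    _ = 2 ^ (5 * k / 6 * 12) := by rw [pow_mul]
    _ ≤ 2 ^ (10 * k) := pow_le_pow_right₀ (by norm_num) (by omega)

theorem sqY_ge {u : ℝ} {k : ℕ} (hu : 4 ≤ u) (hk : 100 ≤ k) (huk : u ≤ k) (i : ℕ) :
    40 * u ≤ sqY u k i := by
  have h1 := sqZ_ge hu i
  have h2 := le_iter (u := u) i
  have h3 := (pow_big hk).1
  refine le_min ?_ ?_ <;> linarith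

theorem sqY_step {u : ℝ} {k : ℕ} (hk : 100 ≤ k) (i : ℕ) :
    sqY u k (i + 1) ≤ Real.exp (sqY u k i / 20) := by
  rcases min_choice ((2 : ℝ) ^ (5 * k / 6)) (sqZ u i) with h | h
  · have h1 : sqY u k i = 2 ^ (5 * k / 6) := h
    rw [h1]
    exact (sqY_le u k (i + 1)).trans (le_exp_div (pow_big hk).2)
  · have h1 : sqY u k i = sqZ u i := h
    rw [h1]
    exact min_le_right _ _

theorem sqY_end {u : ℝ} {k r : ℕ} (hu : 4 ≤ u) (hr : (2 : ℝ) ^ k ≤ Real.exp^[r] u) :
    sqY u k r = 2 ^ (5 * k / 6) := by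
  have h1 := sqZ_ge hu r
  have h2 : (0 : ℝ) < 2 ^ k := by positivity
  have h3 : (2 : ℝ) ^ (5 * k / 6) ≤ 2 ^ k := pow_le_pow_right₀ (by norm_num) (by omega)
  refine min_eq_left ?_
  linarith

theorem sq_le_exp {u : ℝ} (hu : 0 ≤ u) : u ^ 2 ≤ Real.exp (2 * u) := by
  have h1 := Real.add_one_le_exp u
  have h2 : Real.exp (2 * u) = Real.exp u ^ 2 := by
    rw [← Real.exp_nat_mul]
    norm_num
  rw [h2]
  gcongr
  linarith

theorem exp_le_pow {u : ℝ} {k : ℕ} (huk : u ≤ k) : Real.exp (3 * u) ≤ 2 ^ (5 * k) := by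
  have h1 : Real.exp (3 * u) ≤ Real.exp (3 * k) := Real.exp_le_exp.2 (by linarith)
  have h2 : Real.exp (3 * (k : ℝ)) = (Real.exp 1 ^ 3) ^ k := by
    rw [← pow_mul, ← Real.exp_nat_mul]
    push_cast
    ring_nf
  have h3 : Real.exp 1 ^ 3 ≤ 2 ^ 5 := by
    have h4 : Real.exp 1 < 2.7182818286 := Real.exp_one_lt_d9
    have h5 : Real.exp 1 ^ 3 ≤ (2.7182818286 : ℝ) ^ 3 := by gcongr
    have h6 : (2.7182818286 : ℝ) ^ 3 ≤ 2 ^ 5 := by norm_num
    linarith
  rw [pow_mul]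
  calc Real.exp (3 * u) ≤ (Real.exp 1 ^ 3) ^ k := h1.trans_eq h2
    _ ≤ (2 ^ 5) ^ k := by gcongr

theorem sq_le_pow {k : ℕ} (hk : 100 ≤ k) : 3 * (k : ℝ) ^ 2 ≤ (16 / 11) ^ k := by
  induction k, hk using Nat.le_induction with
  | base => norm_num
  | succ k hk ih =>
    have hk' : (100 : ℝ) ≤ k := by exact_mod_cast hk
    have h5 : (16 / 11 : ℝ) ^ (k + 1) = (16 / 11) ^ k * (16 / 11) := pow_succ _ _
    rw [h5]
    push_cast
    nlinarith

theorem sum_bound {u : ℝ} {k : ℕ} (hk : 100 ≤ k) (hu : 0 ≤ u) (huk : u ≤ k) :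
    3 * u ^ 2 * Real.exp u ≤ 2 ^ (2 * k) := by
  have h1 : Real.exp u ≤ (11 / 4) ^ k := by
    have h2 : Real.exp u ≤ Real.exp (k * 1) := Real.exp_le_exp.2 (by linarith)
    rw [Real.exp_nat_mul] at h2
    refine h2.trans ?_
    have h4 : Real.exp 1 < 2.7182818286 := Real.exp_one_lt_d9
    gcongr
    linarith
  have h3 := sq_le_pow hk
  calc 3 * u ^ 2 * Real.exp u ≤ 3 * (k : ℝ) ^ 2 * (11 / 4) ^ k := by gcongr
    _ ≤ (16 / 11) ^ k * (11 / 4) ^ k := by gcongr
    _ = 2 ^ (2 * k) := by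
      rw [← mul_pow, pow_mul]
      norm_num

/-- The error term of the price. -/
theorem sqK_e {b e u : ℝ} {k : ℕ} (hb : 1 ≤ b) (hbu : b ≤ u) (he : 0 ≤ e)
    (hek : e ≤ 1 / 2 ^ (17 * k)) (hk : 100 ≤ k) (hu : 4 ≤ u) (huk : u ≤ k) (i : ℕ) :
    sqK b u k i * ((2 * b + 1) * e) ≤ 1 / 2 := by
  have hy := sqY_pos hu k i
  have h1 : sqK b u k i ≤ 2 ^ (10 * k) * (1 + 2 * b) * Real.exp u := by
    have h2 := sqY_pow hu k i
    rw [sqK]
    gcongr
  have h3 : 9 * u ^ 2 * Real.exp u ≤ 9 * 2 ^ (5 * k) := by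
    have h4 := sq_le_exp (u := u) (by linarith)
    have h5 : Real.exp (2 * u) * Real.exp u = Real.exp (3 * u) := by
      rw [← Real.exp_add]
      ring_nf
    have h6 := exp_le_pow huk
    have h7 : u ^ 2 * Real.exp u ≤ Real.exp (2 * u) * Real.exp u := by gcongr
    linarith
  have h8 : (1 + 2 * b) * (2 * b + 1) ≤ 9 * u ^ 2 := by nlinarith
  have h10 : (18 : ℝ) ≤ 2 ^ (2 * k) := by
    have h11 := (pow_big hk).2
    have h12 : (2 : ℝ) ^ (5 * k / 6) ≤ 2 ^ (2 * k) := pow_le_pow_right₀ (by norm_num) (by omega)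
    linarith
  calc sqK b u k i * ((2 * b + 1) * e)
      ≤ (2 ^ (10 * k) * (1 + 2 * b) * Real.exp u) * ((2 * b + 1) * (1 / 2 ^ (17 * k))) := by
        gcongr
    _ = (2 ^ (10 * k) / 2 ^ (17 * k)) * (((1 + 2 * b) * (2 * b + 1)) * Real.exp u) := by
        ring
    _ ≤ (2 ^ (10 * k) / 2 ^ (17 * k)) * ((9 * u ^ 2) * Real.exp u) := by gcongr
    _ ≤ (2 ^ (10 * k) / 2 ^ (17 * k)) * (9 * 2 ^ (5 * k)) := by gcongr
    _ = 9 / 2 ^ (2 * k) := by
        rw [show (17 * k) = 10 * k + (5 * k + 2 * k) by ring, pow_add, pow_add]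
        field_simp
    _ ≤ 1 / 2 := by
        rw [div_le_div_iff₀ (by positivity) (by norm_num)]
        linarith

/-- The main term of the price, at level one. -/
theorem sqK_zero {b u : ℝ} {k : ℕ} (hb : 1 ≤ b) (hbu : b ≤ u) (hu : 4 ≤ u) :
    sqK b u k 0 * (2 * b * Real.exp (b + 2 - 100 * u)) ≤ 1 / 2 := by
  have hy := sqY_pos hu k 0
  have h1 : sqY u k 0 ≤ 40 * u := min_le_right _ _
  have h2 : u ≤ Real.exp u := by linarith [Real.add_one_le_exp u]
  have h3 : sqK b u k 0 ≤ (40 * Real.exp u) ^ 12 * (3 * Real.exp u) * Real.exp u := by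
    rw [sqK]
    gcongr
    · linarith
    · linarith
  have h4 : Real.exp (b + 2 - 100 * u) ≤ Real.exp (2 - 99 * u) := Real.exp_le_exp.2 (by linarith)
  have h5 : (0 : ℝ) < Real.exp u := Real.exp_pos _
  have h6 : (40 : ℝ) ≤ Real.exp u := exp_four.trans (Real.exp_le_exp.2 hu)
  calc sqK b u k 0 * (2 * b * Real.exp (b + 2 - 100 * u))
      ≤ ((40 * Real.exp u) ^ 12 * (3 * Real.exp u) * Real.exp u) *
          (2 * Real.exp u * Real.exp (2 - 99 * u)) := by
        gcongr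
        linarith
    _ = 40 ^ 12 * 6 * (Real.exp u ^ 15 * Real.exp (2 - 99 * u)) := by ring
    _ ≤ Real.exp u ^ 12 * Real.exp u * (Real.exp u ^ 15 * Real.exp (2 - 99 * u)) := by
        gcongr
        linarith
    _ = Real.exp (2 - 71 * u) := by
        rw [show Real.exp u ^ 12 * Real.exp u * (Real.exp u ^ 15 * Real.exp (2 - 99 * u)) =
          Real.exp u ^ 28 * Real.exp (2 - 99 * u) by ring, ← Real.exp_nat_mul, ← Real.exp_add]
        congr 1
        push_cast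
        ring
    _ ≤ Real.exp (-4) := Real.exp_le_exp.2 (by linarith)
    _ ≤ 1 / 2 := by
        rw [Real.exp_neg]
        have := exp_four
        rw [← one_div]
        exact one_div_le_one_div_of_le (by norm_num) (by linarith)

/-- The main term of the price, at the later levels. -/
theorem sqK_succ {b u h : ℝ} {k : ℕ} (hb : 1 ≤ b) (hbu : b ≤ u) (hk : 100 ≤ k) (hu : 4 ≤ u)
    (huk : u ≤ k) (i : ℕ) (hh : sqY u k i ≤ h) :
    sqK b u k (i + 1) * (2 * b * Real.exp (-h)) ≤ 1 / 2 := by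
  have hy := sqY_pos hu k (i + 1)
  have h1 := sqY_step (u := u) hk i
  have h2 := sqY_ge hu hk huk i
  have h3 : sqK b u k (i + 1) ≤ Real.exp (sqY u k i / 20) ^ 12 * (3 * u) * Real.exp u := by
    rw [sqK]
    gcongr
    linarith
  have h4 : Real.exp (sqY u k i / 20) ^ 12 = Real.exp (3 * sqY u k i / 5) := by
    rw [← Real.exp_nat_mul]
    congr 1
    push_cast
    ring
  have h5 : Real.exp (-h) ≤ Real.exp (-sqY u k i) := Real.exp_le_exp.2 (by linarith)
  have h6 := sq_le_exp (u := u) (by linarith)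
  have h7 : (40 : ℝ) ≤ Real.exp u := exp_four.trans (Real.exp_le_exp.2 hu)
  calc sqK b u k (i + 1) * (2 * b * Real.exp (-h))
      ≤ (Real.exp (3 * sqY u k i / 5) * (3 * u) * Real.exp u) *
          (2 * u * Real.exp (-sqY u k i)) := by
        rw [← h4]
        gcongr
    _ = 6 * u ^ 2 * (Real.exp (3 * sqY u k i / 5) * Real.exp u * Real.exp (-sqY u k i)) := by ring
    _ ≤ Real.exp u * Real.exp (2 * u) *
          (Real.exp (3 * sqY u k i / 5) * Real.exp u * Real.exp (-sqY u k i)) := by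
        gcongr
        linarith
    _ = Real.exp (4 * u - 2 * sqY u k i / 5) := by
        rw [← Real.exp_add, ← Real.exp_add, ← Real.exp_add, ← Real.exp_add]
        congr 1
        ring
    _ ≤ Real.exp (-4) := Real.exp_le_exp.2 (by linarith)
    _ ≤ 1 / 2 := by
        rw [Real.exp_neg]
        have := exp_four
        rw [← one_div]
        exact one_div_le_one_div_of_le (by norm_num) (by linarith)

theorem sq_gain {b cf u : ℝ} {k : ℕ} {f : ℕ → ℝ} (hb : 1 ≤ b) (hu : 4 ≤ u)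
    (hcf : Real.exp (-u) ≤ cf) (hf : ∀ n, 0 ≤ f n)
    (hf' : ∀ n : ℕ, 1 ≤ n → n ≤ 2 ^ k → cf / (n : ℝ) ^ 11 ≤ f n) (i n : ℕ) (hn : 1 ≤ n) :
    sqY u k i ≤ n + sqK b u k i * (f n / (1 + 2 * b)) := by
  have hy := sqY_pos hu k i
  have hn1 : (1 : ℝ) ≤ n := by exact_mod_cast hn
  have h0 : 0 ≤ sqK b u k i * (f n / (1 + 2 * b)) := by
    have := hf n
    rw [sqK]
    positivity
  rcases le_total (sqY u k i) n with h | h
  · nlinarith
  · have h1 : n ≤ 2 ^ k := by
      have := h.trans (sqY_le' u k i)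
      exact_mod_cast this
    have h2 : Real.exp (-u) / (n : ℝ) ^ 11 ≤ f n := by
      refine le_trans ?_ (hf' n hn h1)
      gcongr
    have h3 : sqK b u k i * (f n / (1 + 2 * b)) = sqY u k i ^ 12 * Real.exp u * f n := by
      rw [sqK]
      field_simp
    have h4 : sqY u k i ^ 12 * Real.exp u * (Real.exp (-u) / (n : ℝ) ^ 11) ≤
        sqK b u k i * (f n / (1 + 2 * b)) := by
      rw [h3]
      gcongr
    have h5 : sqY u k i ^ 12 * Real.exp u * (Real.exp (-u) / (n : ℝ) ^ 11) =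
        sqY u k i * (sqY u k i ^ 11 / (n : ℝ) ^ 11) := by
      rw [Real.exp_neg]
      field_simp
    have h6 : 1 ≤ sqY u k i ^ 11 / (n : ℝ) ^ 11 := by
      rw [le_div_iff₀ (by positivity), one_mul]
      gcongr
    nlinarith

/-- The sequences of the tower: thresholds `cf / n ^ 11` up to `2 ^ k`, with explicit
constants. -/
theorem sched_exist' (r : ℕ) (b e cf u : ℝ) (k : ℕ) (f : ℕ → ℝ) (hb : 1 ≤ b) (he : 0 ≤ e)
    (hek : e ≤ 1 / 2 ^ (17 * k)) (hCu : 5 * r + 200 ≤ u) (hcf : Real.exp (-u) ≤ cf)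
    (hbu : b ≤ u) (huk : u ≤ k) (hr : (2 : ℝ) ^ k ≤ Real.exp^[r] u) (hf : ∀ n, 0 ≤ f n)
    (hf' : ∀ n : ℕ, 1 ≤ n → n ≤ 2 ^ k → cf / (n : ℝ) ^ 11 ≤ f n) :
    ∃ (A κ H : ℕ → ℝ), Sched b e f A κ H ∧ 0 ≤ A (r + 1) ∧ A (r + 1) ≤ (2 * r + 102) * u ∧
      (2 : ℝ) ^ (10 * k) ≤ κ (r + 1) ∧ κ (r + 1) ≤ 2 ^ (12 * k) ∧
      (2 : ℝ) ^ (k / 2 + 10) ≤ H (r + 1) := by
  have hr0 : (0 : ℝ) ≤ r := Nat.cast_nonneg r
  have hu : 4 ≤ u := by linarith
  have hk : 100 ≤ k := by
    have : (100 : ℝ) ≤ k := by linarith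
    exact_mod_cast this
  have hK : ∀ i, 0 ≤ sqK b u k i := fun i => by
    have := sqY_pos hu k i
    rw [sqK]
    positivity
  have hY : ∀ i, 0 ≤ sqY u k i := fun i => (sqY_pos hu k i).le
  have hKr : sqK b u k r ≤ ∑ i ∈ Finset.range (r + 1), sqK b u k i :=
    Finset.single_le_sum (f := fun l => sqK b u k l) (fun l _ => hK l) (by simp)
  have hYr : ∀ i, sqY u k i ≤ ∑ l ∈ Finset.range (i + 1), sqY u k l := fun i =>
    Finset.single_le_sum (f := fun l => sqY u k l) (fun l _ => hY l) (by simp)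
  refine ⟨fun j => 100 * u + j * (b + 4), fun j => ∑ i ∈ Finset.range j, sqK b u k i,
    fun j => 100 * u - (b + 2) + ∑ i ∈ Finset.range j, sqY u k i, ?_, ?_, ?_, ?_, ?_, ?_⟩
  · refine ⟨?_, by simp, ?_, by simp, ?_, ?_, ?_, ?_⟩
    · intro j
      push_cast
      ring
    · intro j
      simp only [Finset.sum_range_succ]
      linarith [hK j]
    · simp only [Finset.range_zero, Finset.sum_empty]
      linarith
    · intro j
      simp only [Finset.sum_range_succ]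
      linarith [hY j]
    · intro j n hn
      simp only [Finset.sum_range_succ]
      have h1 := sq_gain hb hu hcf hf hf' j n hn
      calc _ = sqY u k j := by ring
        _ ≤ n + sqK b u k j * (f n / (1 + 2 * b)) := h1
        _ = _ := by ring
    · intro j
      have h5 := sqK_e hb hbu he hek hk hu huk j
      have h6 : sqK b u k j * (2 * b *
          Real.exp (-(100 * u - (b + 2) + ∑ i ∈ Finset.range j, sqY u k i))) ≤ 1 / 2 := by
        cases j with
        | zero =>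
          have h7 := sqK_zero (k := k) hb hbu hu
          have h8 : -(100 * u - (b + 2) + ∑ i ∈ Finset.range 0, sqY u k i) =
              b + 2 - 100 * u := by
            simp only [Finset.range_zero, Finset.sum_empty]
            ring
          rw [h8]
          exact h7
        | succ i =>
          refine sqK_succ hb hbu hk hu huk i ?_
          have := hYr i
          linarith
      simp only [Finset.sum_range_succ]
      calc _ = sqK b u k j * ((2 * b + 1) * e) + sqK b u k j * (2 * b *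
          Real.exp (-(100 * u - (b + 2) + ∑ i ∈ Finset.range j, sqY u k i))) := by ring
        _ ≤ 1 := by linarith
  · positivity
  · push_cast
    nlinarith
  · refine le_trans ?_ hKr
    rw [sqK, sqY_end hu hr]
    have h3 : (1600 : ℝ) ≤ Real.exp u := by
      have h4 : Real.exp 4 * Real.exp 4 ≤ Real.exp u := by
        rw [← Real.exp_add]
        exact Real.exp_le_exp.2 (by linarith)
      have h5 := exp_four
      nlinarith
    calc (2 : ℝ) ^ (10 * k) ≤ 2 ^ (5 * k / 6 * 12 + 10) :=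
          pow_le_pow_right₀ (by norm_num) (by omega)
      _ = (2 ^ (5 * k / 6)) ^ 12 * 1 * 1024 := by
          rw [pow_add, pow_mul]
          norm_num
      _ ≤ (2 ^ (5 * k / 6)) ^ 12 * (1 + 2 * b) * Real.exp u := by
          gcongr
          · linarith
          · linarith
  · have h2 : ∀ i ∈ Finset.range (r + 1), sqK b u k i ≤ 2 ^ (10 * k) * (3 * u) * Real.exp u := by
      intro i _
      have hy := sqY_pos hu k i
      have h3 := sqY_pow hu k i
      rw [sqK]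
      gcongr
      linarith
    refine (Finset.sum_le_sum h2).trans ?_
    rw [Finset.sum_const, Finset.card_range, nsmul_eq_mul]
    have h3 := sum_bound hk (by linarith) huk
    have h4 : ((r + 1 : ℕ) : ℝ) ≤ u := by
      push_cast
      linarith
    calc ((r + 1 : ℕ) : ℝ) * (2 ^ (10 * k) * (3 * u) * Real.exp u)
        ≤ u * (2 ^ (10 * k) * (3 * u) * Real.exp u) := by gcongr
      _ = 2 ^ (10 * k) * (3 * u ^ 2 * Real.exp u) := by ring
      _ ≤ 2 ^ (10 * k) * 2 ^ (2 * k) := by gcongr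
      _ = 2 ^ (12 * k) := by
        rw [← pow_add]
        congr 1
        ring
  · have h1 := hYr r
    rw [sqY_end hu hr] at h1
    have h2 : 0 ≤ 100 * u - (b + 2) := by linarith
    have h3 : (2 : ℝ) ^ (k / 2 + 10) ≤ 2 ^ (5 * k / 6) :=
      pow_le_pow_right₀ (by norm_num) (by omega)
    linarith

/-- The sequences of the tower: thresholds `cf / n ^ 11` up to `2 ^ k`. The number `C` depends on
`r` only. -/
theorem sched_exist (r : ℕ) : ∃ C : ℝ, 1 ≤ C ∧ ∀ (b e cf u : ℝ) (k : ℕ) (f : ℕ → ℝ),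
    1 ≤ b → 0 ≤ e → e ≤ 1 / 2 ^ (17 * k) → C ≤ u → Real.exp (-u) ≤ cf → b ≤ u → u ≤ k →
    (2 : ℝ) ^ k ≤ Real.exp^[r] u → (∀ n, 0 ≤ f n) →
    (∀ n : ℕ, 1 ≤ n → n ≤ 2 ^ k → cf / (n : ℝ) ^ 11 ≤ f n) →
    ∃ (A κ H : ℕ → ℝ) (J : ℕ), Sched b e f A κ H ∧ 0 ≤ A J ∧ A J ≤ C * u ∧ (J : ℝ) ≤ C ∧
      (2 : ℝ) ^ (10 * k) ≤ κ J ∧ κ J ≤ 2 ^ (12 * k) ∧ (2 : ℝ) ^ (k / 2 + 10) ≤ H J := by
  have hr0 : (0 : ℝ) ≤ r := Nat.cast_nonneg r
  refine ⟨5 * r + 200, by linarith, ?_⟩
  intro b e cf u k f hb he hek hCu hcf hbu huk hr hf hf'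
  obtain ⟨A, κ, H, h1, h2, h3, h4, h5, h6⟩ :=
    sched_exist' r b e cf u k f hb he hek hCu hcf hbu huk hr hf hf'
  refine ⟨A, κ, H, r + 1, h1, h2, h3.trans ?_, ?_, h4, h5, h6⟩
  · have : 0 ≤ u := by linarith
    nlinarith
  · push_cast
    linarith

end Pool.Agent.RR
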